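import Pool.Agent.Lib.MP_da2c1b_co.Dbl

namespace Pool.Agent.Lib.MP_da2c1b_co

open MeasureTheory Set Filter Metric Module Submodule
open scoped Topology

theorem exists_norm {K : Set E} (hc : IsCompact K) (hconv : Convex ℝ K)
    (hne : (interior K).Nonempty) : ∃ (N : Seminorm ℝ E) (R L : ℝ), (∀ x, ‖x‖ ≤ R * N x) ∧
      (∀ x, N x ≤ L * ‖x‖) ∧ ∀ z, N z ≤ 1 ↔ ∃ P ∈ K, P + (2 : ℝ) • z ∈ K := by
  set D : Set E := {z | ∃ P ∈ K, P + (2 : ℝ) • z ∈ K} with hD
  have hconv0 : Convex ℝ D := by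
    rintro z ⟨P, h1, h2⟩ z' ⟨P', h3, h4⟩ s t hs ht hst
    refine ⟨_, hconv h1 h3 hs ht hst, ?_⟩
    convert hconv h2 h4 hs ht hst using 1
    module
  have hneg : ∀ x ∈ D, -x ∈ D := by
    rintro z ⟨P, h1, h2⟩
    exact ⟨_, h2, by simpa using h1⟩
  have h0 : D ∈ 𝓝 (0 : E) := by
    obtain ⟨P, hP⟩ := hne
    have o : IsOpen {z : E | P + (2 : ℝ) • z ∈ interior K} := isOpen_interior.preimage (by fun_prop)
    filter_upwards [o.mem_nhds (by simpa using hP)] with z hz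
    exact ⟨P, interior_subset hP, interior_subset hz⟩
  have hcomp : IsCompact D := by
    have e : D = (fun p : E × E => (1 / 2 : ℝ) • (p.2 - p.1)) '' (K ×ˢ K) := by
      ext z
      constructor
      · rintro ⟨P, h1, h2⟩
        exact ⟨(P, P + (2 : ℝ) • z), ⟨h1, h2⟩, by module⟩
      · rintro ⟨⟨P, Q⟩, ⟨h1, h2⟩, rfl⟩
        exact ⟨P, h1, by convert h2 using 1; module⟩
    rw [e]
    exact (hc.prod hc).image (by fun_prop)
  have hbal : Balanced ℝ D := (balanced_iff_neg_mem hconv0).2 fun x hx => hneg x hx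
  have habs : Absorbent ℝ D := absorbent_nhds_zero h0
  let N : Seminorm ℝ E := gaugeSeminorm hbal hconv0 habs
  have hN : ∀ x, N x = gauge D x := fun x => rfl
  obtain ⟨R0, hR0⟩ := hcomp.isBounded.exists_norm_le
  have hRpos : 0 < |R0| + 1 := by positivity
  obtain ⟨L, hL⟩ := hconv0.lipschitz_gauge h0
  refine ⟨N, |R0| + 1, L, fun x => ?_, fun x => ?_, fun x => ?_⟩
  · have := le_gauge_of_subset_closedBall habs hRpos.le (x := x) (by
      intro z hz
      have h1 := hR0 _ hz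
      simp only [mem_closedBall, dist_zero_right]
      linarith [le_abs_self R0])
    rw [div_le_iff₀ hRpos] at this
    rw [hN]; linarith
  · have := hL.dist_le_mul x 0
    rw [gauge_zero, dist_zero_right, dist_zero_right] at this
    exact (le_abs_self _).trans this
  · rw [hN, gauge_le_one_iff_mem_closure hconv0 h0, hcomp.isClosed.closure_eq]
    rfl

theorem exists_par {K : Set E} {N : Seminorm ℝ E} (hc : IsCompact K) (hconv : Convex ℝ K)
    (hne : (interior K).Nonempty) (hN : ∀ z, N z ≤ 1 ↔ ∃ P ∈ K, P + (2 : ℝ) • z ∈ K) {x : E}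
    (hx : N x = 1) : ∃ A v, A ∈ K ∧ A + x ∈ K ∧ A + v ∈ K ∧ A + x + v ∈ K ∧ 0 < w x v ∧
      ∀ P ∈ K, P + x ∈ K → 0 ≤ w x (P - A) ∧ w x (P - A) ≤ w x v := by
  have hT : IsCompact (K ∩ {P | P + x ∈ K}) :=
    hc.inter_right (hc.isClosed.preimage (by fun_prop))
  obtain ⟨F, hF, hC⟩ := (hN x).1 hx.le
  have mid : ∀ Z ∈ K, Z + (1 / 2 : ℝ) • (F - Z) ∈ K ∩ {P | P + x ∈ K} := by
    intro Z hZ
    refine ⟨hconv.add_smul_sub_mem hZ hF ⟨by norm_num, by norm_num⟩, ?_⟩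
    have := hconv.add_smul_sub_mem hZ hC (t := 1 / 2) ⟨by norm_num, by norm_num⟩
    simp only [Set.mem_ofPred_eq]
    convert this using 1
    module
  have hw : Continuous fun P : E => w x P := w_cont.comp (f := fun P : E => (x, P)) (by fun_prop)
  obtain ⟨A, hA, h1⟩ := hT.exists_isMinOn ⟨_, mid F hF⟩ hw.continuousOn
  obtain ⟨B, hB, h2⟩ := hT.exists_isMaxOn ⟨_, mid F hF⟩ hw.continuousOn
  refine ⟨A, B - A, hA.1, hA.2, by simpa using hB.1, ?_, ?_, fun P hP hP2 => ?_⟩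
  · rw [show A + x + (B - A) = B + x by abel]; exact hB.2
  · obtain ⟨Z, hZ⟩ := hne
    obtain ⟨ε, e0, e1⟩ := int_move hZ (!₂[-x 1, x 0] : E)
    have k1 : w x A ≤ w x (Z + (1 / 2 : ℝ) • (F - Z)) := h1 (mid Z (interior_subset hZ))
    have k2 : w x _ ≤ w x B := h2 (mid _ e1)
    have e : w x (Z + ε • (!₂[-x 1, x 0] : E) + (1 / 2 : ℝ) • (F - (Z + ε • !₂[-x 1, x 0]))) =
        w x (Z + (1 / 2 : ℝ) • (F - Z)) + ε / 2 * (x 0 ^ 2 + x 1 ^ 2) := by simp [w]; ring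
    have hsq : 0 < x 0 ^ 2 + x 1 ^ 2 := by
      by_contra h
      have : x = 0 := by
        ext i
        fin_cases i <;> simp <;> nlinarith [sq_nonneg (x 0), sq_nonneg (x 1)]
      rw [this, map_zero] at hx
      norm_num at hx
    rw [e] at k2
    rw [w_sub_right]
    nlinarith
  · have k1 : w x A ≤ w x P := h1 ⟨hP, hP2⟩
    have k2 : w x P ≤ w x B := h2 ⟨hP, hP2⟩
    rw [w_sub_right, w_sub_right]
    constructor <;> linarith

theorem ratio_le {K : Set E} (hv0 : volume K ≠ 0) (hv1 : volume K ≠ ⊤)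
    (h : pd K / cd K ≤ 3 / 4) {B B' : Basis (Fin 2) ℝ E} {W H : ℝ} (hW : 0 < W) (hH : 0 < H)
    (e1 : w (B 0) (B 1) = 4 * W) (e2 : w (B' 0) (B' 1) = H)
    (k1 : 2 * (volume K / volume (ZSpan.fundamentalDomain B)) ≤ pd K)
    (k2 : cd K ≤ 2 * (volume K / volume (ZSpan.fundamentalDomain B'))) : H ≤ 3 * W := by
  have k3 := (ENNReal.div_le_div k1 k2).trans h
  rw [ENNReal.mul_div_mul_left _ _ (by norm_num) (by norm_num), vol_fund B, vol_fund B', e1, e2,
    abs_of_pos hH, abs_of_pos (by positivity)] at k3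
  have hD0 : volume (ZSpan.fundamentalDomain B0) ≠ 0 := ZSpan.measure_fundamentalDomain_ne_zero _
  have hD1 : volume (ZSpan.fundamentalDomain B0) ≠ ⊤ :=
    (ZSpan.fundamentalDomain_isBounded B0).measure_lt_top.ne
  lift volume K to NNReal using hv1 with a ha
  lift volume (ZSpan.fundamentalDomain B0) to NNReal using hD1 with k hk
  have ha0 : (0 : ℝ) < a := by
    have : a ≠ 0 := by simpa using hv0
    positivity
  have hk0 : (0 : ℝ) < k := by
    have : k ≠ 0 := by simpa using hD0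
    positivity
  have e3 : (3 / 4 : ENNReal) = ENNReal.ofReal (3 / 4) := by
    rw [ENNReal.ofReal_div_of_pos (by norm_num)]; simp
  rw [← ENNReal.ofReal_coe_nnreal, ← ENNReal.ofReal_coe_nnreal (p := k),
    ← ENNReal.ofReal_mul (by positivity), ← ENNReal.ofReal_mul (by positivity),
    ← ENNReal.ofReal_div_of_pos (by positivity), ← ENNReal.ofReal_div_of_pos (by positivity),
    ← ENNReal.ofReal_div_of_pos (by positivity), e3,
    ENNReal.ofReal_le_ofReal_iff (by norm_num)] at k3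
  have e4 : (a : ℝ) / (4 * W * k) / (a / (H * k)) = H / (4 * W) := by field_simp
  rw [e4, div_le_iff₀ (by positivity)] at k3
  linarith

theorem ext_of_ratio {K : Set E} (hc : IsCompact K) (hconv : Convex ℝ K)
    (hne : (interior K).Nonempty) (h : pd K / cd K ≤ 3 / 4) :
    ∃ N m R L M, Ext K N m R L M := by
  obtain ⟨N, R, L, hR, hL, hN⟩ := exists_norm hc hconv hne
  obtain ⟨M, hM⟩ := hc.isBounded.exists_norm_le
  have hv0 : volume K ≠ 0 := (Measure.measure_pos_of_nonempty_interior _ hne).ne'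
  have hv1 : volume K ≠ ⊤ := hc.measure_lt_top.ne
  have ex : ∀ x, ∃ A v, N x = 1 → A ∈ K ∧ A + x ∈ K ∧ A + v ∈ K ∧ A + x + v ∈ K ∧ 0 < w x v ∧
      ∀ P ∈ K, P + x ∈ K → 0 ≤ w x (P - A) ∧ w x (P - A) ≤ w x v := by
    intro x
    by_cases hx : N x = 1
    · obtain ⟨A, v, k⟩ := exists_par hc hconv hne hN hx
      exact ⟨A, v, fun _ => k⟩
    · exact ⟨0, 0, fun k => absurd k hx⟩
  choose A V hA using ex
  have key : ∀ x, N x = 1 → ∀ A' u v z, A' ∈ K → A' + u ∈ K → A' + v ∈ K → A' + u + v ∈ K →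
      N z ≤ 1 → w (u + (2 : ℝ) • z) v ≤ 3 * w x (V x) := by
    intro x hx A' u v z h1 h2 h3 h4 hz
    obtain ⟨a1, a2, a3, a4, a5, a6⟩ := hA x hx
    by_contra hn
    have hH : 0 < w (u + (2 : ℝ) • z) v := by linarith [not_le.1 hn]
    have e2 : w ((2 : ℝ) • x) ((2 : ℝ) • V x) = 4 * w x (V x) := by simp [w]; ring
    obtain ⟨B, b0, b1⟩ := exists_basis (a := (2 : ℝ) • x) (b := (2 : ℝ) • V x)
      (by rw [e2]; positivity)
    obtain ⟨B', b0', b1'⟩ := exists_basis hH.ne'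
    obtain ⟨F, hF, hF2⟩ := (hN z).1 hz
    obtain ⟨p1, p2⟩ := pack_dbl hconv hN hx a1 a2 a3 a4 a5 a6 B b0 b1
    exact hn (ratio_le hv0 hv1 h a5 hH (by rw [b0, b1, e2]) (by rw [b0', b1'])
      (dbl_le_pd B _ hc.isBounded hne hv1 p1 p2)
      (cd_le_dbl B' _ hc.isBounded (hne.mono interior_subset) hv1
        (cover_dbl hconv h1 h2 h3 h4 hF hF2 hH B' b0' b1')))
  have cmp : ∀ x y, N x = 1 → N y = 1 → w y (V y) ≤ w x (V x) := by
    intro x y hx hy
    obtain ⟨a1, a2, a3, a4, -, -⟩ := hA y hy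
    have k := key x hx _ _ _ y a1 a2 a3 a4 hy.le
    rw [w_add_left, w_smul_left] at k
    linarith
  have hx0 : N ((N (ec 0))⁻¹ • ec 0) = 1 := N_normalize hR (ec_ne 0)
  set x0 := (N (ec 0))⁻¹ • ec 0
  have eq : ∀ x, N x = 1 → w x (V x) = w x0 (V x0) := fun x hx =>
    le_antisymm (cmp x0 x hx0 hx) (cmp x x0 hx hx0)
  refine ⟨N, w x0 (V x0), R, L, M, hconv, hc.isClosed, hM, hne, hR, hL, hN,
    (hA x0 hx0).2.2.2.2.1, key x0 hx0, fun x P Q hx h1 h2 h3 h4 => ?_, fun x hx => ?_⟩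
  · obtain ⟨-, -, -, -, -, a6⟩ := hA x hx
    have k1 := (a6 P h1 h2).1
    have k2 := (a6 Q h3 h4).2
    rw [← eq x hx]
    rw [w_sub_right] at k1 k2 ⊢
    linarith
  · obtain ⟨a1, a2, a3, a4, -, -⟩ := hA x hx
    refine ⟨A x, A x + V x, a1, a2, a3, by rw [add_right_comm]; exact a4, ?_⟩
    rw [add_sub_cancel_left, eq x hx]

theorem main_all (K : Set E) (hc : IsCompact K) (hconv : Convex ℝ K)
    (hne : (interior K).Nonempty) (h : pd K / cd K ≤ 3 / 4) :
    ∃ (c : E) (A : E ≃ₗ[ℝ] E), K = (fun z => c + A z) '' closedBall 0 1 := by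
  obtain ⟨N, m, R, L, M, hE⟩ := ext_of_ratio hc hconv hne h
  obtain ⟨c, hs⟩ := hE.symm
  exact ⟨c, main K hc hconv hne c hs h⟩

end Pool.Agent.Lib.MP_da2c1b_co
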