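import Pool.Agent.Lib.MP_da2c1b_co.Contact

namespace Pool.Agent.Lib.MP_da2c1b_co

open Set Filter Metric Real
open scoped Topology

variable {K : Set E} {N : Seminorm ℝ E} {m R L M : ℝ}

/-- Unit vector at angle `θ`. -/
noncomputable def ec (θ : ℝ) : E := !₂[cos θ, sin θ]

theorem w_ec (s t : ℝ) : w (ec s) (ec t) = sin (t - s) := by
  simp [w, ec, sin_sub]; ring

theorem ec_pi (s : ℝ) : ec (s + π) = -ec s := by
  ext i; fin_cases i <;> simp [ec]

theorem ec_ne (s : ℝ) : ec s ≠ 0 := by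
  intro h
  have := w_ec s (s + π / 2)
  rw [h, w_zero_left, add_sub_cancel_left, sin_pi_div_two] at this
  norm_num at this

theorem ec_norm (s : ℝ) : ‖ec s‖ = 1 := by
  rw [EuclideanSpace.norm_eq]; simp [ec, Fin.sum_univ_two]

theorem ec_deriv (s : ℝ) : HasDerivAt ec (ec (s + π / 2)) s := by
  have h1 := ((hasDerivAt_cos s).smul_const (!₂[1, 0] : E)).add
    ((hasDerivAt_sin s).smul_const (!₂[0, 1] : E))
  refine dcongr h1 (fun t => ?_) ?_
  · ext i; fin_cases i <;> simp [ec]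
  · ext i; fin_cases i <;> simp [ec, cos_add, sin_add]

theorem ec_comb (s t θ : ℝ) (z : E) :
    sin (s - t) * w (ec θ) z = sin (s - θ) * w (ec t) z + sin (θ - t) * w (ec s) z := by
  have := plucker (ec t) (ec s) (ec θ) z
  rw [w_ec, w_ec, w_ec, show θ - s = -(s - θ) by ring, sin_neg] at this
  linarith

theorem strictMono_of_local {f : ℝ → ℝ} (h1 : ∀ x, ∀ᶠ y in 𝓝[>] x, f x < f y)
    (h2 : ∀ x, ∀ᶠ y in 𝓝[<] x, f y < f x) : StrictMono f := by
  intro x y hxy
  let T := {z | x ≤ z ∧ z ≤ y ∧ ∀ u, x < u → u ≤ z → f x < f u}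
  have hx : x ∈ T := ⟨le_rfl, hxy.le, fun u h1 h2 => absurd h1 (not_lt.2 h2)⟩
  have hb : BddAbove T := ⟨y, fun z hz => hz.2.1⟩
  set c := sSup T with hc
  have c1 : x ≤ c := le_csSup hb hx
  have c2 : c ≤ y := csSup_le ⟨x, hx⟩ fun z hz => hz.2.1
  have c3 : ∀ u, x < u → u < c → f x < f u := by
    intro u hu1 hu2
    obtain ⟨z, hz, hz2⟩ := exists_lt_of_lt_csSup ⟨x, hx⟩ hu2
    exact hz.2.2 u hu1 hz2.le
  have c4 : ∀ u, x < u → u ≤ c → f x < f u := by
    intro u hu1 hu2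
    rcases hu2.lt_or_eq with hu3 | rfl
    · exact c3 u hu1 hu3
    · obtain ⟨z, hz1, hz2⟩ := ((h2 c).and (Ioo_mem_nhdsLT hu1)).exists
      exact (c3 z hz2.1 hz2.2).trans hz1
  rcases c2.lt_or_eq with c5 | c5
  · exfalso
    obtain ⟨d, hd, hd2⟩ := (mem_nhdsGT_iff_exists_Ioc_subset).1 ((h1 c).and (Ioo_mem_nhdsGT c5))
    have hT : d ∈ T := by
      refine ⟨c1.trans (le_of_lt hd), (hd2 ⟨hd, le_rfl⟩).2.2.le, fun u hu1 hu2 => ?_⟩
      rcases le_or_gt u c with k | k
      · exact c4 u hu1 k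
      · have k2 := (hd2 ⟨k, hu2⟩).1
        rcases c1.lt_or_eq with k3 | k3
        · exact (c4 c k3 le_rfl).trans k2
        · rw [k3]; exact k2
    exact absurd (le_csSup hb hT) (not_le.2 hd)
  · exact c4 y hxy c5.ge

theorem last_zero {f : ℝ → ℝ} (hf : Continuous f) {u v : ℝ} (huv : u ≤ v) (h1 : f u ≤ 0)
    (h2 : 0 < f v) : ∃ t, u ≤ t ∧ t < v ∧ f t = 0 ∧ ∀ s, t < s → s ≤ v → 0 < f s := by
  have hc : IsCompact (Icc u v ∩ {s | f s ≤ 0}) :=
    isCompact_Icc.inter_right (isClosed_le hf continuous_const)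
  obtain ⟨t, ⟨ht1, ht2⟩, ht3⟩ := hc.exists_isGreatest ⟨u, ⟨le_rfl, huv⟩, h1⟩
  have h3 : t < v := lt_of_le_of_ne ht1.2 fun k => absurd h2 (not_lt.2 (k ▸ ht2))
  have h4 : ∀ s, t < s → s ≤ v → 0 < f s := fun s k1 k2 => by
    by_contra hn
    exact absurd (ht3 ⟨⟨ht1.1.trans k1.le, k2⟩, not_lt.1 hn⟩) (not_le.2 k1)
  refine ⟨t, ht1.1, h3, le_antisymm ht2 ?_, h4⟩
  refine ge_of_tendsto ((hf.tendsto t).mono_left (nhdsWithin_le_nhds (s := Ioi t))) ?_
  filter_upwards [Ioo_mem_nhdsGT h3] with s hs using (h4 s hs.1 hs.2.le).le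

theorem first_zero {f : ℝ → ℝ} (hf : Continuous f) {u v : ℝ} (huv : u ≤ v) (h1 : 0 < f u)
    (h2 : f v ≤ 0) : ∃ t, u < t ∧ t ≤ v ∧ f t = 0 ∧ ∀ s, u ≤ s → s < t → 0 < f s := by
  obtain ⟨t, k1, k2, k3, k4⟩ := last_zero (f := fun s => f (-s)) (hf.comp continuous_neg)
    (u := -v) (v := -u) (by linarith) (by simpa using h2) (by simpa using h1)
  refine ⟨-t, by linarith, by linarith, k3, fun s a1 a2 => ?_⟩
  simpa using k4 (-s) (by linarith) (by linarith)

/-- The family of half-length parallelograms indexed by the direction angle. -/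
structure Sys (K : Set E) (N : Seminorm ℝ E) (m B : ℝ) (X A V : ℝ → E) (a b ρ : ℝ → ℝ) :
    Prop where
  dir : ∀ s, X s = (N (ec s))⁻¹ • ec s
  cfg : ∀ s, Cfg K N m (X s) (A s) (V s)
  mul : ∀ s, Mul K m (X s) (A s) (V s) (a s) (b s)
  dX : ∀ s, HasDerivAt X (ρ s • V s) s
  dA : ∀ s, HasDerivAt A (ρ s • velA (X s) (V s) (a s) (b s)) s
  dV : ∀ s, HasDerivAt V (ρ s • (-(3 * kap (a s) (b s))) • X s) s
  ρ0 : ∀ s, 0 < ρ s
  ρ1 : ∀ s, ρ s ≤ B
  ca : Continuous a
  cb : Continuous b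

theorem Ext.sys_ex (h : Ext K N m R L M) : ∃ B X A V a b ρ, Sys K N m B X A V a b ρ := by
  have hm := h.mpos
  choose A V hc using fun s : ℝ => h.cfg_ex (N_normalize h.hR (ec_ne s))
  choose a b hu using fun s : ℝ => h.mul_ex (hc s)
  have hd := fun s => h.path (ec_deriv s) ec_ne hc (hu s)
  have e : ∀ s, w (ec s) (ec (s + π / 2)) = 1 := fun s => by
    rw [w_ec, add_sub_cancel_left, sin_pi_div_two]
  simp only [e] at hd
  have hN := fun s => N_pos h.hR (ec_ne s)
  obtain ⟨ca, cb⟩ := h.mul_cont (X := fun s => (N (ec s))⁻¹ • ec s)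
    (continuous_iff_continuousAt.2 fun s => (hd s).1.continuousAt)
    (continuous_iff_continuousAt.2 fun s => (hd s).2.1.continuousAt)
    (continuous_iff_continuousAt.2 fun s => (hd s).2.2.continuousAt) hc hu
  refine ⟨R ^ 2 / m, _, A, V, a, b, fun s => 1 / (m * N (ec s) ^ 2), fun s => rfl, hc, hu,
    fun s => (hd s).1, fun s => (hd s).2.1, fun s => (hd s).2.2, fun s => ?_, fun s => ?_, ca, cb⟩
  · have := hN s; positivity
  · have h1 := hN s
    have h2 := h.hR (ec s)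
    rw [ec_norm] at h2
    rw [div_le_div_iff₀ (by positivity) hm]
    have h3 : 1 ≤ (R * N (ec s)) ^ 2 := one_le_pow₀ h2
    nlinarith

variable {B : ℝ} {X A V : ℝ → E} {a b ρ : ℝ → ℝ}

theorem Sys.ec_eq (h : Ext K N m R L M) (S : Sys K N m B X A V a b ρ) (s : ℝ) :
    ec s = N (ec s) • X s := by
  rw [S.dir, smul_smul, mul_inv_cancel₀ (N_pos h.hR (ec_ne s)).ne', one_smul]

theorem Sys.anti (h : Ext K N m R L M) (S : Sys K N m B X A V a b ρ) (s : ℝ) :
    X (s + π) = -X s ∧ a (s + π) = -a s ∧ b (s + π) = -b s := by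
  have e : X (s + π) = -X s := by rw [S.dir, S.dir, ec_pi, map_neg_eq_map, smul_neg]
  have c := S.cfg (s + π)
  have u := S.mul (s + π)
  rw [e] at c u
  obtain ⟨e1, e2⟩ := h.unique (S.cfg s).neg c
  rw [e1, e2] at u
  exact ⟨e, h.mul_unique (S.cfg s).neg ((S.mul s).neg (S.cfg s)) u⟩

theorem Sys.find (h : Ext K N m R L M) (S : Sys K N m B X A V a b ρ) (t : ℝ) {y : E}
    (hy : N y = 1) (hw : 0 < w (X t) y) : ∃ s, t < s ∧ s < t + π ∧ X s = y := by
  have cX : Continuous X := continuous_iff_continuousAt.2 fun s => (S.dX s).continuousAt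
  have hc : Continuous fun s => w (X s) y := w_cont.comp (f := fun s => (X s, y)) (by fun_prop)
  have h2 : w (X (t + π)) y < 0 := by rw [(S.anti h t).1, w_neg_left]; linarith
  obtain ⟨s, hs, hs0⟩ : (0 : ℝ) ∈ (fun s => w (X s) y) '' Ioo t (t + π) :=
    intermediate_value_Ioo' (by linarith [pi_pos]) hc.continuousOn ⟨h2, hw⟩
  refine ⟨s, hs.1, hs.2, ?_⟩
  have hm := h.mpos
  obtain ⟨α, β, e, -, -⟩ := h.frame (S.cfg s) y
  have hβ : β = 0 := by
    simp only at hs0
    rw [e, w_add_right, w_smul_right, w_smul_right, w_self, (S.cfg s).hw] at hs0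
    have : β * m = 0 := by linarith
    exact (mul_eq_zero.1 this).resolve_right hm.ne'
  rw [hβ, zero_smul, add_zero] at e
  have k1 : 0 < w (X t) (X s) := by
    rw [S.dir, S.dir, w_smul_left, w_smul_right, w_ec]
    have := N_pos h.hR (ec_ne s)
    have := N_pos h.hR (ec_ne t)
    have := sin_pos_of_pos_of_lt_pi (x := s - t) (by linarith [hs.1]) (by linarith [hs.2])
    positivity
  rw [e, w_smul_right] at hw
  have hα : 0 < α := (mul_pos_iff_of_pos_right k1).1 hw
  rw [e, map_smul_eq_mul, (S.cfg s).hx, Real.norm_eq_abs, abs_of_pos hα, mul_one] at hy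
  rw [e, hy, one_smul]

theorem Sys.inj (h : Ext K N m R L M) (S : Sys K N m B X A V a b ρ) {s t : ℝ} (h1 : s < t + π)
    (h2 : t < s + π) (e : X s = X t) : s = t := by
  have k : sin (t - s) = 0 := by
    rw [← w_ec, S.ec_eq h s, S.ec_eq h t, e, w_smul_left, w_smul_right, w_self]; simp
  have := (sin_eq_zero_iff_of_lt_of_lt (by linarith) (by linarith)).1 k
  linarith

theorem Sys.surj (h : Ext K N m R L M) (S : Sys K N m B X A V a b ρ) {y : E} (hy : N y = 1) :
    ∃ s, X s = y := by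
  by_contra hn
  have k : ∀ t, w (ec t) y = 0 := by
    intro t
    have k1 : ∀ t, w (X t) y ≤ 0 := fun t => by
      by_contra k
      obtain ⟨s, -, -, hs⟩ := S.find h t hy (not_le.1 k)
      exact hn ⟨s, hs⟩
    have k2 := k1 (t + π)
    rw [(S.anti h t).1, w_neg_left] at k2
    rw [S.ec_eq h t, w_smul_left, le_antisymm (k1 t) (by linarith), mul_zero]
  have k1 := k 0
  have k2 := k (π / 2)
  simp [w, ec] at k1 k2
  have : y = 0 := by ext i; fin_cases i <;> simp [k1, k2]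
  rw [this, map_zero] at hy
  norm_num at hy

theorem Ext.kap_pos (h : Ext K N m R L M) {x A v : E} {a b : ℝ} (c : Cfg K N m x A v)
    (u : Mul K m x A v a b) :
    0 < kap a b ∧ ∃ l, 0 < l ∧ kap a b - 1 = l * ((3 * b + a) * (3 * b - a)) := by
  obtain ⟨a1, a2⟩ := abs_lt.1 (h.a_abs_lt c u)
  obtain ⟨b1, b2⟩ := abs_lt.1 (h.b_abs_lt c u)
  have k1 : 0 < 9 / 4 - a ^ 2 := by nlinarith
  have k2 : 0 < 1 / 4 - b ^ 2 := by nlinarith
  refine ⟨by rw [kap]; positivity, 1 / (9 * (1 / 4 - b ^ 2)), by positivity, ?_⟩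
  rw [kap, div_sub_one (by positivity), div_mul_eq_mul_div, one_mul]
  congr 1; ring

theorem Sys.back_ex (h : Ext K N m R L M) (S : Sys K N m B X A V a b ρ) :
    ∃ T : ℝ → ℝ, StrictMono T ∧ ∀ s, s - π < T s ∧ T s < s ∧
      X (T s) = (N (X s - V s))⁻¹ • (X s - V s) ∧ 0 < (N (X s - V s))⁻¹ := by
  have hm := h.mpos
  have hw : ∀ s, w (X s - V s) (X s) = m := fun s => by
    rw [w_sub_left, w_self, w_comm, (S.cfg s).hw]; ring
  have hne : ∀ s, X s - V s ≠ 0 := fun s k => by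
    have := hw s
    rw [k, w_zero_left] at this
    linarith
  have hN := fun s => inv_pos.2 (N_pos h.hR (hne s))
  have ex : ∀ s, ∃ t, s - π < t ∧ t < s ∧ X t = (N (X s - V s))⁻¹ • (X s - V s) := by
    intro s
    obtain ⟨t, k1, k2, k3⟩ := S.find h (s - π) (N_normalize h.hR (hne s)) (by
      have e := (S.anti h (s - π)).1
      rw [sub_add_cancel] at e
      rw [← neg_neg (X (s - π)), ← e, w_neg_left, ← w_comm, w_smul_left, hw]
      exact mul_pos (hN s) hm)
    exact ⟨t, k1, by linarith, k3⟩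
  choose T t1 t2 t3 using ex
  refine ⟨T, ?_, fun s => ⟨t1 s, t2 s, t3 s, hN s⟩⟩
  have hsin : ∀ x y, ∃ l, 0 < l ∧ sin (T y - T x) = l * w (X x - V x) (X y - V y) := by
    intro x y
    refine ⟨N (ec (T x)) * (N (ec (T y)) * ((N (X x - V x))⁻¹ * (N (X y - V y))⁻¹)), ?_, ?_⟩
    · have := N_pos h.hR (ec_ne (T x))
      have := N_pos h.hR (ec_ne (T y))
      have := hN x
      have := hN y
      positivity
    · rw [← w_ec]
      conv_lhs => rw [S.ec_eq h (T x), S.ec_eq h (T y), t3, t3]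
      simp only [w_smul_left, w_smul_right]; ring
  have hsl : ∀ x, ∀ᶠ y in 𝓝[≠] x, 0 < w (X x - V x) (X y - V y) / (y - x) := by
    intro x
    have d := HasDerivAt.w2 (hasDerivAt_const x (X x - V x)) ((S.dX x).sub (S.dV x))
    rw [hasDerivAt_iff_tendsto_slope] at d
    have e : w 0 ((X - V) x) + w (X x - V x) (ρ x • V x - ρ x • (-(3 * kap (a x) (b x))) • X x) =
        ρ x * ((1 + 3 * kap (a x) (b x)) * m) := by
      rw [← (S.cfg x).hw]; simp [w]; ring
    rw [e] at d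
    have hp : 0 < ρ x * ((1 + 3 * kap (a x) (b x)) * m) := by
      have := S.ρ0 x
      have := (h.kap_pos (S.cfg x) (S.mul x)).1
      positivity
    filter_upwards [d.eventually (lt_mem_nhds hp)] with y hy
    simpa [slope_def_field, w_self] using hy
  apply strictMono_of_local
  · intro x
    filter_upwards [(hsl x).filter_mono (nhdsGT_le_nhdsNE x), self_mem_nhdsWithin] with y h1 h2
    have h2' : 0 < y - x := sub_pos.2 h2
    obtain ⟨l, l0, e⟩ := hsin x y
    have k : 0 < sin (T y - T x) := by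
      rw [e]; exact mul_pos l0 ((div_pos_iff_of_pos_right h2').1 h1)
    by_contra hn
    have := sin_nonpos_of_nonpos_of_neg_pi_le (x := T y - T x) (by linarith [not_lt.1 hn])
      (by linarith [t1 y, t2 x])
    linarith
  · intro x
    filter_upwards [(hsl x).filter_mono (nhdsLT_le_nhdsNE x), self_mem_nhdsWithin] with y h1 h2
    have h2' : y - x < 0 := sub_neg.2 h2
    obtain ⟨l, l0, e⟩ := hsin x y
    have k : sin (T y - T x) < 0 := by
      rw [e]
      refine mul_neg_of_pos_of_neg l0 ?_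
      by_contra hn
      exact absurd (div_nonpos_of_nonneg_of_nonpos (not_lt.1 hn) h2'.le) (not_le.2 h1)
    by_contra hn
    have := sin_nonneg_of_nonneg_of_le_pi (x := T y - T x) (by linarith [not_lt.1 hn])
      (by linarith [t1 x, t2 y])
    linarith

end Pool.Agent.Lib.MP_da2c1b_co
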