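import Pool.Agent.Lib.MP_da2c1b_co.Flow

namespace Pool.Agent.Lib.MP_da2c1b_co

open Set Filter Metric
open scoped Topology

variable {K : Set E} {N : Seminorm ℝ E} {m R L M : ℝ}

theorem Ext.N_one (h : Ext K N m R L M) {y g : E} (h1 : N y ≤ 1) (h2 : w y g = m)
    (h3 : ∀ z, N z ≤ 1 → w z g ≤ m) : N y = 1 := by
  have hm := h.mpos
  have hy : y ≠ 0 := by
    rintro rfl
    rw [w_zero_left] at h2
    linarith
  have k := h3 _ (N_normalize h.hR hy).le
  have hN := N_pos h.hR hy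
  rw [w_smul_left, h2, inv_mul_le_iff₀ hN] at k
  refine le_antisymm h1 ?_
  by_contra hn
  push Not at hn
  nlinarith

theorem Ext.vec_eq (h : Ext K N m R L M) {x A v : E} (c : Cfg K N m x A v) {g : E} {s t : ℝ}
    (h1 : w g v = s * m) (h2 : w x g = t * m) : g = s • x + t • v := by
  have hm := h.mpos
  have e := decomp (x := x) (y := v) (by rw [c.hw]; exact hm.ne') g
  rwa [c.hw, h1, h2, mul_div_cancel_right₀ _ hm.ne', mul_div_cancel_right₀ _ hm.ne'] at e

theorem Ext.stripP (h : Ext K N m R L M) {x A v : E} {a b : ℝ} (c : Cfg K N m x A v)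
    (u : Mul K m x A v a b) (hp : 3 * b + a = 0) {P : E} (hP : P ∈ K) :
    0 ≤ 3 * w x (P - A) + w (P - A) v ∧ 3 * w x (P - A) + w (P - A) v ≤ 4 * m := by
  obtain ⟨b1, b2⟩ := abs_lt.1 (h.b_abs_lt c u)
  have ea : a = -3 * b := by linarith
  have k1 := u.tA P hP
  have k2 := u.tD P hP
  rw [ea] at k1 k2
  constructor
  · apply nonneg_of_mul_nonneg_right (a := 1 / 2 - b) _ (by linarith); linarith
  · have : 0 ≤ 4 * m - (3 * w x (P - A) + w (P - A) v) := by
      apply nonneg_of_mul_nonneg_right (a := 1 / 2 + b) _ (by linarith); linarith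
    linarith

theorem Ext.stripQ (h : Ext K N m R L M) {x A v : E} {a b : ℝ} (c : Cfg K N m x A v)
    (u : Mul K m x A v a b) (hq : 3 * b - a = 0) {P : E} (hP : P ∈ K) :
    -m ≤ 3 * w x (P - A) - w (P - A) v ∧ 3 * w x (P - A) - w (P - A) v ≤ 3 * m := by
  obtain ⟨b1, b2⟩ := abs_lt.1 (h.b_abs_lt c u)
  have ea : a = 3 * b := by linarith
  have k1 := u.tB P hP
  have k2 := u.tE P hP
  rw [ea] at k1 k2
  constructor
  · have : 0 ≤ 3 * w x (P - A) - w (P - A) v + m := by
      apply nonneg_of_mul_nonneg_right (a := 1 / 2 - b) _ (by linarith); linarith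
    linarith
  · have : 0 ≤ 3 * m - (3 * w x (P - A) - w (P - A) v) := by
      apply nonneg_of_mul_nonneg_right (a := 1 / 2 + b) _ (by linarith); linarith
    linarith

theorem Ext.NP_le (h : Ext K N m R L M) {x A v : E} (c : Cfg K N m x A v) :
    N ((1 / 2 : ℝ) • (x + v)) ≤ 1 := by
  convert h.half_mem c.hD c.hA using 3; abel

theorem Ext.NQ_le (h : Ext K N m R L M) {x A v : E} (c : Cfg K N m x A v) :
    N ((1 / 2 : ℝ) • (x - v)) ≤ 1 := by
  convert h.half_mem c.hB c.hE using 3; abel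

theorem Ext.NP_of (h : Ext K N m R L M) {x A v : E} {a b : ℝ} (c : Cfg K N m x A v)
    (u : Mul K m x A v a b) (hp : 3 * b + a = 0) : N ((1 / 2 : ℝ) • (x + v)) = 1 := by
  refine h.N_one (g := (1 / 2 : ℝ) • (v - (3 : ℝ) • x)) (h.NP_le c)
    (by rw [← c.hw]; simp [w]; ring) fun z hz => ?_
  obtain ⟨P, hP, hP2⟩ := (h.hN z).1 hz
  have k1 := (h.stripP c u hp hP).1
  have k2 := (h.stripP c u hp hP2).2
  have e : 4 * w z ((1 / 2 : ℝ) • (v - (3 : ℝ) • x)) =
      3 * w x (P + (2 : ℝ) • z - A) + w (P + (2 : ℝ) • z - A) v -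
        (3 * w x (P - A) + w (P - A) v) := by simp [w]; ring
  linarith

theorem Ext.NQ_of (h : Ext K N m R L M) {x A v : E} {a b : ℝ} (c : Cfg K N m x A v)
    (u : Mul K m x A v a b) (hq : 3 * b - a = 0) : N ((1 / 2 : ℝ) • (x - v)) = 1 := by
  refine h.N_one (g := (1 / 2 : ℝ) • (v + (3 : ℝ) • x)) (h.NQ_le c)
    (by rw [← c.hw]; simp [w]; ring) fun z hz => ?_
  obtain ⟨P, hP, hP2⟩ := (h.hN z).1 hz
  have k1 := (h.stripQ c u hq hP).2
  have k2 := (h.stripQ c u hq hP2).1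
  have e : 4 * w z ((1 / 2 : ℝ) • (v + (3 : ℝ) • x)) =
      3 * w x (P - A) - w (P - A) v -
        (3 * w x (P + (2 : ℝ) • z - A) - w (P + (2 : ℝ) • z - A) v) := by simp [w]; ring
  linarith

theorem Ext.of_NP (h : Ext K N m R L M) {x A v : E} {a b : ℝ} (c : Cfg K N m x A v)
    (u : Mul K m x A v a b) {A' v' : E} (c' : Cfg K N m ((1 / 2 : ℝ) • (x + v)) A' v') :
    3 * b + a = 0 ∧ v' = (1 / 2 : ℝ) • (v - (3 : ℝ) • x) := by
  have hm := h.mpos
  have hw := c'.hw
  have k1 := (h.smooth c u (-v')).1 fun P hP => by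
    have := h.supp c' (h.half_mem c.hD hP)
    have e : w (-v') (P - A) = 2 * (w ((1 / 2 : ℝ) • (x + v)) v' -
      w ((1 / 2 : ℝ) • (A + x + v - P)) v') := by simp [w]; ring
    rw [e]; linarith
  have k2 := (h.smooth c u v').2.2.1 fun P hP => by
    have := h.supp c' (h.half_mem hP c.hA)
    have e : w v' (P - (A + x + v)) = 2 * (w ((1 / 2 : ℝ) • (x + v)) v' -
      w ((1 / 2 : ℝ) • (P - A)) v') := by simp [w]; ring
    rw [e]; linarith
  rw [w_neg_left, w_neg_left] at k1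
  rw [w_smul_left, w_add_left, w_comm x, w_comm v] at hw
  have e1 : w v' x = -(1 / 2) * m := by linarith
  have e2 : w v' v = -(3 / 2) * m := by linarith
  constructor
  · rw [e1, e2] at k1
    apply mul_left_cancel₀ hm.ne'
    linarith
  · rw [h.vec_eq c e2 (t := 1 / 2) (by rw [w_comm, e1]; ring)]
    module

theorem Ext.of_NQ (h : Ext K N m R L M) {x A v : E} {a b : ℝ} (c : Cfg K N m x A v)
    (u : Mul K m x A v a b) {A' v' : E} (c' : Cfg K N m ((1 / 2 : ℝ) • (x - v)) A' v') :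
    3 * b - a = 0 ∧ v' = (1 / 2 : ℝ) • (v + (3 : ℝ) • x) := by
  have hm := h.mpos
  have hw := c'.hw
  have k1 := (h.smooth c u v').2.1 fun P hP => by
    have := h.supp c' (h.half_mem hP c.hE)
    have e : w v' (P - (A + x)) = 2 * (w ((1 / 2 : ℝ) • (x - v)) v' -
      w ((1 / 2 : ℝ) • (P - (A + v))) v') := by simp [w]; ring
    rw [e]; linarith
  have k2 := (h.smooth c u (-v')).2.2.2.1 fun P hP => by
    have := h.supp c' (h.half_mem c.hB hP)
    have e : w (-v') (P - (A + v)) = 2 * (w ((1 / 2 : ℝ) • (x - v)) v' -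
      w ((1 / 2 : ℝ) • (A + x - P)) v') := by simp [w]; ring
    rw [e]; linarith
  rw [w_neg_left, w_neg_left] at k2
  rw [w_smul_left, w_sub_left, w_comm x, w_comm v] at hw
  have e1 : w v' x = -(1 / 2) * m := by linarith
  have e2 : w v' v = (3 / 2) * m := by linarith
  constructor
  · rw [e1, e2] at k1
    apply mul_left_cancel₀ hm.ne'
    linarith
  · rw [h.vec_eq c e2 (t := 1 / 2) (by rw [w_comm, e1]; ring)]
    module

theorem Ext.p_iff (h : Ext K N m R L M) {x A v : E} {a b : ℝ} (c : Cfg K N m x A v)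
    (u : Mul K m x A v a b) : 3 * b + a = 0 ↔ N ((1 / 2 : ℝ) • (x + v)) = 1 := by
  refine ⟨h.NP_of c u, fun hn => ?_⟩
  obtain ⟨A', v', c'⟩ := h.cfg_ex hn
  exact (h.of_NP c u c').1

theorem Ext.q_iff (h : Ext K N m R L M) {x A v : E} {a b : ℝ} (c : Cfg K N m x A v)
    (u : Mul K m x A v a b) : 3 * b - a = 0 ↔ N ((1 / 2 : ℝ) • (x - v)) = 1 := by
  refine ⟨h.NQ_of c u, fun hn => ?_⟩
  obtain ⟨A', v', c'⟩ := h.cfg_ex hn
  exact (h.of_NQ c u c').1

theorem Ext.next_q (h : Ext K N m R L M) {x A v : E} {a b : ℝ} (c : Cfg K N m x A v)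
    (u : Mul K m x A v a b) {A' v' : E} {a' b' : ℝ}
    (c' : Cfg K N m ((1 / 2 : ℝ) • (x + v)) A' v')
    (u' : Mul K m ((1 / 2 : ℝ) • (x + v)) A' v' a' b') :
    3 * b' - a' = 0 ∧ (3 * b' + a' = 0 ↔ 3 * b - a = 0) := by
  obtain ⟨-, ev⟩ := h.of_NP c u c'
  constructor
  · have : (1 / 2 : ℝ) • ((1 / 2 : ℝ) • (x + v) - (1 / 2 : ℝ) • (v - (3 : ℝ) • x)) = x := by module
    rw [h.q_iff c' u', ev, this, c.hx]
  · rw [h.p_iff c' u', h.q_iff c u, ev, ← map_neg_eq_map]
    have : -((1 / 2 : ℝ) • ((1 / 2 : ℝ) • (x + v) + (1 / 2 : ℝ) • (v - (3 : ℝ) • x))) =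
      (1 / 2 : ℝ) • (x - v) := by module
    rw [this]

theorem Ext.contact (h : Ext K N m R L M) {x A v : E} {a b : ℝ} (c : Cfg K N m x A v)
    (u : Mul K m x A v a b) {A' v' : E} {a' b' : ℝ}
    (c' : Cfg K N m ((1 / 2 : ℝ) • (x + v)) A' v')
    (u' : Mul K m ((1 / 2 : ℝ) • (x + v)) A' v' a' b') :
    ∃ s t : ℝ, A' = A + x + (s • x + t • v) ∧
      (∀ X Y : ℝ, A + (X • x + Y • v) ∈ K →
        0 ≤ 3 * (Y - t) - (1 + 4 * b') * (X - 1 - s) ∧
        0 ≤ -3 * (Y - 1 - t) + (1 - 4 * b') * (X - s) ∧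
        0 ≤ (3 / 2 + 3 * b) * Y - (1 / 2 - b) * (X - 1) ∧
        0 ≤ -(3 / 2 - 3 * b) * (Y - 1) + (1 / 2 + b) * X ∧
        0 ≤ 3 * Y + X ∧ 3 * Y + X ≤ 4) ∧
      (0 < b ↔ 0 < b') ∧ (0 < b → 0 < t ∧ t < s) := by
  have hm := h.mpos
  obtain ⟨hp, ev⟩ := h.of_NP c u c'
  obtain ⟨hq, hpq⟩ := h.next_q c u c' u'
  obtain ⟨b1, b2⟩ := abs_lt.1 (h.b_abs_lt c u)
  obtain ⟨b3, b4⟩ := abs_lt.1 (h.b_abs_lt c' u')
  have ea : a = -3 * b := by linarith
  have ea' : a' = 3 * b' := by linarith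
  obtain ⟨s, t, e, -, -⟩ := h.frame c (A' - (A + x))
  have eA : A' = A + x + (s • x + t • v) := by rw [← e]; abel
  have div : ∀ {t : ℝ}, 0 ≤ t * m → 0 ≤ t := fun ht => nonneg_of_mul_nonneg_left ht hm
  have cx : ∀ s t : ℝ, w x (s • x + t • v) = t * m := by
    intro s t; rw [← c.hw]; simp [w]; ring
  have cv : ∀ s t : ℝ, w (s • x + t • v) v = s * m := by
    intro s t; rw [← c.hw]; simp [w]; ring
  have all : ∀ X Y : ℝ, A + (X • x + Y • v) ∈ K →
        0 ≤ 3 * (Y - t) - (1 + 4 * b') * (X - 1 - s) ∧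
        0 ≤ -3 * (Y - 1 - t) + (1 - 4 * b') * (X - s) ∧
        0 ≤ (3 / 2 + 3 * b) * Y - (1 / 2 - b) * (X - 1) ∧
        0 ≤ -(3 / 2 - 3 * b) * (Y - 1) + (1 / 2 + b) * X ∧
        0 ≤ 3 * Y + X ∧ 3 * Y + X ≤ 4 := by
    intro X Y hP
    have f1 : w ((1 / 2 : ℝ) • (x + v)) (A + (X • x + Y • v) - A') =
        ((Y - t) - (X - 1 - s)) / 2 * m := by
      rw [eA, ← c.hw]; simp [w]; ring
    have f2 : w (A + (X • x + Y • v) - A') v' = ((X - 1 - s) + 3 * (Y - t)) / 2 * m := by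
      rw [eA, ev, ← c.hw]; simp [w]; ring
    have k1 := u'.tA _ hP
    have k2 := u'.tD _ hP
    have k3 := u.tB _ hP
    have k4 := u.tE _ hP
    have k5 := h.stripP c u hp hP
    rw [f1, f2, ea'] at k1 k2
    rw [add_sub_cancel_left, cx, cv] at k3 k4 k5
    rw [ea] at k3 k4
    refine ⟨div (by linarith), div (by linarith), div (by linarith), div (by linarith),
      div (by linarith), ?_⟩
    have : 0 ≤ 4 - (3 * Y + X) := div (by linarith)
    linarith
  have i1 := (all (1 + s) t (by convert c'.hA using 1; rw [eA]; module)).2.2.1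
  have i2 := (all s (1 + t) (by convert c'.hD using 1; rw [eA, ev]; module)).2.2.2.1
  have i3 := (all 1 0 (by convert c.hB using 1; module)).1
  have i4 := (all 0 1 (by convert c.hE using 1; module)).2.1
  have hz : b' = 0 ↔ b = 0 := by
    constructor
    · intro k; have := hpq.1 (by linarith); linarith
    · intro k; have := hpq.2 (by linarith); linarith
  have hd : s = 0 → t = 0 → b = 0 := by
    rintro rfl rfl
    have eB : A' = A + x := by simpa using eA
    have k1 := (h.smooth c u ((1 + 4 * b') • v + (3 : ℝ) • x)).2.1 fun P hP => by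
      obtain ⟨X, Y, eP, -, -⟩ := h.frame c (P - A)
      have k := (all X Y (by rw [← eP]; simpa using hP)).1
      have f : w ((1 + 4 * b') • v + (3 : ℝ) • x) (P - (A + x)) =
          (3 * (Y - 0) - (1 + 4 * b') * (X - 1 - 0)) * m := by
        rw [← sub_sub, eP, ← c.hw]; simp [w]; ring
      rw [f]; positivity
    have k2 := (h.smooth c u (-((1 - 4 * b') • v + (3 : ℝ) • x))).2.2.2.1 fun P hP => by
      obtain ⟨X, Y, eP, -, -⟩ := h.frame c (P - A)
      have k := (all X Y (by rw [← eP]; simpa using hP)).2.1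
      have f : w (-((1 - 4 * b') • v + (3 : ℝ) • x)) (P - (A + v)) =
          (-3 * (Y - 1 - 0) + (1 - 4 * b') * (X - 0)) * m := by
        rw [← sub_sub, eP, ← c.hw]; simp [w]; ring
      rw [f]; positivity
    simp only [w_neg_left, w_add_left, w_smul_left, w_self, w_comm v x, c.hw, ea] at k1 k2
    have k3 : (b + b' + 2 * b * b') * m = 0 := by linarith
    have k4 : (b + b' - 2 * b * b') * m = 0 := by linarith
    have k5 := (mul_eq_zero.1 k3).resolve_right hm.ne'
    have k6 := (mul_eq_zero.1 k4).resolve_right hm.ne'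
    have k7 : b * b = 0 := by
      have : b' = -b := by linarith
      rw [this] at k5; linarith
    exact mul_self_eq_zero.1 k7
  have hpos : 0 < b → 0 < b' ∧ 0 < t ∧ t < s := by
    intro hb
    have β0 : 0 < 3 * t + s := by
      have β1 : 0 ≤ 3 * t + s := by
        apply nonneg_of_mul_nonneg_right (a := b) _ hb; linarith
      refine lt_of_le_of_ne β1 fun k => ?_
      have e1 : s = -3 * t := by linarith
      rw [e1] at i1 i2
      have : t = 0 := by linarith
      exact hb.ne' (hd (by linarith) this)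
    have t0 : 0 < t := by nlinarith
    have s0 : 0 < s := by nlinarith
    have b0 : 0 ≤ b' := by
      apply nonneg_of_mul_nonneg_left (b := s) _ s0; linarith
    refine ⟨lt_of_le_of_ne b0 fun k => hb.ne' (hz.1 k.symm), t0, by nlinarith⟩
  refine ⟨s, t, eA, all, ⟨fun hb => (hpos hb).1, fun hb' => ?_⟩, fun hb => (hpos hb).2⟩
  by_contra hn
  have hb : b < 0 := lt_of_le_of_ne (not_lt.1 hn) fun k => hb'.ne' (hz.2 k)
  have β1 : 3 * t + s ≤ 0 := by
    have : 0 ≤ -(3 * t + s) := by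
      apply nonneg_of_mul_nonneg_right (a := -b) _ (by linarith); linarith
    linarith
  have s0 : 0 ≤ s := by
    apply nonneg_of_mul_nonneg_right (a := b') _ hb'; linarith
  have t0 : t = 0 := by nlinarith
  have s1 : s = 0 := by linarith
  exact hb.ne (hd s1 t0)

theorem plucker (p q r s : E) : w p q * w r s - w p r * w q s + w p s * w q r = 0 := by
  simp only [w]; ring

theorem mu_le {b b' s t μ X Y : ℝ} (b0 : 0 < b) (b1 : b < 1 / 2) (b2 : 0 < b') (b3 : b' < 1 / 2)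
    (t0 : 0 < t) (ts : t < s) (hd : s + t ≤ 1 / 2)
    (hD : 0 ≤ -3 * (1 - 1 - t) + (1 - 4 * b') * (1 - s))
    (k1 : 0 ≤ -3 * (Y - 1 - t) + (1 - 4 * b') * (X - s))
    (k2 : 0 ≤ -(3 / 2 - 3 * b) * (Y - 1) + (1 / 2 + b) * X)
    (k3 : 0 ≤ 3 * (Y - 2 * μ - t) - (1 + 4 * b') * (X + 2 * μ - 1 - s))
    (k4 : 0 ≤ (3 / 2 + 3 * b) * (Y - 2 * μ) - (1 / 2 - b) * (X + 2 * μ - 1)) :
    μ ≤ 1 / 2 + t := by
  obtain ⟨H, rfl⟩ : ∃ H, X = H + 1 - Y := ⟨X + Y - 1, by ring⟩
  have j1 : (4 - 4 * b') * (Y - 1 - t) ≤ (1 - 4 * b') * (H - (s + t)) := by linarith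
  have j2 : (2 - 2 * b) * (Y - 1) ≤ (1 / 2 + b) * H := by linarith
  have j3 : (1 + 4 * b') * (H - (s + t)) ≤ (4 + 4 * b') * (Y - 2 * μ - t) := by linarith
  have j4 : (1 / 2 - b) * H ≤ (2 + 2 * b) * (Y - 2 * μ) := by linarith
  by_contra hn
  push Not at hn
  rcases le_total H 0 with h1 | h1
  · have p1 := mul_le_mul_of_nonneg_left j2 (by linarith : 0 ≤ 2 + 2 * b)
    have p2 := mul_le_mul_of_nonneg_left j4 (by linarith : 0 ≤ 2 - 2 * b)
    have p3 : 0 < (2 + 2 * b) * (2 - 2 * b) * (2 * μ - 1) :=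
      mul_pos (mul_pos (by linarith) (by linarith)) (by linarith)
    have p4 : b * H ≤ 0 := mul_nonpos_of_nonneg_of_nonpos b0.le h1
    nlinarith
  rcases le_total (s + t) H with h2 | h2
  · have p1 := mul_le_mul_of_nonneg_left j1 (by linarith : 0 ≤ 4 + 4 * b')
    have p2 := mul_le_mul_of_nonneg_left j3 (by linarith : 0 ≤ 4 - 4 * b')
    have p3 : 0 < (4 + 4 * b') * (4 - 4 * b') * (2 * μ - 1) :=
      mul_pos (mul_pos (by linarith) (by linarith)) (by linarith)
    have p4 : 0 ≤ b' * (H - (s + t)) := mul_nonneg b2.le (by linarith)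
    nlinarith
  · have p1 : 0 ≤ Y - 2 * μ := by
      apply nonneg_of_mul_nonneg_right (a := 2 + 2 * b) _ (by linarith)
      exact le_trans (mul_nonneg (by linarith) h1) j4
    have p2 : (4 * b' - 1) * (1 - (s + t)) ≤ (4 - 4 * b') * t := by linarith
    have p3 : (4 - 4 * b') * t < (4 - 4 * b') * (Y - 1 - t) :=
      mul_lt_mul_of_pos_left (by linarith) (by linarith)
    have p5 : 0 < (4 - 4 * b') * t := mul_pos (by linarith) t0
    rcases le_total (4 * b' - 1) 0 with h3 | h3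
    · have : 0 ≤ (1 - 4 * b') * (s + t - H) := mul_nonneg (by linarith) (by linarith)
      linarith
    · have : (4 * b' - 1) * (s + t - H) ≤ (4 * b' - 1) * (1 - (s + t)) :=
        mul_le_mul_of_nonneg_left (by linarith) h3
      linarith

theorem Ext.back (h : Ext K N m R L M) {x A v : E} {a b : ℝ} (c : Cfg K N m x A v)
    (u : Mul K m x A v a b) (hp : 3 * b + a = 0) (hb : 0 < b) {A1 v1 : E} {a1 b1 μ : ℝ}
    (μ0 : 0 < μ) (c1 : Cfg K N m (μ • (x - v)) A1 v1) (u1 : Mul K m (μ • (x - v)) A1 v1 a1 b1) :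
    0 ≤ 3 * b1 + a1 := by
  have hm := h.mpos
  obtain ⟨A', v', c'⟩ := h.cfg_ex (h.NP_of c u hp)
  obtain ⟨a', b', u'⟩ := h.mul_ex c'
  obtain ⟨-, ev⟩ := h.of_NP c u c'
  obtain ⟨s, t, eA, all, hs, hts⟩ := h.contact c u c' u'
  obtain ⟨t0, ts⟩ := hts hb
  have hb' := hs.1 hb
  have hμ : 1 / 2 ≤ μ := by
    have k1 := h.NQ_le c
    have k2 := c1.hx
    rw [map_smul_eq_mul, Real.norm_eq_abs, abs_of_pos (by positivity)] at k1 k2
    by_contra hn
    push Not at hn
    nlinarith [apply_nonneg N (x - v)]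
  set C := A + ((3 / 2 + s) • x + (1 / 2 + t) • v) with hC
  set F := A + ((s - 1 / 2) • x + (1 / 2 + t) • v) with hF
  have hCK : C ∈ K := by convert c'.hB using 1; rw [hC, eA]; module
  have hFK : F ∈ K := by convert c'.hE using 1; rw [hF, eA, ev]; module
  have hd : s + t ≤ 1 / 2 := by
    have k := h.hex (A + x) (s • x + t • v) (v - x) _ c.hB (eA ▸ c'.hA)
      (by convert c.hE using 1; abel) (by convert c'.hD using 1; rw [eA, ev]; module)
      (h.half_mem hCK c.hA)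
    have e : w (s • x + t • v + (2 : ℝ) • (1 / 2 : ℝ) • (C - A)) (v - x) =
        (2 + 2 * (s + t)) * m := by rw [hC, ← c.hw]; simp [w]; ring
    rw [e] at k
    by_contra hn
    push Not at hn
    nlinarith
  have hμ2 : μ ≤ 1 / 2 + t := by
    obtain ⟨P, hP, hP2⟩ := (h.hN _).1 c1.hx.le
    obtain ⟨X, Y, eP, -, -⟩ := h.frame c (P - A)
    have k1 := all X Y (by rw [← eP]; simpa using hP)
    have k2 := all (X + 2 * μ) (Y - 2 * μ) (by
      convert hP2 using 1
      have : P = A + (X • x + Y • v) := by rw [← eP]; abel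
      rw [this]; module)
    have k3 := all 1 1 (by convert c.hD using 1; module)
    exact mu_le hb (h.b_lt c u) hb' (h.b_lt c' u') t0 ts hd k3.2.1 k1.2.1 k1.2.2.2.1 k2.1
      k2.2.2.1
  have hF2 : F + μ • (x - v) ∈ K := by
    have k1 := h.seg c.hA c.hB (s := s + t) (by linarith) (by linarith)
    have q : 0 < 1 / 2 + t := by linarith
    have k2 := h.seg hFK k1 (s := μ / (1 / 2 + t)) (by positivity) ((div_le_one q).2 hμ2)
    convert k2 using 1
    have e : A + (s + t) • (A + x - A) - F = (1 / 2 + t) • (x - v) := by rw [hF]; module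
    rw [e, smul_smul, div_mul_cancel₀ _ q.ne']
  have lo : ∀ P ∈ K, 0 ≤ w (P - F) v := by
    intro P hP
    have k := h.supp c (h.half_mem hCK hP)
    have e : w (P - F) v = 2 * (w x v - w ((1 / 2 : ℝ) • (C - P)) v) := by
      rw [hC, hF]; simp [w]; ring
    rw [e, c.hw]; linarith
  have hi : ∀ P ∈ K, 0 ≤ w (C - P) v := by
    intro P hP
    have k := h.supp c (h.half_mem hP hFK)
    have e : w (C - P) v = 2 * (w x v - w ((1 / 2 : ℝ) • (P - F)) v) := by
      rw [hC, hF]; simp [w]; ring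
    rw [e, c.hw]; linarith
  set y := μ • (x - v) with hy
  have yv : w y v = μ * m := by rw [hy, w_smul_left, w_sub_left, w_self, c.hw, sub_zero]
  have yv0 : 0 < w y v := by rw [yv]; positivity
  have g1 : 0 ≤ w y (F - A1) := by
    have k := h.le y F (A1 + v1) c1.hx hFK hF2 c1.hE (by convert c1.hD using 1; abel)
    have e : w y (F - A1) = w y v1 - w y (A1 + v1 - F) := by simp [w]; ring
    rw [e, c1.hw]; linarith
  have g2 : 0 < w y (C - (A1 + y + v1)) := by
    obtain ⟨X, Y, eP, -, -⟩ := h.frame c (A1 + v1 - A)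
    have eP' : A1 + v1 = A + (X • x + Y • v) := by rw [← eP]; abel
    have k1 := (all X Y (eP' ▸ c1.hE)).2.2.2.2.2
    have k2 := hi _ c1.hD
    have e1 : w (C - (A1 + y + v1)) v = (3 / 2 + s - X - μ) * m := by
      rw [add_right_comm, eP', hC, hy, ← c.hw]; simp [w]; ring
    have e2 : w y (C - (A1 + y + v1)) = μ * m * (2 + s + t - X - Y) := by
      rw [add_right_comm, eP', hC, hy, ← c.hw]; simp [w]; ring
    rw [e1] at k2
    have k3 := nonneg_of_mul_nonneg_left k2 hm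
    rw [e2]
    exact mul_pos (by positivity) (by linarith)
  obtain ⟨b3, b4⟩ := abs_lt.1 (h.b_abs_lt c1 u1)
  set τA := (a1 + 3 / 2) • y + (-(1 / 2 - b1)) • v1 with hτA
  set τD := (a1 - 3 / 2) • y + (1 / 2 + b1) • v1 with hτD
  have f1 : w τA y = (1 / 2 - b1) * m := by rw [hτA, ← c1.hw]; simp [w]; ring
  have f2 : w τD y = -((1 / 2 + b1) * m) := by rw [hτD, ← c1.hw]; simp [w]; ring
  have f3 : w τA τD = (3 * b1 + a1) * m := by rw [hτA, hτD, ← c1.hw]; simp [w]; ring
  have f4 : 0 ≤ w τA (F - A1) := by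
    convert u1.tA F hFK using 1; rw [hτA]; simp [w]; ring
  have f5 : 0 ≤ w τD (C - (A1 + y + v1)) := by
    convert u1.tD C hCK using 1; rw [hτD, ← c1.hw]; simp [w]; ring
  have σ0 : 0 < (1 / 2 - b1) * m := mul_pos (by linarith) hm
  have τ0 : 0 < (1 / 2 + b1) * m := mul_pos (by linarith) hm
  have r1 : 0 ≤ w τA v := by
    have k := plucker τA (F - A1) y v
    have k2 := lo _ c1.hA
    rw [← neg_sub F A1, w_neg_left] at k2
    rw [f1, w_comm (F - A1) y] at k
    have k3 : 0 ≤ w τA (F - A1) * w y v := mul_nonneg f4 yv0.le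
    have k4 : 0 ≤ (1 / 2 - b1) * m * -w (F - A1) v := mul_nonneg σ0.le k2
    rcases g1.lt_or_eq with g | g
    · apply nonneg_of_mul_nonneg_left (b := w y (F - A1)) _ g; linarith
    · rw [← g] at k
      have k5 : (1 / 2 - b1) * m * -w (F - A1) v = 0 := by linarith
      have k6 : w (F - A1) v = 0 := by
        have := (mul_eq_zero.1 k5).resolve_left σ0.ne'
        linarith
      have k7 := decomp yv0.ne' (F - A1)
      rw [k6, ← g, zero_div, zero_smul, zero_smul, add_zero, sub_eq_zero] at k7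
      have k8 := (h.smooth c1 u1 (-v)).1 fun P hP => by
        rw [← k7, w_neg_left, ← w_comm]; exact lo P hP
      apply le_of_eq
      rw [← k8, hτA]; simp [w]; ring
  have r2 : 0 ≤ w τD v := by
    have k := plucker τD (C - (A1 + y + v1)) y v
    rw [f2, w_comm (C - (A1 + y + v1)) y] at k
    have k3 := mul_nonneg f5 yv0.le
    have k4 := mul_nonneg τ0.le (hi _ c1.hD)
    apply nonneg_of_mul_nonneg_left (b := w y (C - (A1 + y + v1))) _ g2; linarith
  have k := plucker τA τD y v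
  rw [f1, f2, f3] at k
  have k3 := mul_nonneg σ0.le r2
  have k4 := mul_nonneg r1 τ0.le
  apply nonneg_of_mul_nonneg_left (b := m * w y v) _ (by positivity); linarith

end Pool.Agent.Lib.MP_da2c1b_co
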