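import Pool.Agent.Lib.MP_da2c1b_co.Angle

namespace Pool.Agent.Lib.MP_da2c1b_co

open Set Filter Metric Real
open scoped Topology

variable {K : Set E} {N : Seminorm ℝ E} {m R L M : ℝ}
variable {B : ℝ} {X A V : ℝ → E} {a b ρ : ℝ → ℝ}

theorem rule_real {n α β κ : ℝ} (n0 : 0 < n) (n1 : n ≤ 1) (h1 : β + α = 2 * n)
    (h2 : 1 / (2 * n) + α ≤ 2) (hκ : 1 ≤ κ) : (α - 3 * κ * β) / 2 ≤ 3 * (1 - n) := by
  have e : 1 / (2 * n) * (2 * n) = 1 := by field_simp
  set i := 1 / (2 * n) with hi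
  have i0 : 0 < i := by positivity
  have hβ : 0 ≤ β := by
    have : 0 ≤ (2 * n - 2 + i) * (2 * n) := by nlinarith [sq_nonneg (2 * n - 1)]
    have := nonneg_of_mul_nonneg_left this (by positivity)
    linarith
  have k1 : β ≤ κ * β := le_mul_of_one_le_left hβ hκ
  have k2 : 1 / 2 ≤ i := by
    rw [hi]; exact one_div_le_one_div_of_le (by positivity) (by linarith)
  nlinarith

theorem gron {n n' : ℝ → ℝ} {B t0 t1 : ℝ} (ht : t0 ≤ t1) (hd : ∀ s, HasDerivAt n (n' s) s)
    (hle : ∀ s, t0 < s → s < t1 → n' s ≤ B * (1 - n s)) (h1 : n t1 = 1) : 1 ≤ n t0 := by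
  have d : ∀ s, HasDerivAt (fun s => (1 - n s) * exp (B * s))
      ((B * (1 - n s) - n' s) * exp (B * s)) s := by
    intro s
    have k := ((hd s).const_sub 1).mul (((hasDerivAt_id s).const_mul B).exp)
    exact dcongr k (fun s => rfl) (by simp only [id]; ring)
  have hm : MonotoneOn (fun s => (1 - n s) * exp (B * s)) (Icc t0 t1) := by
    refine monotoneOn_of_deriv_nonneg (convex_Icc _ _)
      (fun s _ => (d s).continuousAt.continuousWithinAt)
      (fun s _ => (d s).differentiableAt.differentiableWithinAt) fun s hs => ?_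
    rw [interior_Icc] at hs
    rw [(d s).deriv]
    exact mul_nonneg (by linarith [hle s hs.1 hs.2]) (exp_pos _).le
  have k := hm ⟨le_rfl, ht⟩ ⟨ht, le_rfl⟩ ht
  simp only [h1, sub_self, zero_mul] at k
  have := exp_pos (B * t0)
  by_contra hn
  push Not at hn
  nlinarith

theorem Sys.kap_ge (h : Ext K N m R L M) (S : Sys K N m B X A V a b ρ) {s : ℝ}
    (hs : 0 ≤ (3 * b s + a s) * (3 * b s - a s)) : 1 ≤ kap (a s) (b s) := by
  obtain ⟨-, l, l0, e⟩ := h.kap_pos (S.cfg s) (S.mul s)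
  have := mul_nonneg l0.le hs
  linarith

theorem Sys.ruleP (h : Ext K N m R L M) (S : Sys K N m B X A V a b ρ) {t0 t1 : ℝ} (ht : t0 ≤ t1)
    (hk : ∀ s, t0 < s → s < t1 → 0 ≤ (3 * b s + a s) * (3 * b s - a s))
    (h1 : 3 * b t1 + a t1 = 0) : 3 * b t0 + a t0 = 0 := by
  have hm := h.mpos
  have hw : ∀ s, w ((1 / 2 : ℝ) • (X s + V s)) (V s) = m / 2 := fun s => by
    rw [← (S.cfg s).hw]; simp [w]; ring
  have hne : ∀ s, (1 / 2 : ℝ) • (X s + V s) ≠ 0 := fun s k => by
    have := hw s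
    rw [k, w_zero_left] at this
    linarith
  choose A' V' hc using fun s : ℝ => h.cfg_ex (N_normalize h.hR (hne s))
  have hd := fun s => h.N_deriv (((S.dX s).add (S.dV s)).const_smul (1 / 2 : ℝ)) hne (hc s)
  rw [h.p_iff (S.cfg _) (S.mul _)] at h1 ⊢
  refine le_antisymm (h.NP_le (S.cfg _)) (gron (B := 3 * B) ht hd (fun s s0 s1 => ?_) h1)
  have n0 := N_pos h.hR (hne s)
  have n1 := h.NP_le (S.cfg s)
  have c := S.cfg s
  have c' := hc s
  change _ ≤ 3 * B * (1 - N ((1 / 2 : ℝ) • (X s + V s)))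
  set n := N ((1 / 2 : ℝ) • (X s + V s)) with hn
  obtain ⟨α, β, e, -, -⟩ := h.frame c (V' s)
  have k1 : β + -α = 2 * n := by
    have k := c'.hw
    have e2 : w (n⁻¹ • (1 / 2 : ℝ) • (X s + V s)) (V' s) = n⁻¹ * ((β - α) / 2 * m) := by
      rw [e, ← c.hw]; simp [w]; ring
    rw [e2] at k
    field_simp at k
    linarith
  have k2 : 1 / (2 * n) + -α ≤ 2 := by
    have k := h.supp c (h.NQ_le c')
    have e2 : w ((1 / 2 : ℝ) • (n⁻¹ • (1 / 2 : ℝ) • (X s + V s) - V' s)) (V s) =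
        (1 / (2 * n) + -α) / 2 * m := by
      rw [e, ← c.hw]; simp [w]; ring
    rw [e2] at k
    have := (mul_le_iff_le_one_left hm).1 k
    linarith
  have k3 := rule_real n0 n1 k1 k2 (S.kap_ge h (hk s s0 s1))
  have e3 : w ((1 / 2 : ℝ) • (ρ s • V s + ρ s • (-(3 * kap (a s) (b s))) • X s)) (V' s) / m =
      ρ s * ((-α - 3 * kap (a s) (b s) * β) / 2) := by
    rw [div_eq_iff hm.ne', e, ← c.hw]; simp [w]; ring
  rw [e3]
  have k4 := mul_le_mul_of_nonneg_left k3 (S.ρ0 s).le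
  have k5 := mul_le_mul_of_nonneg_right (S.ρ1 s) (by linarith : 0 ≤ 1 - n)
  linarith

theorem Sys.ruleQ (h : Ext K N m R L M) (S : Sys K N m B X A V a b ρ) {t0 t1 : ℝ} (ht : t0 ≤ t1)
    (hk : ∀ s, t0 < s → s < t1 → 0 ≤ (3 * b s + a s) * (3 * b s - a s))
    (h1 : 3 * b t0 - a t0 = 0) : 3 * b t1 - a t1 = 0 := by
  have hm := h.mpos
  have hw : ∀ s, w ((1 / 2 : ℝ) • (X s - V s)) (V s) = m / 2 := fun s => by
    rw [← (S.cfg s).hw]; simp [w]; ring
  have hne : ∀ s, (1 / 2 : ℝ) • (X s - V s) ≠ 0 := fun s k => by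
    have := hw s
    rw [k, w_zero_left] at this
    linarith
  choose A' V' hc using fun s : ℝ => h.cfg_ex (N_normalize h.hR (hne s))
  have hd := fun s => h.N_deriv (((S.dX s).sub (S.dV s)).const_smul (1 / 2 : ℝ)) hne (hc s)
  have hd2 := fun s => (hd (-s)).comp s (hasDerivAt_neg s)
  rw [h.q_iff (S.cfg _) (S.mul _)] at h1 ⊢
  refine le_antisymm (h.NQ_le (S.cfg _)) ?_
  have key := gron (B := 3 * B) (t0 := -t1) (t1 := -t0) (by linarith) hd2 (fun s' s0 s1 => ?_)
    (by simpa using h1)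
  · simpa using key
  set s := -s' with hs
  have n0 := N_pos h.hR (hne s)
  have n1 := h.NQ_le (S.cfg s)
  have c := S.cfg s
  have c' := hc s
  change _ ≤ 3 * B * (1 - N ((1 / 2 : ℝ) • (X s - V s)))
  set n := N ((1 / 2 : ℝ) • (X s - V s)) with hn
  obtain ⟨α, β, e, -, -⟩ := h.frame c (V' s)
  have k1 : β + α = 2 * n := by
    have k := c'.hw
    have e2 : w (n⁻¹ • (1 / 2 : ℝ) • (X s - V s)) (V' s) = n⁻¹ * ((β + α) / 2 * m) := by
      rw [e, ← c.hw]; simp [w]; ring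
    rw [e2] at k
    field_simp at k
    linarith
  have k2 : 1 / (2 * n) + α ≤ 2 := by
    have k := h.supp c (h.NP_le c')
    have e2 : w ((1 / 2 : ℝ) • (n⁻¹ • (1 / 2 : ℝ) • (X s - V s) + V' s)) (V s) =
        (1 / (2 * n) + α) / 2 * m := by
      rw [e, ← c.hw]; simp [w]; ring
    rw [e2] at k
    have := (mul_le_iff_le_one_left hm).1 k
    linarith
  have k3 := rule_real n0 n1 k1 k2 (S.kap_ge h (hk s (by linarith) (by linarith)))
  have e3 : w ((1 / 2 : ℝ) • (ρ s • V s - ρ s • (-(3 * kap (a s) (b s))) • X s)) (V' s) / m * -1 =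
      ρ s * ((α - 3 * kap (a s) (b s) * β) / 2) := by
    rw [mul_neg_one, ← neg_div, div_eq_iff hm.ne', e, ← c.hw]; simp [w]; ring
  rw [e3]
  have k4 := mul_le_mul_of_nonneg_left k3 (S.ρ0 s).le
  have k5 := mul_le_mul_of_nonneg_right (S.ρ1 s) (by linarith : 0 ≤ 1 - n)
  linarith

theorem Sys.next (h : Ext K N m R L M) (S : Sys K N m B X A V a b ρ) {t : ℝ}
    (hp : 3 * b t + a t = 0) : ∃ s, t < s ∧ s < t + π ∧ X s = (1 / 2 : ℝ) • (X t + V t) ∧
      V s = (1 / 2 : ℝ) • (V t - (3 : ℝ) • X t) ∧ 3 * b s - a s = 0 ∧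
      (3 * b s + a s = 0 ↔ 3 * b t - a t = 0) := by
  have hm := h.mpos
  obtain ⟨s, s1, s2, e⟩ := S.find h t (h.NP_of (S.cfg t) (S.mul t) hp) (by
    rw [w_smul_right, w_add_right, w_self, (S.cfg t).hw]; linarith)
  have c := S.cfg s
  have u := S.mul s
  rw [e] at c u
  exact ⟨s, s1, s2, e, (h.of_NP (S.cfg t) (S.mul t) c).2, h.next_q (S.cfg t) (S.mul t) c u⟩

theorem Sys.stepA0 (h : Ext K N m R L M) (S : Sys K N m B X A V a b ρ) {θ : ℝ}
    (hp : 0 < 3 * b θ + a θ) (hq : 0 < 3 * b θ - a θ) : False := by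
  have cp : Continuous fun s => 3 * b s + a s := by have := S.ca; have := S.cb; fun_prop
  have cq : Continuous fun s => 3 * b s - a s := by have := S.ca; have := S.cb; fun_prop
  have cf := cp.min cq
  have f0 : 0 < min (3 * b θ + a θ) (3 * b θ - a θ) := lt_min hp hq
  obtain ⟨t1, -, t12, t13, t14⟩ := last_zero cf (u := θ - π) (v := θ) (by linarith [pi_pos]) (by
    obtain ⟨-, e1, e2⟩ := S.anti h (θ - π)
    rw [sub_add_cancel] at e1 e2
    exact (min_le_left _ _).trans (by linarith)) f0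
  obtain ⟨s1, s11, -, s13, s14⟩ := first_zero cf (u := θ) (v := θ + π) (by linarith [pi_pos]) f0 (by
    obtain ⟨-, e1, e2⟩ := S.anti h θ
    exact (min_le_left _ _).trans (by linarith))
  have pos : ∀ s, t1 < s → s < s1 → 0 < 3 * b s + a s ∧ 0 < 3 * b s - a s := by
    intro s k1 k2
    rcases le_total s θ with k | k
    · exact lt_min_iff.1 (t14 s k1 k)
    · exact lt_min_iff.1 (s14 s k k2)
  have p1 : 3 * b s1 + a s1 ≠ 0 := fun k => hp.ne' (S.ruleP h s11.le (fun s k1 k2 =>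
    have := pos s (t12.trans k1) k2
    (mul_pos this.1 this.2).le) k)
  have q1 : 3 * b t1 - a t1 ≠ 0 := fun k => hq.ne' (S.ruleQ h t12.le (fun s k1 k2 =>
    have := pos s k1 (k2.trans s11)
    (mul_pos this.1 this.2).le) k)
  have p2 : 0 < 3 * b s1 + a s1 := lt_of_le_of_ne (s13 ▸ min_le_left _ _) p1.symm
  have q2 : 0 < 3 * b t1 - a t1 := lt_of_le_of_ne (t13 ▸ min_le_right _ _) q1.symm
  have q3 : 3 * b s1 - a s1 = 0 := by
    rcases min_choice (3 * b s1 + a s1) (3 * b s1 - a s1) with k | k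
    · exact absurd (k ▸ s13) p1
    · exact k ▸ s13
  have p3 : 3 * b t1 + a t1 = 0 := by
    rcases min_choice (3 * b t1 + a t1) (3 * b t1 - a t1) with k | k
    · exact k ▸ t13
    · exact absurd (k ▸ t13) q1
  obtain ⟨T, hT, hT2⟩ := S.back_ex h
  have e1 : X (T s1) = (1 / 2 : ℝ) • (X s1 - V s1) := by
    have k := h.NQ_of (S.cfg s1) (S.mul s1) q3
    rw [map_smul_eq_mul, Real.norm_eq_abs, abs_of_pos (by norm_num)] at k
    rw [(hT2 s1).2.2.1, show N (X s1 - V s1) = 2 by linarith]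
    norm_num
  have e2 : V (T s1) = (1 / 2 : ℝ) • (V s1 + (3 : ℝ) • X s1) := by
    have c := S.cfg (T s1)
    rw [e1] at c
    exact (h.of_NQ (S.cfg s1) (S.mul s1) c).2
  have e3 : X s1 = (1 / 2 : ℝ) • (X (T s1) + V (T s1)) := by rw [e1, e2]; module
  have c := S.cfg s1
  have u := S.mul s1
  rw [e3] at c u
  have p4 := (h.of_NP (S.cfg _) (S.mul _) c).1
  obtain ⟨_, _, -, -, sg, -⟩ := h.contact (S.cfg _) (S.mul _) c u
  have q4 : 0 < 3 * b (T s1) - a (T s1) := by
    have := sg.2 (by linarith)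
    linarith
  have r1 : T t1 < T s1 := hT (t12.trans s11)
  have nz : ∀ t, T t1 ≤ t → t < T s1 → 3 * b t + a t ≠ 0 := by
    intro t k1 k2 k3
    obtain ⟨s, a1, a2, a3, a4, a5, -⟩ := S.next h k3
    have a6 : T s = t := by
      refine S.inj h (by linarith [(hT2 s).2.1]) (by linarith [(hT2 s).1]) ?_
      have : X s - V s = (2 : ℝ) • X t := by rw [a3, a4]; module
      rw [(hT2 s).2.2.1, this, map_smul_eq_mul, (S.cfg t).hx, smul_smul]
      norm_num
    rw [← a6] at k1 k2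
    have b1 := hT.le_iff_le.1 k1
    have b2 := hT.lt_iff_lt.1 k2
    rcases b1.lt_or_eq with b3 | b3
    · exact (pos s b3 b2).2.ne' a5
    · exact q1 (b3 ▸ a5)
  have p5 : 0 < 3 * b (T t1) + a (T t1) := by
    have c1 := S.cfg (T t1)
    have u1 := S.mul (T t1)
    rw [(hT2 t1).2.2.1] at c1 u1
    exact lt_of_le_of_ne (h.back (S.cfg t1) (S.mul t1) p3 (by linarith) (hT2 t1).2.2.2 c1 u1)
      (nz _ le_rfl r1).symm
  obtain ⟨t2, a1, a2, a3, a4⟩ := first_zero cp r1.le p5 p4.le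
  have a5 : t2 = T s1 := by
    by_contra k
    exact nz t2 a1.le (lt_of_le_of_ne a2 k) a3
  rw [a5] at a4
  have ev : ∀ᶠ s in 𝓝 (T s1), 0 < 3 * b s - a s := cq.continuousAt.eventually (lt_mem_nhds q4)
  obtain ⟨ε, ε0, hε⟩ := Metric.eventually_nhds_iff.1 ev
  set t0 := max (T t1) (T s1 - ε / 2) with ht0
  have z1 : t0 < T s1 := max_lt r1 (by linarith)
  refine nz t0 (le_max_left _ _) z1 (S.ruleP h z1.le (fun s k1 k2 => ?_) p4)
  refine (mul_pos (a4 s ((le_max_left _ _).trans k1.le) k2) (hε ?_)).le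
  have := (le_max_right _ _).trans_lt k1
  rw [Real.dist_eq, abs_lt]
  constructor <;> linarith

theorem Sys.stepA (h : Ext K N m R L M) (S : Sys K N m B X A V a b ρ) (θ : ℝ) :
    (3 * b θ + a θ) * (3 * b θ - a θ) ≤ 0 := by
  by_contra hn
  rcases mul_pos_iff.1 (not_le.1 hn) with k | k
  · exact S.stepA0 h k.1 k.2
  · obtain ⟨-, e1, e2⟩ := S.anti h θ
    exact S.stepA0 h (θ := θ + π) (by linarith [k.1]) (by linarith [k.2])

theorem Sys.dG (S : Sys K N m B X A V a b ρ) (z : E) (s : ℝ) :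
    HasDerivAt (fun s => w (X s) z ^ 2 + w (V s) z ^ 2 / 3)
      (2 * ρ s * w (X s) z * w (V s) z * (1 - kap (a s) (b s))) s := by
  have d1 := HasDerivAt.w2 (S.dX s) (hasDerivAt_const s z)
  have d2 := HasDerivAt.w2 (S.dV s) (hasDerivAt_const s z)
  refine dcongr ((d1.pow 2).add ((d2.pow 2).div_const 3)) (fun s => rfl) ?_
  simp only [w_zero_right, w_smul_left]
  norm_num
  ring

theorem Sys.energy (h : Ext K N m R L M) (S : Sys K N m B X A V a b ρ) {t s : ℝ} (h1 : t < s)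
    (h2 : s < t + π) (e1 : X s = (1 / 2 : ℝ) • (X t + V t))
    (e2 : V s = (1 / 2 : ℝ) • (V t - (3 : ℝ) • X t)) {θ : ℝ} (k1 : t < θ) (k2 : θ < s) :
    (3 * b θ + a θ) * (3 * b θ - a θ) = 0 := by
  have hm := h.mpos
  have hw := (S.cfg t).hw
  have w1 : w (X s) (V t) = m / 2 := by rw [e1, ← hw]; simp [w]; ring
  have w2 : w (V s) (V t) = -(3 * m / 2) := by rw [e2, ← hw]; simp [w]; ring
  have xp : ∀ u, t ≤ u → u ≤ s → 0 < w (X u) (V t) := by
    intro u u1 u2
    have k := ec_comb s t u (V t)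
    rw [S.ec_eq h u, S.ec_eq h t, S.ec_eq h s, w_smul_left, w_smul_left, w_smul_left, hw, w1] at k
    have n1 := N_pos h.hR (ec_ne u)
    have n2 := N_pos h.hR (ec_ne t)
    have n3 := N_pos h.hR (ec_ne s)
    have s0 := sin_pos_of_pos_of_lt_pi (x := s - t) (by linarith) (by linarith)
    have s1 := sin_nonneg_of_nonneg_of_le_pi (x := s - u) (by linarith) (by linarith)
    have s2 := sin_nonneg_of_nonneg_of_le_pi (x := u - t) (by linarith) (by linarith)
    have k3 : 0 < sin (s - u) * (N (ec t) * m) + sin (u - t) * (N (ec s) * (m / 2)) := by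
      rcases u1.lt_or_eq with u3 | u3
      · have := sin_pos_of_pos_of_lt_pi (x := u - t) (by linarith) (by linarith)
        positivity
      · have := sin_pos_of_pos_of_lt_pi (x := s - u) (by linarith) (by linarith)
        positivity
    rw [← k] at k3
    exact (mul_pos_iff_of_pos_left n1).1 ((mul_pos_iff_of_pos_left s0).1 k3)
  have dg := fun u => HasDerivAt.w2 (S.dV u) (hasDerivAt_const u (V t))
  have vn : ∀ u, t < u → u ≤ s → w (V u) (V t) < 0 := by
    have an : StrictAntiOn (fun u => w (V u) (V t)) (Icc t s) := by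
      refine strictAntiOn_of_deriv_neg (convex_Icc _ _)
        (fun u _ => (dg u).continuousAt.continuousWithinAt) fun u hu => ?_
      rw [interior_Icc] at hu
      rw [(dg u).deriv, w_zero_right, add_zero, w_smul_left, w_smul_left]
      have := S.ρ0 u
      have := (h.kap_pos (S.cfg u) (S.mul u)).1
      have := xp u hu.1.le hu.2.le
      have : 0 < ρ u * (3 * kap (a u) (b u) * w (X u) (V t)) := by positivity
      linarith
    intro u u1 u2
    have := an ⟨le_rfl, h1.le⟩ ⟨u1.le, u2⟩ u1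
    simpa [w_self] using this
  have kl : ∀ u, kap (a u) (b u) ≤ 1 := by
    intro u
    obtain ⟨-, l, l0, e⟩ := h.kap_pos (S.cfg u) (S.mul u)
    have := mul_nonpos_of_nonneg_of_nonpos l0.le (S.stepA h u)
    linarith
  have an : AntitoneOn (fun s => w (X s) (V t) ^ 2 + w (V s) (V t) ^ 2 / 3) (Icc t s) := by
    refine antitoneOn_of_deriv_nonpos (convex_Icc _ _)
      (fun u _ => (S.dG (V t) u).continuousAt.continuousWithinAt)
      (fun u _ => (S.dG (V t) u).differentiableAt.differentiableWithinAt) fun u hu => ?_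
    rw [interior_Icc] at hu
    rw [(S.dG (V t) u).deriv]
    have := S.ρ0 u
    have := xp u hu.1.le hu.2.le
    refine mul_nonpos_of_nonpos_of_nonneg (mul_nonpos_of_nonneg_of_nonpos (by positivity)
      (vn u hu.1 hu.2.le).le) (by linarith [kl u])
  have loc : IsLocalMin (fun s => w (X s) (V t) ^ 2 + w (V s) (V t) ^ 2 / 3) θ := by
    filter_upwards [Ioo_mem_nhds k1 k2] with u hu
    have j1 := an ⟨le_rfl, h1.le⟩ ⟨k1.le, k2.le⟩ k1.le
    have j2 := an ⟨hu.1.le, hu.2.le⟩ ⟨h1.le, le_rfl⟩ hu.2.le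
    simp only [hw, w_self, w1, w2] at j1 j2
    linarith
  have z := loc.hasDerivAt_eq_zero (S.dG (V t) θ)
  have z1 : 2 * ρ θ * w (X θ) (V t) * w (V θ) (V t) ≠ 0 := by
    have := S.ρ0 θ
    have := xp θ k1.le k2.le
    exact mul_ne_zero (by positivity) (vn θ k1 k2.le).ne
  have z2 := (mul_eq_zero.1 z).resolve_left z1
  obtain ⟨-, l, l0, e⟩ := h.kap_pos (S.cfg θ) (S.mul θ)
  exact (mul_eq_zero.1 (by linarith : l * ((3 * b θ + a θ) * (3 * b θ - a θ)) = 0)).resolve_left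
    l0.ne'

theorem Sys.exists_Z (h : Ext K N m R L M) (S : Sys K N m B X A V a b ρ) :
    ∃ t, 3 * b t + a t = 0 ∧ 3 * b t - a t = 0 := by
  have cp : Continuous fun s => 3 * b s + a s := by have := S.ca; have := S.cb; fun_prop
  have cq : Continuous fun s => 3 * b s - a s := by have := S.ca; have := S.cb; fun_prop
  obtain ⟨t, ht⟩ : ∃ t, 3 * b t + a t = 0 := by
    obtain ⟨-, e1, e2⟩ := S.anti h 0
    rcases le_total (3 * b 0 + a 0) 0 with k | k
    · exact intermediate_value_univ 0 (0 + π) cp ⟨k, by linarith⟩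
    · exact intermediate_value_univ (0 + π) 0 cp ⟨by linarith, k⟩
  by_cases hq : 3 * b t - a t = 0
  · exact ⟨t, ht, hq⟩
  obtain ⟨s, a1, a2, a3, a4, a5, -⟩ := S.next h ht
  obtain ⟨r, r1, r2, r3, r4⟩ := first_zero (f := fun s => |3 * b s - a s|) cq.abs a1.le
    (abs_pos.2 hq) (by simp only [a5, abs_zero]; exact le_rfl)
  refine ⟨r, ?_, abs_eq_zero.1 r3⟩
  have k : Tendsto (fun s => 3 * b s + a s) (𝓝[<] r) (𝓝 0) := by
    refine tendsto_const_nhds.congr' ?_
    filter_upwards [Ioo_mem_nhdsLT r1] with u hu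
    have k1 := S.energy h a1 a2 a3 a4 hu.1 (hu.2.trans_le r2)
    exact ((mul_eq_zero.1 k1).resolve_right (abs_pos.1 (r4 u hu.1.le hu.2))).symm
  exact tendsto_nhds_unique ((cp.tendsto r).mono_left nhdsWithin_le_nhds) k

theorem Sys.kap_one (h : Ext K N m R L M) (S : Sys K N m B X A V a b ρ) (θ : ℝ) :
    kap (a θ) (b θ) = 1 := by
  obtain ⟨t, p0, q0⟩ := S.exists_Z h
  obtain ⟨s1, a1, a2, a3, a4, q1, a6⟩ := S.next h p0
  have p1 := a6.2 q0
  obtain ⟨s2, b1, b2, b3, b4, q2, b6⟩ := S.next h p1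
  have p2 := b6.2 q1
  obtain ⟨s3, c1, c2, c3, c4, q3, -⟩ := S.next h p2
  have e3 : X s3 = -X t := by rw [c3, b3, b4, a3, a4]; module
  have h3 : t + π ≤ s3 := by
    by_contra hn
    have := S.inj h (s := s3) (t := t + π) (by linarith [pi_pos]) (by linarith)
      (by rw [e3, (S.anti h t).1])
    exact hn this.ge
  have key : ∀ u, t ≤ u → u < t + π → (3 * b u + a u) * (3 * b u - a u) = 0 := by
    intro u u1 u2
    rcases u1.lt_or_eq with u1 | rfl
    swap
    · rw [p0, zero_mul]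
    rcases lt_trichotomy u s1 with k | rfl | k
    · exact S.energy h a1 a2 a3 a4 u1 k
    · rw [p1, zero_mul]
    rcases lt_trichotomy u s2 with k' | rfl | k'
    · exact S.energy h b1 b2 b3 b4 k k'
    · rw [p2, zero_mul]
    · exact S.energy h c1 c2 c3 c4 k' (by linarith)
  have per : Function.Periodic (fun u => (3 * b (t + u) + a (t + u)) *
      (3 * b (t + u) - a (t + u))) π := by
    intro u
    obtain ⟨-, e1, e2⟩ := S.anti h (t + u)
    simp only [← add_assoc, e1, e2]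
    ring
  obtain ⟨u, hu, e⟩ := per.exists_mem_Ico₀ pi_pos (θ - t)
  simp only [add_sub_cancel] at e
  rw [key (t + u) (by linarith [hu.1]) (by linarith [hu.2])] at e
  obtain ⟨-, l, l0, e2⟩ := h.kap_pos (S.cfg θ) (S.mul θ)
  rw [e, mul_zero] at e2
  linarith

theorem Sys.N_sq (h : Ext K N m R L M) (S : Sys K N m B X A V a b ρ) (θ : ℝ) {y : E}
    (hy : w (X θ) y ^ 2 + w (V θ) y ^ 2 / 3 = m ^ 2 / 3) : N y = 1 := by
  have hm := h.mpos
  have hy0 : y ≠ 0 := by
    rintro rfl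
    simp only [w_zero_right] at hy
    nlinarith
  have hN := N_pos h.hR hy0
  obtain ⟨s, hs⟩ := S.surj h (N_normalize h.hR hy0)
  have k := is_const_of_deriv_eq_zero (f := fun s => w (X s) y ^ 2 + w (V s) y ^ 2 / 3)
    (fun u => (S.dG y u).differentiableAt)
    (fun u => by rw [(S.dG y u).deriv, S.kap_one h, sub_self, mul_zero]) θ s
  have e : y = N y • X s := by rw [hs, smul_smul, mul_inv_cancel₀ hN.ne', one_smul]
  have e1 : w (X s) y = 0 := by rw [e, w_smul_right, w_self, mul_zero]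
  have e2 : w (V s) y = -(N y * m) := by
    conv_lhs => rw [e]
    rw [w_smul_right, w_comm, (S.cfg s).hw]; ring
  simp only [hy, e1, e2] at k
  have k2 : m ^ 2 * (N y ^ 2) = m ^ 2 * 1 ^ 2 := by linarith
  exact (pow_left_inj₀ hN.le zero_le_one two_ne_zero).1 (mul_left_cancel₀ (by positivity) k2)

theorem Ext.symm (h : Ext K N m R L M) : ∃ c : E, ∀ x ∈ K, c + (c - x) ∈ K := by
  obtain ⟨B, X, A, V, a, b, ρ, S⟩ := h.sys_ex
  have hp : ∀ s, 3 * b s + a s = 0 := fun s => by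
    rw [h.p_iff (S.cfg s) (S.mul s)]
    apply S.N_sq h s
    rw [← (S.cfg s).hw]; simp [w]; ring
  have hq : ∀ s, 3 * b s - a s = 0 := fun s => by
    rw [h.q_iff (S.cfg s) (S.mul s)]
    apply S.N_sq h s
    rw [← (S.cfg s).hw]; simp [w]; ring
  have ha : ∀ s, a s = 0 := fun s => by linarith [hp s, hq s]
  have hb : ∀ s, b s = 0 := fun s => by linarith [hp s, hq s]
  have dc : ∀ s, HasDerivAt (fun s => A s + (1 / 2 : ℝ) • (X s + V s)) 0 s := by
    intro s
    refine dcongr ((S.dA s).add (((S.dX s).add (S.dV s)).const_smul (1 / 2 : ℝ))) (fun s => rfl) ?_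
    rw [S.kap_one h, ha, hb, velA]
    norm_num
    module
  have hc := is_const_of_deriv_eq_zero (f := fun s => A s + (1 / 2 : ℝ) • (X s + V s))
    (fun u => (dc u).differentiableAt) (fun u => (dc u).deriv) 0
  set c := A 0 + (1 / 2 : ℝ) • (X 0 + V 0) with hc0
  have unit : ∀ z, N z = 1 → c + z ∈ K := by
    intro z hz
    obtain ⟨s, rfl⟩ := S.surj h hz
    obtain ⟨t, ht⟩ := S.surj h (h.NQ_of (S.cfg s) (S.mul s) (hq s))
    have c1 := S.cfg t
    rw [ht] at c1
    have e := (h.of_NQ (S.cfg s) (S.mul s) c1).2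
    convert (S.cfg t).hD using 1
    rw [hc t, ht, e]; module
  have ball : ∀ z, N z ≤ 1 → c + z ∈ K := by
    intro z hz
    obtain ⟨y, hy, e⟩ : ∃ y, N y = 1 ∧ z = N z • y := by
      by_cases h0 : z = 0
      · exact ⟨X 0, (S.cfg 0).hx, by simp [h0]⟩
      · exact ⟨_, N_normalize h.hR h0, by
          rw [smul_smul, mul_inv_cancel₀ (N_pos h.hR h0).ne', one_smul]⟩
    have k := h.seg (unit (-y) (by rw [map_neg_eq_map, hy])) (unit y hy) (s := (1 + N z) / 2)
      (by have := apply_nonneg N z; linarith) (by linarith)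
    convert k using 1
    conv_lhs => rw [e]
    module
  refine ⟨c, fun x hx => ball _ ?_⟩
  by_cases h0 : c - x = 0
  · simp [h0]
  have hN := N_pos h.hR h0
  have k := h.half_mem (unit _ (N_normalize h.hR h0)) hx
  have e : (1 / 2 : ℝ) • (c + (N (c - x))⁻¹ • (c - x) - x) =
      ((1 + (N (c - x))⁻¹) / 2) • (c - x) := by module
  rw [e, map_smul_eq_mul, Real.norm_eq_abs, abs_of_pos (by positivity)] at k
  have e2 : (1 + (N (c - x))⁻¹) / 2 * N (c - x) = (N (c - x) + 1) / 2 := by field_simp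
  linarith

end Pool.Agent.Lib.MP_da2c1b_co
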