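import Pool.Agent.Lib.MP_da2c1b_co.Main
import Pool.Agent.Lib.MP_da2c1b_co.Global

namespace Pool.Agent.Lib.MP_da2c1b_co

open MeasureTheory Set Filter Metric Module Submodule
open scoped Topology

theorem dens_tendsto (b : Basis (Fin 2) ℝ E) {K : Set E} (hK : Bornology.IsBounded K)
    (hne : K.Nonempty) (hfin : volume K ≠ ⊤) :
    Tendsto (dens (latFam b K)) atTop (𝓝 (volume K / volume (ZSpan.fundamentalDomain b))) := by
  obtain ⟨R, hR⟩ := hK.exists_norm_le
  obtain ⟨R', hR'⟩ := (ZSpan.fundamentalDomain_isBounded b).exists_norm_le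
  set D := ZSpan.fundamentalDomain b with hD
  have hD0 : volume D ≠ 0 := ZSpan.measure_fundamentalDomain_ne_zero b
  have hD1 : volume D ≠ ⊤ := (ZSpan.fundamentalDomain_isBounded b).measure_lt_top.ne
  have hq : volume K / volume D ≠ ⊤ := ENNReal.div_ne_top hfin hD0
  have hl : ∀ c : ℝ, Tendsto (fun r : ℝ => volume K / volume D *
      (volume (closedBall (0 : E) (r + c)) / volume (closedBall (0 : E) r)))
      atTop (𝓝 (volume K / volume D)) := by
    intro c
    have := ENNReal.Tendsto.const_mul (a := volume K / volume D) (tendsto_ratio c) (Or.inr hq)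
    simpa using this
  refine tendsto_of_tendsto_of_tendsto_of_le_of_le (hl (-R - R')) (hl (R + R')) (fun r => ?_)
    (fun r => ?_)
  · unfold dens
    beta_reduce
    rw [sum_latFam b hK hne, ← mul_div_assoc]
    apply ENNReal.div_le_div_right
    refine le_trans ?_ (cnt_le_sum b hR r)
    have h2 : volume (closedBall (0 : E) (r + (-R - R'))) ≤ cnt b (r - R) * volume D := by
      rw [ball_eq_sum b]
      have := sum_le_cnt b hR' (r + (-R - R'))
      rwa [show r + (-R - R') + R' = r - R by ring] at this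
    calc volume K / volume D * volume (closedBall (0 : E) (r + (-R - R')))
        ≤ volume K / volume D * (cnt b (r - R) * volume D) := by gcongr
      _ = cnt b (r - R) * (volume K / volume D * volume D) := by ring
      _ = cnt b (r - R) * volume K := by rw [ENNReal.div_mul_cancel hD0 hD1]
  · unfold dens
    beta_reduce
    rw [sum_latFam b hK hne, ← mul_div_assoc]
    apply ENNReal.div_le_div_right
    refine le_trans (sum_le_cnt b hR r) ?_
    have h2 : cnt b (r + R) * volume D ≤ volume (closedBall (0 : E) (r + (R + R'))) := by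
      rw [ball_eq_sum b]
      have := cnt_le_sum b hR' (r + (R + R'))
      rwa [show r + (R + R') - R' = r + R by ring] at this
    calc cnt b (r + R) * volume K = cnt b (r + R) * (volume K / volume D * volume D) := by
          rw [ENNReal.div_mul_cancel hD0 hD1]
      _ = volume K / volume D * (cnt b (r + R) * volume D) := by ring
      _ ≤ _ := by gcongr

/-- Point reflection of a set. -/
def refl (z : E) (K : Set E) : Set E := (fun P => z - P) '' K

/-- Double-lattice family. -/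
def dbl (b : Basis (Fin 2) ℝ E) (z : E) (K : Set E) : Set (Set E) :=
  latFam b K ∪ latFam b (refl z K)

theorem vol_refl (z : E) (K : Set E) : volume (refl z K) = volume K := by
  have e : refl z K = (fun x => z + x) '' (-K) := by
    ext P
    simp only [refl, mem_image, Set.mem_neg]
    constructor
    · rintro ⟨Q, hQ, rfl⟩
      exact ⟨-Q, by simpa using hQ, by abel⟩
    · rintro ⟨Q, hQ, rfl⟩
      exact ⟨-Q, hQ, by abel⟩
  rw [e, vol_translate, Measure.measure_neg]

theorem interior_refl (z : E) (K : Set E) : interior (refl z K) = refl z (interior K) :=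
  ((Homeomorph.subLeft z).image_interior K).symm

theorem copies_dbl (b : Basis (Fin 2) ℝ E) (z : E) (K : Set E) : Copies K (dbl b z K) := by
  rintro C (hC | ⟨l, rfl⟩)
  · exact copies_latFam b K C hC
  · refine ⟨(IsometryEquiv.neg E).trans (IsometryEquiv.addLeft ((l : E) + z)), ?_⟩
    simp only [refl, image_image]
    congr 1
    funext P
    simp
    abel

theorem dbl_tendsto (b : Basis (Fin 2) ℝ E) (z : E) {K : Set E} (hK : Bornology.IsBounded K)
    (hne : K.Nonempty) (hfin : volume K ≠ ⊤) :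
    Tendsto (fun r => dens (latFam b K) r + dens (latFam b (refl z K)) r) atTop
      (𝓝 (2 * (volume K / volume (ZSpan.fundamentalDomain b)))) := by
  have hK' : Bornology.IsBounded (refl z K) :=
    (IsometryEquiv.subLeft z).isometry.lipschitz.isBounded_image hK
  have := (dens_tendsto b hK hne hfin).add
    (dens_tendsto b hK' (hne.image _) (by rw [vol_refl]; exact hfin))
  rwa [vol_refl, ← two_mul] at this

theorem cd_le_dbl (b : Basis (Fin 2) ℝ E) (z : E) {K : Set E} (hK : Bornology.IsBounded K)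
    (hne : K.Nonempty) (hfin : volume K ≠ ⊤) (h : ⋃₀ dbl b z K = univ) :
    cd K ≤ 2 * (volume K / volume (ZSpan.fundamentalDomain b)) := by
  refine le_trans (iInf₂_le_of_le (dbl b z K) ⟨copies_dbl b z K, h⟩ le_rfl) ?_
  rw [← (dbl_tendsto b z hK hne hfin).liminf_eq]
  refine liminf_le_liminf (Eventually.of_forall fun r => ?_)
  unfold dens dbl
  rw [← ENNReal.add_div]
  exact ENNReal.div_le_div_right
    (ENNReal.tsum_union_le (fun C : Set E => volume (C ∩ closedBall 0 r)) _ _) _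

theorem dbl_le_pd (b : Basis (Fin 2) ℝ E) (z : E) {K : Set E} (hK : Bornology.IsBounded K)
    (hne : (interior K).Nonempty) (hfin : volume K ≠ ⊤)
    (h1 : ∀ l ∈ Lat b, ∀ P ∈ interior K, ∀ Q ∈ interior K, P - Q = l → l = 0)
    (h2 : ∀ l ∈ Lat b, ∀ P ∈ interior K, ∀ Q ∈ interior K, P + Q ≠ z + l) :
    2 * (volume K / volume (ZSpan.fundamentalDomain b)) ≤ pd K := by
  have mix : ∀ l l' : Lat b, Disjoint (interior ((fun x => (l : E) + x) '' K))
      (interior ((fun x => (l' : E) + x) '' refl z K)) := by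
    intro l l'
    rw [interior_translate, interior_translate, interior_refl, Set.disjoint_left]
    rintro _ ⟨P, hP, rfl⟩ ⟨_, ⟨Q, hQ, rfl⟩, e⟩
    refine h2 _ (l' - l).2 P hP Q hQ ?_
    simp only [AddSubgroupClass.coe_sub] at e ⊢
    have : P = (l' : E) + (z - Q) - l := by rw [e]; abel
    rw [this]; abel
  have hp : IsPacking K (dbl b z K) := by
    refine ⟨copies_dbl b z K, ?_⟩
    rintro _ (⟨l, rfl⟩ | ⟨l, rfl⟩) _ (⟨l', rfl⟩ | ⟨l', rfl⟩) hne
    · simp only [interior_translate]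
      rw [Set.disjoint_left]
      rintro _ ⟨P, hP, rfl⟩ ⟨Q, hQ, e⟩
      apply hne
      have := h1 _ (l' - l).2 P hP Q hQ (by
        simp only [AddSubgroupClass.coe_sub] at e ⊢
        rw [sub_eq_sub_iff_add_eq_add, e]; abel)
      have k : l' = l := sub_eq_zero.1 (Subtype.ext this)
      rw [k]
    · exact mix l l'
    · exact (mix l' l).symm
    · simp only [interior_translate, interior_refl]
      rw [Set.disjoint_left]
      rintro _ ⟨_, ⟨P, hP, rfl⟩, rfl⟩ ⟨_, ⟨Q, hQ, rfl⟩, e⟩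
      apply hne
      have := h1 _ (l - l').2 P hP Q hQ (by
        simp only [AddSubgroupClass.coe_sub] at e ⊢
        have : (l : E) = l' + (z - Q) - (z - P) := by rw [e]; abel
        rw [this]; abel)
      have k : l = l' := sub_eq_zero.1 (Subtype.ext this)
      rw [k]
  have hd : Disjoint (latFam b K) (latFam b (refl z K)) := by
    rw [Set.disjoint_left]
    rintro _ ⟨l, rfl⟩ ⟨l', e⟩
    have k := mix l l'
    simp only at e
    rw [e, disjoint_self, interior_translate, bot_eq_empty, image_eq_empty] at k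
    exact hne.ne_empty k
  refine le_trans ?_ (le_iSup₂_of_le (dbl b z K) hp le_rfl)
  rw [← (dbl_tendsto b z hK (hne.mono interior_subset) hfin).limsup_eq]
  refine le_of_eq (congrArg (fun f => limsup f atTop) (funext fun r => ?_))
  unfold dens dbl
  rw [← ENNReal.add_div,
    ENNReal.summable.tsum_union_disjoint (f := fun C : Set E => volume (C ∩ closedBall 0 r)) hd
      ENNReal.summable]

theorem strip {P Q v Z : E} (hv : v ≠ 0) (h : w Z v ∈ uIcc (w P v) (w Q v)) :
    ∃ s t : ℝ, ∃ k : ℤ, 0 ≤ s ∧ s ≤ 1 ∧ 0 ≤ t ∧ t ≤ 1 ∧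
      Z = P + s • (Q - P) + t • v + (k : ℝ) • v := by
  obtain ⟨s, hs, e⟩ : ∃ s ∈ Icc (0 : ℝ) 1, w P v + s * (w Q v - w P v) = w Z v := by
    rw [← segment_eq_uIcc, segment_eq_image'] at h
    exact h
  have hJ : w (!₂[v 1, -v 0] : E) v ≠ 0 := by
    intro k
    apply hv
    simp [w] at k
    ext i
    fin_cases i <;> simp <;> nlinarith [sq_nonneg (v 0), sq_nonneg (v 1)]
  have d := decomp hJ (Z - (P + s • (Q - P)))
  have e2 : w (Z - (P + s • (Q - P))) v = 0 := by
    rw [w_sub_left, w_add_left, w_smul_left, w_sub_left, e, sub_self]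
  rw [e2, zero_div, zero_smul, zero_add] at d
  set τ := w (!₂[v 1, -v 0] : E) (Z - (P + s • (Q - P))) / w (!₂[v 1, -v 0] : E) v
  refine ⟨s, Int.fract τ, ⌊τ⌋, hs.1, hs.2, Int.fract_nonneg _, (Int.fract_lt_one _).le, ?_⟩
  rw [add_assoc, ← add_smul, Int.fract_add_floor, ← d]
  abel

theorem tri_mem {K : Set E} (hK : Convex ℝ K) {P Q T : E} (hP : P ∈ K) (hQ : Q ∈ K) (hT : T ∈ K)
    {s t : ℝ} (hs : 0 ≤ s) (ht : 0 ≤ t) (h : s + t ≤ 1) : P + s • (Q - P) + t • (T - P) ∈ K := by
  have := hK.sum_mem (t := Finset.univ) (w := ![1 - s - t, s, t]) (z := ![P, Q, T])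
    (fun i _ => by fin_cases i <;> simp <;> linarith) (by simp [Fin.sum_univ_three]; ring)
    (fun i _ => by fin_cases i <;> simpa)
  convert this using 1
  simp [Fin.sum_univ_three]
  module

theorem par_mem {K : Set E} (hK : Convex ℝ K) {P u v : E} (h1 : P ∈ K) (h2 : P + u ∈ K)
    (h3 : P + v ∈ K) (h4 : P + u + v ∈ K) {s t : ℝ} (s0 : 0 ≤ s) (s1 : s ≤ 1) (t0 : 0 ≤ t)
    (t1 : t ≤ 1) : P + s • u + t • v ∈ K := by
  have := hK.add_smul_sub_mem (hK.add_smul_sub_mem h1 h2 ⟨s0, s1⟩)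
    (hK.add_smul_sub_mem h3 h4 ⟨s0, s1⟩) ⟨t0, t1⟩
  convert this using 1
  module

theorem cover_dbl {K : Set E} (hK : Convex ℝ K) {A u v F d : E} (h1 : A ∈ K) (h2 : A + u ∈ K)
    (h3 : A + v ∈ K) (h4 : A + u + v ∈ K) (h5 : F ∈ K) (h6 : F + d ∈ K) (hw : 0 < w (u + d) v)
    (b : Basis (Fin 2) ℝ E) (b0 : b 0 = u + d) (b1 : b 1 = v) :
    ⋃₀ dbl b (A + u + (F + d)) K = univ := by
  have hv : v ≠ 0 := by
    rintro rfl
    rw [w_zero_right] at hw
    exact lt_irrefl _ hw
  rw [eq_univ_iff_forall]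
  intro Z0
  have fin1 : ∀ (i j : ℤ) (P : E), P ∈ K → Z0 = (i : ℝ) • (u + d) + (j : ℝ) • v + P →
      Z0 ∈ ⋃₀ dbl b (A + u + (F + d)) K := by
    intro i j P hP e
    exact ⟨_, Or.inl ⟨⟨_, (mem_lat b _).2 ⟨i, j, rfl⟩⟩, rfl⟩, P, hP, by simp only [e, b0, b1]⟩
  have fin2 : ∀ (i j : ℤ) (P : E), P ∈ K →
      Z0 = (i : ℝ) • (u + d) + (j : ℝ) • v + (A + u + (F + d) - P) →
      Z0 ∈ ⋃₀ dbl b (A + u + (F + d)) K := by
    intro i j P hP e
    exact ⟨_, Or.inr ⟨⟨_, (mem_lat b _).2 ⟨i, j, rfl⟩⟩, rfl⟩, _, ⟨P, hP, rfl⟩,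
      by simp only [e, b0, b1]⟩
  set H := w (u + d) v with hH
  set n := ⌊(w Z0 v - w A v) / H⌋ with hn
  set Z := Z0 - (n : ℝ) • (u + d) with hZ
  have eZ : Z0 = (n : ℝ) • (u + d) + Z := by rw [hZ]; abel
  have wZ : w Z v = w Z0 v - n * H := by rw [hZ, w_sub_left, w_smul_left]
  have z1 : w A v ≤ w Z v := by
    have := Int.floor_le ((w Z0 v - w A v) / H)
    rw [le_div_iff₀ hw] at this
    linarith
  have z2 : w Z v ≤ w (A + (u + d)) v := by
    have := (Int.lt_floor_add_one ((w Z0 v - w A v) / H)).le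
    rw [div_le_iff₀ hw] at this
    rw [w_add_left]
    linarith
  have cases : w Z v ∈ uIcc (w A v) (w (A + u) v) ∨ w Z v ∈ uIcc (w (A + u) v) (w (F + d) v) ∨
      w Z v ∈ uIcc (w (F + d) v) (w (F + d + u) v) ∨
      w Z v ∈ uIcc (w (F + d + u) v) (w (A + (u + d)) v) := by
    have k : w Z v ∈ uIcc (w A v) (w (A + (u + d)) v) := mem_uIcc.2 (Or.inl ⟨z1, z2⟩)
    rcases uIcc_subset_uIcc_union_uIcc (b := w (A + u) v) k with k | k
    · exact Or.inl k
    rcases uIcc_subset_uIcc_union_uIcc (b := w (F + d) v) k with k | k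
    · exact Or.inr (Or.inl k)
    rcases uIcc_subset_uIcc_union_uIcc (b := w (F + d + u) v) k with k | k
    · exact Or.inr (Or.inr (Or.inl k))
    · exact Or.inr (Or.inr (Or.inr k))
  rcases cases with k | k | k | k <;> obtain ⟨s, t, j, s0, s1, t0, t1, e⟩ := strip hv k
  · refine fin1 n j _ (par_mem hK h1 h2 h3 h4 s0 s1 t0 t1) ?_
    rw [eZ, e]; module
  · rcases le_total (s + t) 1 with q | q
    · refine fin1 n j _ (tri_mem hK h2 h6 h4 s0 t0 q) ?_
      rw [eZ, e]; module
    · refine fin2 n (j + 1) _ (tri_mem hK h2 h6 h4 (s := 1 - s) (t := 1 - t) (by linarith)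
        (by linarith) (by linarith)) ?_
      rw [eZ, e]; push_cast; module
  · refine fin2 n (j + 1) _ (par_mem hK h1 h2 h3 h4 (s := 1 - s) (t := 1 - t) (by linarith)
      (by linarith) (by linarith) (by linarith)) ?_
    rw [eZ, e]; push_cast; module
  · rcases le_total (1 - s + t) 1 with q | q
    · refine fin1 (n + 1) j _ (tri_mem hK h1 h5 h3 (s := 1 - s) (by linarith) t0 q) ?_
      rw [eZ, e]; push_cast; module
    · refine fin2 n (j + 1) _ (tri_mem hK h1 h5 h3 (s := s) (t := 1 - t) s0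
        (by linarith) (by linarith)) ?_
      rw [eZ, e]; push_cast; module

theorem chord_shift {K : Set E} (hK : Convex ℝ K) {Z x g : E} {s : ℝ} (hZ : Z ∈ interior K)
    (hs : 1 ≤ s) (hP : Z + s • x ∈ K) :
    ∃ t Q, 0 < t ∧ Q ∈ K ∧ Q + x ∈ K ∧ w x (Q - Z) = t * w x g := by
  have near : ∀ y : E, ∀ᶠ ε in 𝓝[>] (0 : ℝ), Z + ε • y ∈ K := by
    intro y
    have hc : Tendsto (fun ε : ℝ => Z + ε • y) (𝓝 0) (𝓝 (Z + (0 : ℝ) • y)) :=
      Continuous.tendsto (by fun_prop) 0
    rw [zero_smul, add_zero] at hc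
    exact (hc.eventually (mem_interior_iff_mem_nhds.1 hZ)).filter_mono nhdsWithin_le_nhds
  obtain ⟨ε, ⟨h1, h2⟩, h0⟩ := (((near (-x)).and (near g)).and self_mem_nhdsWithin).exists
  have h0' : 0 < ε := h0
  have q0 : 0 ≤ ε / (s + ε) := by positivity
  have q1 : ε / (s + ε) ≤ 1 := (div_le_one (by positivity)).2 (by linarith)
  have k1 := hK.add_smul_sub_mem h1 h2 ⟨q0, q1⟩
  have k2 := hK.add_smul_sub_mem hP h2 ⟨q0, q1⟩
  have k3 := hK.add_smul_sub_mem k1 k2 (t := 1 / s) ⟨by positivity, (div_le_one (by positivity)).2 hs⟩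
  refine ⟨ε / (s + ε) * ε, _, by positivity, k1, ?_, by simp [w]; ring⟩
  convert k3 using 1
  have : s ≠ 0 := by positivity
  have : s + ε ≠ 0 := by positivity
  match_scalars <;> field_simp <;> ring

theorem int_move {K : Set E} {Z : E} (hZ : Z ∈ interior K) (y : E) :
    ∃ ε : ℝ, 0 < ε ∧ Z + ε • y ∈ K := by
  have hc : Tendsto (fun ε : ℝ => Z + ε • y) (𝓝 0) (𝓝 (Z + (0 : ℝ) • y)) :=
    Continuous.tendsto (by fun_prop) 0
  rw [zero_smul, add_zero] at hc
  obtain ⟨ε, h1, h0⟩ := (((hc.eventually (mem_interior_iff_mem_nhds.1 hZ)).filter_mono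
    (nhdsWithin_le_nhds (s := Ioi 0))).and self_mem_nhdsWithin).exists
  exact ⟨ε, h0, h1⟩

theorem pack_dbl {K : Set E} {N : Seminorm ℝ E} (hK : Convex ℝ K)
    (hN : ∀ z, N z ≤ 1 ↔ ∃ P ∈ K, P + (2 : ℝ) • z ∈ K) {x A v : E} (hx : N x = 1) (h1 : A ∈ K)
    (h2 : A + x ∈ K) (h3 : A + v ∈ K) (h4 : A + x + v ∈ K) (hw : 0 < w x v)
    (hex : ∀ P ∈ K, P + x ∈ K → 0 ≤ w x (P - A) ∧ w x (P - A) ≤ w x v)
    (b : Basis (Fin 2) ℝ E) (b0 : b 0 = (2 : ℝ) • x) (b1 : b 1 = (2 : ℝ) • v) :
    (∀ l ∈ Lat b, ∀ P ∈ interior K, ∀ Q ∈ interior K, P - Q = l → l = 0) ∧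
    (∀ l ∈ Lat b, ∀ P ∈ interior K, ∀ Q ∈ interior K, P + Q ≠ (2 : ℝ) • A + l) := by
  obtain ⟨F, hF, hC⟩ := (hN x).1 hx.le
  have hF1 : F + x ∈ K := by
    convert hK.add_smul_sub_mem hF hC (t := 1 / 2) ⟨by norm_num, by norm_num⟩ using 1; module
  obtain ⟨f0, f1⟩ := hex F hF hF1
  have ht : ∀ Z ∈ K, 0 ≤ w x (Z - A) + w x (F - A) ∧ w x (Z - A) + w x (F - A) ≤ 2 * w x v := by
    intro Z hZ
    have k := hex _ (hK.add_smul_sub_mem hZ hF (t := 1 / 2) ⟨by norm_num, by norm_num⟩) (by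
      convert hK.add_smul_sub_mem hZ hC (t := 1 / 2) ⟨by norm_num, by norm_num⟩ using 1; module)
    have e : w x (Z + (1 / 2 : ℝ) • (F - Z) - A) = (w x (Z - A) + w x (F - A)) / 2 := by
      simp [w]; ring
    rw [e] at k
    constructor <;> linarith [k.1, k.2]
  have hts : ∀ Z ∈ interior K,
      0 < w x (Z - A) + w x (F - A) ∧ w x (Z - A) + w x (F - A) < 2 * w x v := by
    intro Z hZ
    obtain ⟨ε, e0, e1⟩ := int_move hZ v
    obtain ⟨ε', e2, e3⟩ := int_move hZ (-v)
    have k1 := (ht _ e1).2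
    have k2 := (ht _ e3).1
    have a1 : w x (Z + ε • v - A) = w x (Z - A) + ε * w x v := by simp [w]; ring
    have a2 : w x (Z + ε' • -v - A) = w x (Z - A) - ε' * w x v := by simp [w]; ring
    rw [a1] at k1
    rw [a2] at k2
    constructor <;> nlinarith
  constructor
  · intro l hl P hP Q hQ e
    obtain ⟨i, j, rfl⟩ := (mem_lat b l).1 hl
    rw [b0, b1] at e ⊢
    have k1 := hts P hP
    have k2 := hts Q hQ
    have a1 : w x (P - A) - w x (Q - A) = 2 * j * w x v := by
      rw [← w_sub_right, sub_sub_sub_cancel_right, e]; simp [w]; ring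
    have j0 : j = 0 := by
      have c1 : (j : ℝ) < 1 := by by_contra hn; push Not at hn; nlinarith
      have c2 : (-1 : ℝ) < j := by by_contra hn; push Not at hn; nlinarith
      have c3 : j < 1 := by exact_mod_cast c1
      have c4 : -1 < j := by exact_mod_cast c2
      omega
    subst j0
    have i0 : i = 0 := by
      obtain ⟨ε, e0, e1⟩ := int_move hP ((i : ℝ) • x)
      have k := (hN (((1 + ε / 2) * i) • x)).2 ⟨Q, interior_subset hQ, by
        convert e1 using 1
        have : P = Q + ((i : ℝ) • (2 : ℝ) • x + ((0 : ℤ) : ℝ) • (2 : ℝ) • v) := by rw [← e]; abel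
        rw [this]; push_cast; module⟩
      rw [map_smul_eq_mul, hx, mul_one, Real.norm_eq_abs, abs_mul,
        abs_of_pos (by linarith)] at k
      by_contra hn
      have : (1 : ℝ) ≤ |(i : ℝ)| := by exact_mod_cast Int.one_le_abs hn
      nlinarith
    simp [i0]
  · intro l hl P hP Q hQ e
    obtain ⟨i, j, rfl⟩ := (mem_lat b l).1 hl
    rw [b0, b1] at e
    have hZ : A + (i : ℝ) • x + (j : ℝ) • v ∈ interior K := by
      have := hK.interior.add_smul_sub_mem hP hQ (t := 1 / 2) ⟨by norm_num, by norm_num⟩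
      convert this using 1
      have : Q = (2 : ℝ) • A + ((i : ℝ) • (2 : ℝ) • x + (j : ℝ) • (2 : ℝ) • v) - P := by
        rw [← e]; abel
      rw [this]; module
    have k := hts _ hZ
    have a1 : w x (A + (i : ℝ) • x + (j : ℝ) • v - A) = j * w x v := by simp [w]; ring
    rw [a1] at k
    have c1 : (j : ℝ) < 2 := by by_contra hn; push Not at hn; nlinarith [k.2]
    have c2 : (-1 : ℝ) < j := by by_contra hn; push Not at hn; nlinarith [k.1]
    have c3 : j < 2 := by exact_mod_cast c1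
    have c4 : -1 < j := by exact_mod_cast c2
    have row : ∀ (A' g : E), A' ∈ K → A' + x ∈ K → A' + (i : ℝ) • x ∈ interior K →
        ∃ t Q, 0 < t ∧ Q ∈ K ∧ Q + x ∈ K ∧ w x (Q - A') = t * w x g := by
      intro A' g m1 m2 m3
      rcases le_or_gt i 0 with hi | hi
      · have hi' : (i : ℝ) ≤ 0 := by exact_mod_cast hi
        obtain ⟨t, Q, t0, q1, q2, q3⟩ := chord_shift hK (x := x) (g := g) (s := 1 - i) m3
          (by linarith) (by convert m2 using 1; module)
        refine ⟨t, Q, t0, q1, q2, ?_⟩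
        rw [← q3]; simp [w]; ring
      · have hi' : (1 : ℝ) ≤ i := by exact_mod_cast hi
        obtain ⟨t, Q, t0, q1, q2, q3⟩ := chord_shift hK (x := -x) (g := g) (s := i) m3 hi'
          (by convert m1 using 1; module)
        refine ⟨t, Q + -x, t0, q2, by simpa using q1, ?_⟩
        rw [w_neg_left, w_neg_left, mul_neg, neg_inj] at q3
        rw [← q3]; simp [w]; ring
    obtain rfl | rfl : j = 0 ∨ j = 1 := by omega
    · obtain ⟨t, Q, t0, q1, q2, q3⟩ := row A (-v) h1 h2 (by simpa using hZ)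
      have := (hex Q q1 q2).1
      rw [q3, w_neg_right] at this
      nlinarith
    · obtain ⟨t, Q, t0, q1, q2, q3⟩ := row (A + v) v h3 (by convert h4 using 1; abel)
        (by convert hZ using 1; push_cast; module)
      have := (hex Q q1 q2).2
      have a2 : w x (Q - A) = w x (Q - (A + v)) + w x v := by simp [w]; ring
      rw [a2, q3] at this
      nlinarith

end Pool.Agent.Lib.MP_da2c1b_co
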