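import Mathlib

namespace Pool.Agent.Lib.MP_da2c1b_co

open MeasureTheory Set Filter Metric

/-- The Euclidean plane. -/
abbrev E := EuclideanSpace ℝ (Fin 2)

/-- Every member of `F` is the image of `K` under an isometry of the plane. -/
def Copies (K : Set E) (F : Set (Set E)) : Prop := ∀ C ∈ F, ∃ φ : E ≃ᵢ E, C = φ '' K

/-- Packing with congruent copies of `K`. -/
def IsPacking (K : Set E) (F : Set (Set E)) : Prop :=
  Copies K F ∧ F.Pairwise (fun C D => Disjoint (interior C) (interior D))

/-- Covering with congruent copies of `K`. -/
def IsCovering (K : Set E) (F : Set (Set E)) : Prop :=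
  Copies K F ∧ ⋃₀ F = univ

/-- Total area of the members of `F` inside the disc of radius `r`, over the area of the disc. -/
noncomputable def dens (F : Set (Set E)) (r : ℝ) : ENNReal :=
  (∑' C : F, volume ((C : Set E) ∩ closedBall 0 r)) / volume (closedBall (0 : E) r)

/-- Packing density: supremum of the upper densities of packings. -/
noncomputable def pd (K : Set E) : ENNReal :=
  ⨆ (F : Set (Set E)) (_ : IsPacking K F), limsup (dens F) atTop

/-- Covering density: infimum of the lower densities of coverings. -/
noncomputable def cd (K : Set E) : ENNReal :=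
  ⨅ (F : Set (Set E)) (_ : IsCovering K F), liminf (dens F) atTop

end Pool.Agent.Lib.MP_da2c1b_co
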