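import Pool.Agent.Lib.MP_da2c1b_co.Nondeg

namespace Pool.Agent.Lib.MP_da2c1b_co

open Set Filter Metric
open scoped Topology

variable {K : Set E} {N : Seminorm ℝ E} {m R L M : ℝ}

theorem sum_bd {C ε d η a1 a2 e1 e2 : ℝ} (h1 : |d| ≤ ε) (h2 : |η| ≤ ε) (b1 : |a1| ≤ C)
    (b2 : |a2| ≤ C) (b3 : |e1| ≤ C) (b4 : |e2| ≤ C) :
    3 * (d * (e2 - a2) - η * (e1 - a1)) ≤ 12 * C * ε := by
  have k1 : |d * (e2 - a2)| ≤ ε * (C + C) := by
    rw [abs_mul]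
    exact mul_le_mul h1 ((abs_sub _ _).trans (add_le_add b4 b2)) (abs_nonneg _)
      ((abs_nonneg _).trans h1)
  have k2 : |η * (e1 - a1)| ≤ ε * (C + C) := by
    rw [abs_mul]
    exact mul_le_mul h2 ((abs_sub _ _).trans (add_le_add b3 b1)) (abs_nonneg _)
      ((abs_nonneg _).trans h1)
  linarith [(abs_le.1 k1).2, (abs_le.1 k2).1]

theorem div_bd {σ X Y : ℝ} (h0 : 0 < σ) (h : |σ * X| ≤ Y) : |X| ≤ Y / σ := by
  rw [le_div_iff₀ h0, mul_comm]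
  rwa [abs_mul, abs_of_pos h0] at h

theorem le_mul_of_le_one_left' {d s : ℝ} (d0 : d ≤ 0) (s1 : s ≤ 1) : d ≤ s * d := by nlinarith

theorem real_est {a b C : ℝ} (ha : |a| ≤ 3 / 2) (hb : |b| < 1 / 2) (hC : 0 ≤ C) :
    ∃ Q, 0 ≤ Q ∧ ∀ ε d η a1 a2 e1 e2 : ℝ, |d| ≤ ε → |η| ≤ ε → |a1| ≤ C → |a2| ≤ C → |e1| ≤ C →
      |e2| ≤ C → d ≤ 0 →
      0 ≤ (a + 3 / 2) * a2 + (1 / 2 - b) * a1 →
      0 ≤ (3 / 2 - a) * (a2 + η) - (1 / 2 - b) * (a1 + d) →
      0 ≤ (a - 3 / 2) * (e2 + η) - (1 / 2 + b) * (e1 + d) →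
      0 ≤ -(a + 3 / 2) * e2 + (1 / 2 + b) * e1 →
      (1 + d) * (1 + e2 - a2) - η * (e1 - a1) = 1 →
      |d| ≤ Q * ε ^ 2 ∧ |a1 - (9 / 4 - a ^ 2) / (3 * (1 / 2 - b)) * η| ≤ Q * ε ^ 2 ∧
        |a2 + (3 / 2 - a) / 3 * η| ≤ Q * ε ^ 2 ∧
        |e1 + (9 / 4 - a ^ 2) / (3 * (1 / 2 + b)) * η| ≤ Q * ε ^ 2 ∧
        |e2 + (3 / 2 - a) / 3 * η| ≤ Q * ε ^ 2 := by
  obtain ⟨ha1, ha2⟩ := abs_le.1 ha
  obtain ⟨hb1, hb2⟩ := abs_lt.1 hb
  set σ := 1 / 2 - b with hσ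
  set τ := 1 / 2 + b with hτ
  have σ0 : 0 < σ := by linarith
  have τ0 : 0 < τ := by linarith
  have σ1 : σ ≤ 1 := by linarith
  have τ1 : τ ≤ 1 := by linarith
  set c := 1 / σ + 1 / τ with hc
  have c1 : 1 ≤ 1 / σ := by rw [le_div_iff₀ σ0]; linarith
  have c2 : 1 ≤ 1 / τ := by rw [le_div_iff₀ τ0]; linarith
  have dv : ∀ {Y : ℝ}, 0 ≤ Y → Y / σ ≤ c * Y ∧ Y / τ ≤ c * Y ∧ Y ≤ c * Y := by
    intro Y hY
    refine ⟨?_, ?_, by nlinarith⟩
    · rw [div_eq_mul_one_div]; nlinarith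
    · rw [div_eq_mul_one_div]; nlinarith
  set C1 := c * (24 * C + 6) with hC1
  have c0 : 0 ≤ c := by linarith
  have C10 : 0 ≤ C1 := by positivity
  refine ⟨c * (30 * C1), by positivity, ?_⟩
  intro ε d η a1 a2 e1 e2 h1 h2 b1 b2 b3 b4 d0 iA iB iD iE ar
  have ε0 : 0 ≤ ε := (abs_nonneg _).trans h1
  set IA := (a + 3 / 2) * a2 + σ * a1 with hIA
  set IB := (3 / 2 - a) * (a2 + η) - σ * (a1 + d) with hIB
  set ID := (a - 3 / 2) * (e2 + η) - τ * (e1 + d) with hID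
  set IE := -(a + 3 / 2) * e2 + τ * e1 with hIE
  have hs : IA + IB + ID + IE = 2 * d + 3 * (d * (e2 - a2) - η * (e1 - a1)) := by
    rw [hIA, hIB, hID, hIE, hσ, hτ]; linear_combination (-3) * ar
  have fa2 : 3 * a2 = IA + IB - (3 / 2 - a) * η + σ * d := by rw [hIA, hIB]; ring
  have fe2 : 3 * e2 = -(ID + IE) - (3 / 2 - a) * η - τ * d := by rw [hID, hIE]; ring
  obtain ⟨d1, -⟩ := abs_le.1 h1
  obtain ⟨η1, η2⟩ := abs_le.1 h2
  have p1 : |(3 / 2 - a) * η| ≤ 3 * ε := by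
    rw [abs_mul, abs_of_nonneg (by linarith : 0 ≤ 3 / 2 - a)]
    exact mul_le_mul (by linarith) h2 (abs_nonneg _) (by norm_num)
  obtain ⟨p11, p12⟩ := abs_le.1 p1
  have p0 : ∀ {s : ℝ}, 0 < s → s ≤ 1 → d ≤ s * d ∧ s * d ≤ 0 := fun s0 s1 =>
    ⟨le_mul_of_le_one_left' d0 s1, mul_nonpos_of_nonneg_of_nonpos s0.le d0⟩
  obtain ⟨p2, p3⟩ := p0 σ0 σ1
  obtain ⟨p4, p5⟩ := p0 τ0 τ1
  have s1 := sum_bd h1 h2 b1 b2 b3 b4
  have Cε : 0 ≤ C * ε := by positivity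
  have q2 : |a2| ≤ (4 * C + 2) * ε := abs_le.2 ⟨by linarith, by linarith⟩
  have q4 : |e2| ≤ (4 * C + 2) * ε := abs_le.2 ⟨by linarith, by linarith⟩
  have mul3 : ∀ {X Y : ℝ}, |X| ≤ Y → |(a + 3 / 2) * X| ≤ 3 * Y := by
    intro X Y hX
    rw [abs_mul, abs_of_nonneg (by linarith : 0 ≤ a + 3 / 2)]
    exact mul_le_mul (by linarith) hX (abs_nonneg _) (by norm_num)
  have q1 : |a1| ≤ C1 * ε := by
    have := abs_le.1 (mul3 q2)
    have k := div_bd (X := a1) (Y := (24 * C + 6) * ε) σ0 (abs_le.2 ⟨by linarith, by linarith⟩)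
    refine k.trans ((dv (by positivity)).1.trans (le_of_eq (by rw [hC1]; ring)))
  have q3 : |e1| ≤ C1 * ε := by
    have := abs_le.1 (mul3 q4)
    have k := div_bd (X := e1) (Y := (24 * C + 6) * ε) τ0 (abs_le.2 ⟨by linarith, by linarith⟩)
    refine k.trans ((dv (by positivity)).2.1.trans (le_of_eq (by rw [hC1]; ring)))
  have q0 : (4 * C + 2) * ε ≤ C1 * ε := by
    have := (dv (Y := 24 * C + 6) (by positivity)).2.2
    apply mul_le_mul_of_nonneg_right _ ε0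
    linarith
  have s2 := sum_bd h1 h2 q1 (q2.trans q0) q3 (q4.trans q0)
  set T := C1 * ε ^ 2 with hT
  have T0 : 0 ≤ T := by positivity
  have s3 : 3 * (d * (e2 - a2) - η * (e1 - a1)) ≤ 12 * T := by rw [hT]; linarith
  have d2 : -(6 * T) ≤ d := by linarith
  have r2 : |a2 + (3 / 2 - a) / 3 * η| ≤ 6 * T := abs_le.2 ⟨by linarith, by linarith⟩
  have r4 : |e2 + (3 / 2 - a) / 3 * η| ≤ 6 * T := abs_le.2 ⟨by linarith, by linarith⟩
  have eQ : c * (30 * C1) * ε ^ 2 = c * (30 * T) := by rw [hT]; ring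
  have dT := dv (Y := 30 * T) (by positivity)
  rw [eQ]
  refine ⟨abs_le.2 ⟨by linarith, by linarith⟩, ?_, by linarith, ?_, by linarith⟩
  · refine le_trans (div_bd σ0 ?_) dT.1
    have := abs_le.1 (mul3 r2)
    have e : σ * (a1 - (9 / 4 - a ^ 2) / (3 * σ) * η) =
        IA - (a + 3 / 2) * (a2 + (3 / 2 - a) / 3 * η) := by
      rw [hIA]; field_simp; ring
    rw [e]
    exact abs_le.2 ⟨by linarith, by linarith⟩
  · refine le_trans (div_bd τ0 ?_) dT.2.1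
    have := abs_le.1 (mul3 r4)
    have e : τ * (e1 + (9 / 4 - a ^ 2) / (3 * τ) * η) =
        IE + (a + 3 / 2) * (e2 + (3 / 2 - a) / 3 * η) := by
      rw [hIE]; field_simp; ring
    rw [e]
    exact abs_le.2 ⟨by linarith, by linarith⟩

/-- Velocity of the vertex `A`. -/
noncomputable def velA (x v : E) (a b : ℝ) : E :=
  ((9 / 4 - a ^ 2) / (3 * (1 / 2 - b))) • x + (-((3 / 2 - a) / 3)) • v

/-- Curvature factor. -/
noncomputable def kap (a b : ℝ) : ℝ := (9 / 4 - a ^ 2) / (9 * (1 / 4 - b ^ 2))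

theorem kap_eq (a : ℝ) {b : ℝ} (hb : |b| < 1 / 2) :
    3 * kap a b = (9 / 4 - a ^ 2) / (3 * (1 / 2 - b)) + (9 / 4 - a ^ 2) / (3 * (1 / 2 + b)) := by
  obtain ⟨hb1, hb2⟩ := abs_lt.1 hb
  have n1 : 1 / 2 - b ≠ 0 := by linarith
  have n2 : 1 / 2 + b ≠ 0 := by linarith
  have e : 1 / 4 - b ^ 2 = (1 / 2 - b) * (1 / 2 + b) := by ring
  rw [kap, e, div_add_div _ _ (mul_ne_zero (by norm_num) n1) (mul_ne_zero (by norm_num) n2),
    mul_div_assoc', div_eq_div_iff (mul_ne_zero (by norm_num) (mul_ne_zero n1 n2))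
      (mul_ne_zero (mul_ne_zero (by norm_num) n1) (mul_ne_zero (by norm_num) n2))]
  ring

theorem Ext.est (h : Ext K N m R L M) {x A v : E} {a b : ℝ} (c : Cfg K N m x A v)
    (u : Mul K m x A v a b) : ∃ Q, 0 ≤ Q ∧ ∀ x' A' v', Cfg K N m x' A' v' →
      ‖x' - x - (w x x' / m) • v‖ ≤ Q * ‖x' - x‖ ^ 2 ∧
      ‖A' - A - (w x x' / m) • velA x v a b‖ ≤ Q * ‖x' - x‖ ^ 2 ∧
      ‖v' - v - (w x x' / m) • (-(3 * kap a b)) • x‖ ≤ Q * ‖x' - x‖ ^ 2 := by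
  have hm := h.mpos
  have hM := h.M_nonneg
  have hb := h.b_abs_lt c u
  obtain ⟨Q, Q0, hQ⟩ := real_est (C := 8 * M ^ 2 / m) (h.mul_bd c u).1 hb (by positivity)
  obtain ⟨hb1, hb2⟩ := abs_lt.1 hb
  refine ⟨8 * M * (Q * (4 * M / m) ^ 2), by positivity, fun x' A' v' c' => ?_⟩
  obtain ⟨d, η, a1, a2, e1, e2, fx, fA, fE, b1, b2, b3, b4, b5, b6, d0, iA, iB, iD, iE, ar⟩ :=
    h.coords c u c'
  obtain ⟨r1, r2, r3, r4, r5⟩ := hQ _ d η a1 a2 e1 e2 b1 b2 b3 b4 b5 b6 d0 iA iB iD iE ar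
  set T := Q * (4 * M / m * ‖x' - x‖) ^ 2 with hT
  have eT : 8 * M * (Q * (4 * M / m) ^ 2) * ‖x' - x‖ ^ 2 = 8 * M * T := by rw [hT]; ring
  have T0 : 0 ≤ T := by positivity
  have eη : w x x' / m = η := by
    rw [div_eq_iff hm.ne', fx, ← c.hw]; simp [w]; ring
  have nb : ∀ s t : ℝ, |s| ≤ 2 * T → |t| ≤ 2 * T → ‖s • x + t • v‖ ≤ 8 * M * T := by
    intro s t hs ht
    refine (norm_add_le _ _).trans ?_
    rw [norm_smul, norm_smul, Real.norm_eq_abs, Real.norm_eq_abs]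
    have k1 := mul_le_mul hs (h.x_le c) (norm_nonneg _) (by positivity)
    have k2 := mul_le_mul ht (h.v_le c) (norm_nonneg _) (by positivity)
    linarith
  rw [eT, eη]
  refine ⟨?_, ?_, ?_⟩
  · convert nb d 0 (by linarith) (by simpa using T0) using 2
    rw [fx]; module
  · convert nb _ _ (r2.trans (by linarith)) (r3.trans (by linarith)) using 2
    rw [fA, velA]; module
  · have k1 := abs_le.1 r2
    have k2 := abs_le.1 r3
    have k3 := abs_le.1 r4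
    have k4 := abs_le.1 r5
    have ek := kap_eq a hb
    convert nb (e1 - a1 + 3 * kap a b * η) (e2 - a2) (by
      rw [ek]; exact abs_le.2 ⟨by linarith, by linarith⟩)
      (abs_le.2 ⟨by linarith, by linarith⟩) using 2
    have : v' = (A' + v') - A' := by abel
    rw [this, fE, fA]; module

theorem Ext.unique (h : Ext K N m R L M) {x A v A' v' : E} (c : Cfg K N m x A v)
    (c' : Cfg K N m x A' v') : A' = A ∧ v' = v := by
  obtain ⟨a, b, u⟩ := h.mul_ex c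
  obtain ⟨Q, -, hQ⟩ := h.est c u
  obtain ⟨-, h1, h2⟩ := hQ x A' v' c'
  simp only [w_self, zero_div, zero_smul, sub_zero, sub_self, norm_zero, ne_eq, OfNat.ofNat_ne_zero,
    not_false_eq_true, zero_pow, mul_zero, norm_le_zero_iff, sub_eq_zero] at h1 h2
  exact ⟨h1, h2⟩

theorem Ext.a_lt (h : Ext K N m R L M) {x A v : E} {a b : ℝ} (c : Cfg K N m x A v)
    (u : Mul K m x A v a b) : a < 3 / 2 := by
  have hm := h.mpos
  refine lt_of_le_of_ne (abs_le.1 (h.mul_bd c u).1).2 ?_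
  rintro rfl
  have hb := h.b_lt c u
  have hX : ∀ P ∈ K, w (P - A) v ≤ m := by
    intro P hP
    have := u.tB P hP
    by_contra hn
    push Not at hn
    nlinarith
  obtain ⟨r0, r1, r2⟩ := h.Nv_ge c
  set r := (N v)⁻¹
  obtain ⟨A', v', c'⟩ := h.cfg_ex r2
  have mem : ∀ s : ℝ, 0 ≤ s → s ≤ 1 → A + x + s • v ∈ K := by
    intro s s0 s1
    convert h.seg c.hB c.hD s0 s1 using 1
    module
  have cf : ∀ s : ℝ, 0 ≤ s → s + r ≤ 1 →
      Cfg K N m (r • v) (A + x + s • v) (A' + v' - (A + x + s • v)) := by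
    intro s s0 s1
    have m1 := mem s s0 (by linarith)
    have m2 : A + x + s • v + r • v ∈ K := by
      convert mem (s + r) (by linarith) s1 using 1; module
    have m3 : A' + v' + r • v ∈ K := by convert c'.hD using 1; abel
    refine ⟨r2, m1, m2, by simpa using c'.hE, by convert c'.hD using 1; abel, ?_⟩
    refine le_antisymm (h.le _ _ _ r2 m1 m2 c'.hE m3) ?_
    have e : w (r • v) (A' + v' - (A + x + s • v)) =
        w (r • v) v' + r * (w x v - w (A' - A) v) := by simp [w]; ring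
    rw [e, c'.hw, c.hw]
    have := hX _ c'.hA
    nlinarith
  have k := (h.unique (cf 0 le_rfl (by linarith)) (cf (1 - r) (by linarith) (by linarith))).1
  have k2 := congrArg (fun p => w x (p - A)) k
  have e1 : w x (A + x + (1 - r) • v - A) = (1 - r) * w x v := by simp [w]; ring
  have e2 : w x (A + x + (0 : ℝ) • v - A) = 0 := by simp [w]; ring
  simp only [e1, e2, c.hw] at k2
  rcases mul_eq_zero.1 k2 with k3 | k3 <;> linarith

theorem Ext.a_abs_lt (h : Ext K N m R L M) {x A v : E} {a b : ℝ} (c : Cfg K N m x A v)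
    (u : Mul K m x A v a b) : |a| < 3 / 2 := by
  have h1 := h.a_lt c u
  have h2 := h.a_lt c.neg (u.neg c)
  exact abs_lt.2 ⟨by linarith, h1⟩

end Pool.Agent.Lib.MP_da2c1b_co
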