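import Pool.Agent.Lib.MP_da2c1b_co.Geom

namespace Pool.Agent.Lib.MP_da2c1b_co

open Set Filter Metric
open scoped Topology

/-- The extremal conditions on a convex body `K` with difference-body norm `N`. -/
structure Ext (K : Set E) (N : Seminorm ℝ E) (m R L M : ℝ) : Prop where
  conv : Convex ℝ K
  closed : IsClosed K
  bdd : ∀ P ∈ K, ‖P‖ ≤ M
  int : (interior K).Nonempty
  hR : ∀ x, ‖x‖ ≤ R * N x
  hL : ∀ x, N x ≤ L * ‖x‖
  hN : ∀ z, N z ≤ 1 ↔ ∃ P ∈ K, P + (2 : ℝ) • z ∈ K
  mpos : 0 < m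
  hex : ∀ A u v z, A ∈ K → A + u ∈ K → A + v ∈ K → A + u + v ∈ K → N z ≤ 1 →
    w (u + (2 : ℝ) • z) v ≤ 3 * m
  le : ∀ x A B, N x = 1 → A ∈ K → A + x ∈ K → B ∈ K → B + x ∈ K → w x (B - A) ≤ m
  ex : ∀ x, N x = 1 → ∃ A B, A ∈ K ∧ A + x ∈ K ∧ B ∈ K ∧ B + x ∈ K ∧ w x (B - A) = m

/-- A half-length parallelogram with vertices `A, A + x, A + x + v, A + v`. -/
structure Cfg (K : Set E) (N : Seminorm ℝ E) (m : ℝ) (x A v : E) : Prop where
  hx : N x = 1
  hA : A ∈ K
  hB : A + x ∈ K
  hE : A + v ∈ K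
  hD : A + x + v ∈ K
  hw : w x v = m

/-- Lagrange multipliers at a half-length parallelogram. -/
structure Mul (K : Set E) (m : ℝ) (x A v : E) (a b : ℝ) : Prop where
  tA : ∀ P ∈ K, 0 ≤ (a + 3 / 2) * w x (P - A) + (1 / 2 - b) * w (P - A) v
  tB : ∀ P ∈ K, 0 ≤ (3 / 2 - a) * w x (P - A) - (1 / 2 - b) * (w (P - A) v - m)
  tD : ∀ P ∈ K, 0 ≤ (a - 3 / 2) * (w x (P - A) - m) - (1 / 2 + b) * (w (P - A) v - m)
  tE : ∀ P ∈ K, 0 ≤ -(a + 3 / 2) * (w x (P - A) - m) + (1 / 2 + b) * w (P - A) v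

theorem w_add_left (p q r : E) : w (p + q) r = w p r + w q r := by simp [w]; ring
theorem w_add_right (p q r : E) : w r (p + q) = w r p + w r q := by simp [w]; ring
theorem w_sub_left (p q r : E) : w (p - q) r = w p r - w q r := by simp [w]; ring
theorem w_sub_right (p q r : E) : w r (p - q) = w r p - w r q := by simp [w]; ring
theorem w_smul_left (s : ℝ) (p r : E) : w (s • p) r = s * w p r := by simp [w]; ring
theorem w_smul_right (s : ℝ) (p r : E) : w r (s • p) = s * w r p := by simp [w]; ring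
theorem w_neg_left (p r : E) : w (-p) r = -w p r := by simp [w]; ring
theorem w_neg_right (p r : E) : w r (-p) = -w r p := by simp [w]; ring
theorem w_self (p : E) : w p p = 0 := by simp [w]; ring
theorem w_comm (p q : E) : w p q = -w q p := by simp [w]; ring
theorem w_zero_left (p : E) : w 0 p = 0 := by simp [w]
theorem w_zero_right (p : E) : w p 0 = 0 := by simp [w]

theorem w_cont : Continuous fun p : E × E => w p.1 p.2 := by
  unfold w; fun_prop

theorem nonneg_of_small {D Q : ℝ} (h : ∀ s, 0 < s → s ≤ 1 → 0 ≤ D + s * Q) : 0 ≤ D := by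
  have hl : Tendsto (fun s : ℝ => D + s * Q) (𝓝[>] 0) (𝓝 (D + 0 * Q)) :=
    (Continuous.tendsto (by fun_prop) 0).mono_left nhdsWithin_le_nhds
  rw [zero_mul, add_zero] at hl
  refine ge_of_tendsto hl ?_
  filter_upwards [Ioc_mem_nhdsGT (by norm_num : (0 : ℝ) < 1)] with s hs using h s hs.1 hs.2

variable {K : Set E} {N : Seminorm ℝ E} {m R L M : ℝ}

theorem Ext.seg (h : Ext K N m R L M) {P Q : E} (hP : P ∈ K) (hQ : Q ∈ K) {s : ℝ} (h0 : 0 ≤ s)
    (h1 : s ≤ 1) : P + s • (Q - P) ∈ K :=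
  h.conv.add_smul_sub_mem hP hQ ⟨h0, h1⟩

theorem Ext.cfg_ex (h : Ext K N m R L M) {x : E} (hx : N x = 1) : ∃ A v, Cfg K N m x A v := by
  obtain ⟨A, B, h1, h2, h3, h4, h5⟩ := h.ex x hx
  refine ⟨A, B - A, hx, h1, h2, by simpa using h3, ?_, h5⟩
  rw [show A + x + (B - A) = B + x by abel]; exact h4

theorem Ext.supp (h : Ext K N m R L M) {x A v : E} (c : Cfg K N m x A v) {z : E}
    (hz : N z ≤ 1) : w z v ≤ m := by
  have := h.hex A x v z c.hA c.hB c.hE c.hD hz
  rw [w_add_left, w_smul_left, c.hw] at this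
  linarith

theorem Ext.first_order (h : Ext K N m R L M) {x A v : E} (c : Cfg K N m x A v)
    {A' u' v' : E} (h1 : A' ∈ K) (h2 : A' + u' ∈ K) (h3 : A' + v' ∈ K) (h4 : A' + u' + v' ∈ K) :
    w u' v + 3 * w x v' ≤ 4 * m := by
  have : 0 ≤ 4 * m - w u' v - 3 * w x v' := by
    apply nonneg_of_small (Q := -w (u' - x) (v' - v))
    intro s s0 s1
    have k := h.hex (A + s • (A' - A)) (x + s • (u' - x)) (v + s • (v' - v)) x
      (h.seg c.hA h1 s0.le s1)
      (by convert h.seg c.hB h2 s0.le s1 using 1; module)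
      (by convert h.seg c.hE h3 s0.le s1 using 1; module)
      (by convert h.seg c.hD h4 s0.le s1 using 1; module) c.hx.le
    have e : w (x + s • (u' - x) + (2 : ℝ) • x) (v + s • (v' - v)) =
        3 * w x v - s * ((4 * w x v - w u' v - 3 * w x v') + s * -w (u' - x) (v' - v)) := by
      simp [w]; ring
    rw [e, c.hw] at k
    by_contra hn
    push Not at hn
    nlinarith
  linarith

theorem Ext.mul_ex (h : Ext K N m R L M) {x A v : E} (c : Cfg K N m x A v) :
    ∃ a b, Mul K m x A v a b := by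
  have hm := h.mpos
  let Φ : E → E → E → E → ℝ := fun A' B' D' E' =>
    4 * m + (3 * w x (A' - D') + w (A' - D') v) / 2 + (3 * w x (B' - E') - w (B' - E') v) / 2
  let S : Set (E × ℝ) := {p | ∃ A' ∈ interior K, ∃ B' ∈ K, ∃ D' ∈ K, ∃ E' ∈ K,
    p.1 = A' + D' - B' - E' ∧ Φ A' B' D' E' < p.2}
  have hconv : Convex ℝ S := by
    rintro p ⟨A1, hA1, B1, hB1, D1, hD1, E1, hE1, e1, f1⟩ q ⟨A2, hA2, B2, hB2, D2, hD2, E2, hE2,
      e2, f2⟩ s t hs ht hst
    refine ⟨s • A1 + t • A2, h.conv.interior hA1 hA2 hs ht hst, s • B1 + t • B2,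
      h.conv hB1 hB2 hs ht hst, s • D1 + t • D2, h.conv hD1 hD2 hs ht hst, s • E1 + t • E2,
      h.conv hE1 hE2 hs ht hst, ?_, ?_⟩
    · simp only [Prod.fst_add, Prod.smul_fst, e1, e2]; module
    · have e : Φ (s • A1 + t • A2) (s • B1 + t • B2) (s • D1 + t • D2) (s • E1 + t • E2) =
          s * Φ A1 B1 D1 E1 + t * Φ A2 B2 D2 E2 := by
        have : t = 1 - s := by linarith
        simp only [Φ, w, this, PiLp.add_apply, PiLp.sub_apply, PiLp.smul_apply, smul_eq_mul]
        ring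
      rw [e]
      simp only [Prod.snd_add, Prod.smul_snd, smul_eq_mul]
      rcases hs.lt_or_eq with hs' | rfl
      · nlinarith [mul_le_mul_of_nonneg_left f2.le ht, mul_lt_mul_of_pos_left f1 hs']
      · have : t = 1 := by linarith
        subst this; simpa using f2
  have hopen : IsOpen S := by
    rw [isOpen_iff_mem_nhds]
    rintro p ⟨A1, hA1, B1, hB1, D1, hD1, E1, hE1, e1, f1⟩
    have o1 : IsOpen {q : E × ℝ | A1 + (q.1 - p.1) ∈ interior K} :=
      isOpen_interior.preimage (by fun_prop)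
    have o2 : IsOpen {q : E × ℝ | Φ (A1 + (q.1 - p.1)) B1 D1 E1 < q.2} := by
      apply isOpen_lt _ continuous_snd
      simp only [Φ, w]; fun_prop
    filter_upwards [(o1.inter o2).mem_nhds ⟨by simpa using hA1, by simpa using f1⟩] with q hq
    refine ⟨_, hq.1, B1, hB1, D1, hD1, E1, hE1, ?_, hq.2⟩
    rw [e1]; abel
  have h0 : (0 : E × ℝ) ∉ S := by
    rintro ⟨A1, hA1, B1, hB1, D1, hD1, E1, hE1, e1, f1⟩
    have e2 : D1 = A1 + (B1 - A1) + (E1 - A1) := by
      have : A1 + D1 - B1 - E1 = 0 := e1.symm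
      have : D1 = B1 + E1 - A1 := by rw [← sub_eq_zero, ← this]; abel
      rw [this]; abel
    have k := h.first_order c (A' := A1) (u' := B1 - A1) (v' := E1 - A1) (interior_subset hA1)
      (by simpa using hB1) (by simpa using hE1) (e2 ▸ hD1)
    have e3 : Φ A1 B1 D1 E1 = 4 * m - w (B1 - A1) v - 3 * w x (E1 - A1) := by
      rw [e2]; simp only [Φ, w, PiLp.add_apply, PiLp.sub_apply]; ring
    rw [e3] at f1
    simp only [Prod.snd_zero] at f1
    linarith
  obtain ⟨f, hf⟩ := geometric_hahn_banach_open_point hconv hopen h0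
  rw [map_zero] at hf
  have hsplit : ∀ (p : E) (t : ℝ), f (p, t) = f (p, 0) + t * f (0, 1) := by
    intro p t
    rw [← smul_eq_mul, ← map_smul, ← map_add]; simp
  obtain ⟨P0, hP0⟩ := h.int
  have hP0' := interior_subset hP0
  have hl : f (0, 1) < 0 := by
    have := hf (0, 4 * m + 1) ⟨P0, hP0, P0, hP0', P0, hP0', P0, hP0', by simp, by
      simp [Φ, w]⟩
    rw [hsplit] at this
    have e : f (0, 0) = 0 := map_zero f
    rw [e] at this
    by_contra hn
    push Not at hn
    nlinarith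
  let g : E → ℝ := fun p => f (p, 0) / f (0, 1)
  have hg : ∀ p : E, g p = g v / m * w x p + g x / m * w p v := by
    intro p
    have e := decomp (x := x) (y := v) (by rw [c.hw]; exact hm.ne') p
    have e2 : ((p, 0) : E × ℝ) = (w p v / w x v) • (x, 0) + (w x p / w x v) • (v, 0) := by
      ext1
      · simpa using e
      · simp
    simp only [g]
    rw [e2, map_add, map_smul, map_smul, c.hw]
    simp only [smul_eq_mul]
    field_simp
    ring
  have key0 : ∀ A' ∈ interior K, ∀ B' ∈ K, ∀ D' ∈ K, ∀ E' ∈ K,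
      0 ≤ Φ A' B' D' E' + g (A' + D' - B' - E') := by
    intro A' hA' B' hB' D' hD' E' hE'
    apply nonneg_of_small (Q := 1)
    intro s s0 _
    have := hf (A' + D' - B' - E', Φ A' B' D' E' + s) ⟨A', hA', B', hB', D', hD', E', hE', rfl,
      by simpa using s0⟩
    rw [hsplit] at this
    have e : f (A' + D' - B' - E', 0) = g (A' + D' - B' - E') * f (0, 1) := by
      simp only [g]; field_simp [hl.ne]
    rw [e] at this
    by_contra hn
    push Not at hn
    nlinarith
  have key : ∀ A' ∈ K, ∀ B' ∈ K, ∀ D' ∈ K, ∀ E' ∈ K,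
      0 ≤ Φ A' B' D' E' + g (A' + D' - B' - E') := by
    intro A' hA' B' hB' D' hD' E' hE'
    apply nonneg_of_small (Q := (3 * w x (P0 - A') + w (P0 - A') v) / 2 + g (P0 - A'))
    intro s s0 s1
    have k := key0 (A' + s • (P0 - A'))
      (h.conv.add_smul_sub_mem_interior hA' hP0 ⟨s0, s1⟩) B' hB' D' hD' E' hE'
    convert k using 1
    rw [hg (A' + D' - B' - E'), hg (P0 - A'), hg (A' + s • (P0 - A') + D' - B' - E')]
    simp only [Φ, w, PiLp.add_apply, PiLp.sub_apply, PiLp.smul_apply, smul_eq_mul]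
    ring
  have hw := c.hw
  refine ⟨g v / m, -(g x / m), fun P hP => ?_, fun P hP => ?_, fun P hP => ?_, fun P hP => ?_⟩
  · have k := key P hP _ c.hB _ c.hD _ c.hE
    rw [hg] at k
    convert k using 1
    simp only [Φ, ← hw]
    simp only [w, PiLp.add_apply, PiLp.sub_apply]
    ring
  · have k := key _ c.hA P hP _ c.hD _ c.hE
    rw [hg] at k
    convert k using 1
    simp only [Φ]
    have : m = w x v := hw.symm
    generalize g v / m = a
    generalize g x / m = b
    rw [this]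
    simp only [w, PiLp.add_apply, PiLp.sub_apply]
    ring
  · have k := key _ c.hA _ c.hB P hP _ c.hE
    rw [hg] at k
    convert k using 1
    simp only [Φ]
    have : m = w x v := hw.symm
    generalize g v / m = a
    generalize g x / m = b
    rw [this]
    simp only [w, PiLp.add_apply, PiLp.sub_apply]
    ring
  · have k := key _ c.hA _ c.hB _ c.hD P hP
    rw [hg] at k
    convert k using 1
    simp only [Φ]
    have : m = w x v := hw.symm
    generalize g v / m = a
    generalize g x / m = b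
    rw [this]
    simp only [w, PiLp.add_apply, PiLp.sub_apply]
    ring

end Pool.Agent.Lib.MP_da2c1b_co
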