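import Pool.Agent.Lib.MP_da2c1b_co.Geom

namespace Pool.Agent.Lib.MP_da2c1b_co

open Set Filter Metric Asymptotics
open scoped Topology

/-- The extremal condition: no inscribed symmetric hexagon beats an affine regular one. -/
def Extremal (N : Seminorm ℝ E) : Prop :=
  ∀ x y, Adm N x y → ∀ p q r, N p ≤ 1 → N q ≤ 1 → N r ≤ 1 → w p q + w q r + w p r ≤ 3 * w x y

/-- The quadratic form attached to a hexagon. -/
def G (x y p : E) : ℝ := w p x ^ 2 + w p y ^ 2 + w p (y - x) ^ 2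

theorem real_core {a b c d e : ℝ} (ha : |a| ≤ e) (hb : |b| ≤ e)
    (hdet : (1 + a) * (1 + d) - b * c = 1)
    (n1 : 2 * a + b ≤ 0) (n2 : c + 2 * d ≤ 0) (n3 : a + d - b - c ≤ 0)
    (m1 : |2 * c + (1 + d)| ≤ 2) (m2 : |c + 2 * (1 + d)| ≤ 2) (m3 : |(1 + d) - c| ≤ 2) :
    |d| ≤ 3 * e ∧ |c| ≤ 6 * e ∧ |2 * a - c| ≤ 54 * e ^ 2 ∧ |2 * d - b| ≤ 54 * e ^ 2 ∧
      |2 * b + 2 * c - a - d| ≤ 81 * e ^ 2 := by
  have he : 0 ≤ e := (abs_nonneg a).trans ha
  obtain ⟨a1, a2⟩ := abs_le.1 ha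
  obtain ⟨b1, b2⟩ := abs_le.1 hb
  obtain ⟨m11, m12⟩ := abs_le.1 m1
  obtain ⟨m21, m22⟩ := abs_le.1 m2
  obtain ⟨m31, m32⟩ := abs_le.1 m3
  have hc : |c| ≤ 3 / 2 := abs_le.2 ⟨by linarith, by linarith⟩
  have hd1 : |1 + d| ≤ 3 / 2 := abs_le.2 ⟨by linarith, by linarith⟩
  have hd : |d| ≤ 3 * e := by
    have : d = b * c - a * (1 + d) := by linarith
    rw [this]
    calc |b * c - a * (1 + d)| ≤ |b * c| + |a * (1 + d)| := abs_sub _ _
      _ = |b| * |c| + |a| * |1 + d| := by rw [abs_mul, abs_mul]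
      _ ≤ e * (3 / 2) + e * (3 / 2) := by gcongr
      _ = 3 * e := by ring
  obtain ⟨d1, d2⟩ := abs_le.1 hd
  have hc' : |c| ≤ 6 * e := abs_le.2 ⟨by linarith, by linarith⟩
  have ht : -(a + d) ≤ 9 * e ^ 2 := by
    have : -(a + d) = a * d - b * c := by linarith
    rw [this]
    calc a * d - b * c ≤ |a * d - b * c| := le_abs_self _
      _ ≤ |a * d| + |b * c| := abs_sub _ _
      _ = |a| * |d| + |b| * |c| := by rw [abs_mul, abs_mul]
      _ ≤ e * (3 * e) + e * (6 * e) := by gcongr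
      _ = 9 * e ^ 2 := by ring
  have hsq : 0 ≤ e ^ 2 := by positivity
  refine ⟨hd, hc', abs_le.2 ⟨by linarith, by linarith⟩, abs_le.2 ⟨by linarith, by linarith⟩,
    abs_le.2 ⟨by linarith, by linarith⟩⟩

theorem real_quad {a b c d e X Y M : ℝ} (ha : |a| ≤ e) (hb : |b| ≤ e) (hd : |d| ≤ 3 * e)
    (hc : |c| ≤ 6 * e) (h1 : |2 * a - c| ≤ 54 * e ^ 2) (h2 : |2 * d - b| ≤ 54 * e ^ 2)
    (h3 : |2 * b + 2 * c - a - d| ≤ 81 * e ^ 2) (hX : |X| ≤ M) (hY : |Y| ≤ M) :
    |((1 + a) * X + b * Y) ^ 2 + (c * X + (1 + d) * Y) ^ 2 +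
      ((c * X + (1 + d) * Y) - ((1 + a) * X + b * Y)) ^ 2 - (X ^ 2 + Y ^ 2 + (Y - X) ^ 2)| ≤
      1000 * M ^ 2 * e ^ 2 := by
  have he : 0 ≤ e := (abs_nonneg a).trans ha
  have hM : 0 ≤ M := (abs_nonneg X).trans hX
  set u := a * X + b * Y with hu
  set v := c * X + d * Y with hv
  have hu' : |u| ≤ 2 * e * M := by
    calc |u| ≤ |a * X| + |b * Y| := abs_add_le _ _
      _ = |a| * |X| + |b| * |Y| := by rw [abs_mul, abs_mul]
      _ ≤ e * M + e * M := by gcongr
      _ = 2 * e * M := by ring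
  have hv' : |v| ≤ 9 * e * M := by
    calc |v| ≤ |c * X| + |d * Y| := abs_add_le _ _
      _ = |c| * |X| + |d| * |Y| := by rw [abs_mul, abs_mul]
      _ ≤ 6 * e * M + 3 * e * M := by gcongr
      _ = 9 * e * M := by ring
  have e1 : ((1 + a) * X + b * Y) ^ 2 + (c * X + (1 + d) * Y) ^ 2 +
      ((c * X + (1 + d) * Y) - ((1 + a) * X + b * Y)) ^ 2 - (X ^ 2 + Y ^ 2 + (Y - X) ^ 2) =
      2 * ((2 * a - c) * (X * X)) + 2 * ((2 * d - b) * (Y * Y)) +
        2 * ((2 * b + 2 * c - a - d) * (X * Y)) + (2 * (u * u) + 2 * (v * v) - 2 * (u * v)) := by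
    rw [hu, hv]; ring
  have pr : ∀ {s t S T : ℝ}, |s| ≤ S → |t| ≤ T → |s * t| ≤ S * T := by
    intro s t S T hs ht
    rw [abs_mul]
    exact mul_le_mul hs ht (abs_nonneg _) ((abs_nonneg _).trans hs)
  have t1 := abs_le.1 (pr h1 (pr hX hX))
  have t2 := abs_le.1 (pr h2 (pr hY hY))
  have t3 := abs_le.1 (pr h3 (pr hX hY))
  have t4 := abs_le.1 (pr hu' hu')
  have t5 := abs_le.1 (pr hv' hv')
  have t6 := abs_le.1 (pr hu' hv')
  have hp : 0 ≤ M ^ 2 * e ^ 2 := by positivity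
  rw [e1, abs_le]
  constructor <;> nlinarith

section

variable {N : Seminorm ℝ E} {R L : ℝ}

theorem Extremal.w_eq (h : Extremal N) {x y x' y' : E} (h1 : Adm N x y) (h2 : Adm N x' y') :
    w x' y' = w x y := by
  have key : ∀ {x y x' y' : E}, Adm N x y → Adm N x' y' → w x' y' ≤ w x y := by
    intro x y x' y' h1 h2
    have := h x y h1 x' y' (y' - x') h2.1.le h2.2.1.le h2.2.2.1.le
    have e : w x' y' + w y' (y' - x') + w x' (y' - x') = 3 * w x' y' := by simp [w]; ring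
    linarith
  exact le_antisymm (key h1 h2) (key h2 h1)

theorem Extremal.hex (h : Extremal N) {x y : E} (h1 : Adm N x y) {s t : ℝ}
    (hp : N (s • x + t • y) ≤ 1) : |2 * s + t| ≤ 2 ∧ |s + 2 * t| ≤ 2 ∧ |t - s| ≤ 2 := by
  have key : ∀ {s t : ℝ}, N (s • x + t • y) ≤ 1 → 2 * s + t ≤ 2 ∧ s + 2 * t ≤ 2 ∧ t - s ≤ 2 := by
    intro s t hp
    have hw := h1.2.2.2
    have k1 := h x y h1 (x - y) _ y (by rw [map_sub_rev]; exact h1.2.2.1.le) hp h1.2.1.le
    have k2 := h x y h1 x _ (y - x) h1.1.le hp h1.2.2.1.le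
    have k3 := h x y h1 y _ (-x) h1.2.1.le hp (by rw [map_neg_eq_map]; exact h1.1.le)
    have e1 : w (x - y) (s • x + t • y) + w (s • x + t • y) y + w (x - y) y =
        (2 * s + t + 1) * w x y := by simp [w]; ring
    have e2 : w x (s • x + t • y) + w (s • x + t • y) (y - x) + w x (y - x) =
        (s + 2 * t + 1) * w x y := by simp [w]; ring
    have e3 : w y (s • x + t • y) + w (s • x + t • y) (-x) + w y (-x) =
        (t - s + 1) * w x y := by simp [w]; ring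
    rw [e1] at k1; rw [e2] at k2; rw [e3] at k3
    have := le_of_mul_le_mul_right k1 hw
    have := le_of_mul_le_mul_right k2 hw
    have := le_of_mul_le_mul_right k3 hw
    exact ⟨by linarith, by linarith, by linarith⟩
  have hn : N ((-s) • x + (-t) • y) ≤ 1 := by
    rw [show (-s) • x + (-t) • y = -(s • x + t • y) by module, map_neg_eq_map]; exact hp
  obtain ⟨a1, a2, a3⟩ := key hp
  obtain ⟨b1, b2, b3⟩ := key hn
  exact ⟨abs_le.2 ⟨by linarith, a1⟩, abs_le.2 ⟨by linarith, a2⟩, abs_le.2 ⟨by linarith, a3⟩⟩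

theorem Extremal.G_close (h : Extremal N) (hR : ∀ x, ‖x‖ ≤ R * N x) {x y x' y' : E}
    (h1 : Adm N x y) (h2 : Adm N x' y') (p : E) :
    |G x' y' p - G x y p| ≤ 1000 * (2 * (‖p‖ * R)) ^ 2 * (2 * (‖x' - x‖ * R) / w x y) ^ 2 := by
  have hw := h1.2.2.2
  have hx : ‖x‖ ≤ R := by simpa [h1.1] using hR x
  have hy : ‖y‖ ≤ R := by simpa [h1.2.1] using hR y
  set a := w (x' - x) y / w x y with ha
  set b := w x (x' - x) / w x y with hb
  set c := w y' y / w x y with hc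
  set d := w x y' / w x y - 1 with hd
  have ex : x' = (1 + a) • x + b • y := by
    have := decomp hw.ne' (x' - x)
    rw [← ha, ← hb] at this
    rw [add_smul, one_smul, add_assoc, ← this]; abel
  have ey : y' = c • x + (1 + d) • y := by
    have := decomp hw.ne' y'
    rw [hd, add_sub_cancel]; exact this
  have hdet : (1 + a) * (1 + d) - b * c = 1 := by
    have e := h.w_eq h1 h2
    have e2 : w x' y' = ((1 + a) * (1 + d) - b * c) * w x y := by
      conv_lhs => rw [ex, ey]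
      simp [w]; ring
    rw [e2] at e
    field_simp at e
    linarith
  have H1 := h.hex h1 (s := 1 + a) (t := b) (by rw [← ex]; exact h2.1.le)
  have H2 := h.hex h1 (s := c) (t := 1 + d) (by rw [← ey]; exact h2.2.1.le)
  have H3 := h.hex h1 (s := c - (1 + a)) (t := 1 + d - b) (by
    have : (c - (1 + a)) • x + (1 + d - b) • y = y' - x' := by
      conv_rhs => rw [ex, ey]
      module
    rw [this]; exact h2.2.2.1.le)
  have hA : |a| ≤ 2 * (‖x' - x‖ * R) / w x y := by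
    rw [ha, abs_div, abs_of_pos hw]
    gcongr
    refine (abs_w_le _ _).trans ?_
    gcongr
  have hB : |b| ≤ 2 * (‖x' - x‖ * R) / w x y := by
    rw [hb, abs_div, abs_of_pos hw]
    gcongr
    refine (abs_w_le _ _).trans ?_
    rw [mul_comm ‖x‖]
    gcongr
  obtain ⟨r1, r2, r3, r4, r5⟩ := real_core hA hB hdet (by linarith [(abs_le.1 H1.1).2])
    (by linarith [(abs_le.1 H2.2.1).2]) (by linarith [(abs_le.1 H3.2.2).2]) H2.1 H2.2.1 H2.2.2
  have hX : |w p x| ≤ 2 * (‖p‖ * R) := (abs_w_le _ _).trans (by gcongr)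
  have hY : |w p y| ≤ 2 * (‖p‖ * R) := (abs_w_le _ _).trans (by gcongr)
  have := real_quad hA hB r1 r2 r3 r4 r5 hX hY
  convert this using 2
  have f1 : w p x' = (1 + a) * w p x + b * w p y := by
    conv_lhs => rw [ex]
    simp [w]; ring
  have f2 : w p y' = c * w p x + (1 + d) * w p y := by
    conv_lhs => rw [ey]
    simp [w]; ring
  have f3 : ∀ u v : E, w p (v - u) = w p v - w p u := by intro u v; simp [w]; ring
  simp only [G, f3, f1, f2]

theorem normalize_close (hR : ∀ x, ‖x‖ ≤ R * N x) (hL : ∀ x, N x ≤ L * ‖x‖) {u v : E}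
    (hu : u ≠ 0) (hv : v ≠ 0) :
    ‖(N v)⁻¹ • v - (N u)⁻¹ • u‖ ≤ (1 + R * L) / N u * ‖v - u‖ := by
  have h1 := N_pos hR hu
  have h2 := N_pos hR hv
  have e : (N v)⁻¹ • v - (N u)⁻¹ • u =
      (N u)⁻¹ • (v - u) + ((N u - N v) / N u) • ((N v)⁻¹ • v) := by
    rw [smul_smul, smul_sub]
    have : (N u - N v) / N u * (N v)⁻¹ = (N v)⁻¹ - (N u)⁻¹ := by field_simp
    rw [this]; module
  have h3 : ‖(N v)⁻¹ • v‖ ≤ R := by simpa [N_normalize hR hv] using hR ((N v)⁻¹ • v)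
  have h4 : |N u - N v| ≤ L * ‖v - u‖ := by
    refine (abs_sub_map_le_sub N u v).trans ?_
    rw [map_sub_rev]; exact hL _
  rw [e]
  refine (norm_add_le _ _).trans ?_
  rw [norm_smul, norm_smul ((N u - N v) / N u), Real.norm_eq_abs, Real.norm_eq_abs, abs_div,
    abs_of_pos h1, abs_of_pos (inv_pos.2 h1)]
  have h5 : |N u - N v| / N u * ‖(N v)⁻¹ • v‖ ≤ L * ‖v - u‖ / N u * R := by
    have : 0 ≤ L * ‖v - u‖ := (abs_nonneg _).trans h4
    gcongr
  refine (add_le_add le_rfl h5).trans (le_of_eq ?_)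
  field_simp

theorem Extremal.G_eq (h : Extremal N) (hR : ∀ x, ‖x‖ ≤ R * N x) (hL : ∀ x, N x ≤ L * ‖x‖)
    {x y : E} (h1 : Adm N x y) (p : E) : G x y p = 2 * w x y ^ 2 * N p ^ 2 := by
  by_cases hp : p = 0
  · simp [hp, G, w]
  have hx0 : x ≠ 0 := by rintro rfl; simpa using h1.1
  have hex : ∀ u : E, ∃ z : E, u ≠ 0 → Adm N ((N u)⁻¹ • u) z ∧ (u = x → z = y) := by
    intro u
    by_cases hu : u = 0
    · exact ⟨0, fun h => absurd hu h⟩
    by_cases hux : u = x
    · exact ⟨y, fun _ => ⟨by rw [hux, h1.1]; simpa using h1, fun _ => rfl⟩⟩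
    obtain ⟨z, hz⟩ := exists_adm hR hL (N_normalize hR hu)
    exact ⟨z, fun _ => ⟨hz, fun h => absurd h hux⟩⟩
  choose Y hY using hex
  let g : E → ℝ := fun u => G ((N u)⁻¹ • u) (Y u) p
  have hder : ∀ u : E, u ≠ 0 → HasFDerivAt g (0 : E →L[ℝ] ℝ) u := by
    intro u hu
    rw [hasFDerivAt_iff_isLittleO]
    refine IsBigO.trans_isLittleO ?_ (isLittleO_pow_sub_sub u (m := 2) (by norm_num))
    refine IsBigO.of_bound (1000 * (2 * (‖p‖ * R)) ^ 2 *
      (2 * ((1 + R * L) / N u * R) / w x y) ^ 2) ?_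
    filter_upwards [isOpen_ne.mem_nhds hu] with v hv
    have k1 := h.G_close hR (hY u hu).1 (hY v hv).1 p
    have k2 := normalize_close hR hL hu hv
    have hw := h1.2.2.2
    have hR0 : 0 ≤ R := by
      have := hR x
      rw [h1.1] at this
      linarith [norm_nonneg x]
    rw [h.w_eq h1 (hY u hu).1] at k1
    simp only [zero_apply, sub_zero, Real.norm_eq_abs, norm_pow, abs_norm]
    refine k1.trans ?_
    rw [mul_assoc (1000 * (2 * (‖p‖ * R)) ^ 2), ← mul_pow]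
    gcongr
    calc 2 * (‖(N v)⁻¹ • v - (N u)⁻¹ • u‖ * R) / w x y
        ≤ 2 * ((1 + R * L) / N u * ‖v - u‖ * R) / w x y := by gcongr
      _ = _ := by ring
  have hconst : g p = g x := by
    refine IsOpen.is_const_of_fderiv_eq_zero (𝕜 := ℝ) (s := {0}ᶜ) isOpen_compl_singleton
      (isConnected_compl_singleton_of_one_lt_rank ?_ 0).isPreconnected
      (fun u hu => (hder u hu).differentiableAt.differentiableWithinAt)
      (fun u hu => (hder u hu).fderiv) hp hx0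
    rw [← Module.finrank_eq_rank]
    simp
  have e1 : g x = G x y p := by
    simp only [g]
    rw [(hY x hx0).2 rfl, h1.1]; simp
  have e2 : g p = 2 * w x y ^ 2 * N p ^ 2 := by
    have k := h.w_eq h1 (hY p hp).1
    have hN := N_pos hR hp
    have f1 : w p ((N p)⁻¹ • p) = 0 := by simp [w]; ring
    have f2 : w p (Y p) = N p * w x y := by
      rw [← k]; simp [w]; field_simp
    have f3 : ∀ u v : E, w p (v - u) = w p v - w p u := by intro u v; simp [w]; ring
    simp only [g, G, f3, f1, f2]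
    ring
  rw [← e1, ← hconst, e2]

theorem Extremal.ellipse (h : Extremal N) (hR : ∀ x, ‖x‖ ≤ R * N x) (hL : ∀ x, N x ≤ L * ‖x‖) :
    ∃ A : E ≃ₗ[ℝ] E, ∀ z, N (A z) = ‖z‖ := by
  have hne : (!₂[1, 0] : E) ≠ 0 := by
    intro h
    have := congrArg (fun v : E => v 0) h
    simp at this
  obtain ⟨y, h1⟩ := exists_adm hR hL (N_normalize hR hne)
  set x : E := (N !₂[1, 0])⁻¹ • !₂[1, 0]
  have hw := h1.2.2.2
  have h3 : Real.sqrt 3 ^ 2 = 3 := Real.sq_sqrt (by norm_num)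
  have h3' : Real.sqrt 3 ≠ 0 := by positivity
  let A : E →ₗ[ℝ] E :=
    { toFun := fun z => (z 0 - z 1 / Real.sqrt 3) • x + (2 * z 1 / Real.sqrt 3) • y
      map_add' := by
        intro u v
        simp only [PiLp.add_apply]
        match_scalars <;> ring
      map_smul' := by
        intro c v
        simp only [PiLp.smul_apply, smul_eq_mul, RingHom.id_apply]
        match_scalars <;> ring }
  have hA : ∀ z, N (A z) = ‖z‖ := by
    intro z
    have k := h.G_eq hR hL h1 (A z)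
    have e : ∀ s t : ℝ, G x y (s • x + t • y) = 2 * w x y ^ 2 * (s ^ 2 + s * t + t ^ 2) := by
      intro s t; simp [G, w]; ring
    have e2 : G x y (A z) = 2 * w x y ^ 2 * ‖z‖ ^ 2 := by
      change G x y ((z 0 - z 1 / Real.sqrt 3) • x + (2 * z 1 / Real.sqrt 3) • y) = _
      rw [e, EuclideanSpace.norm_sq_eq]
      simp only [Fin.sum_univ_two, Real.norm_eq_abs, sq_abs]
      congr 1
      field_simp
      linear_combination (z 0 ^ 2 - z 0 ^ 2 + z 1 ^ 2 * (-1)) * h3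
    rw [e2] at k
    have k2 : ‖z‖ ^ 2 = N (A z) ^ 2 := mul_left_cancel₀ (by positivity) k
    exact ((sq_eq_sq₀ (norm_nonneg _) (apply_nonneg _ _)).1 k2).symm
  have hinj : Function.Injective A := by
    rw [injective_iff_map_eq_zero]
    intro z hz
    have := hA z
    rw [hz, map_zero] at this
    exact norm_eq_zero.1 this.symm
  exact ⟨LinearEquiv.ofInjectiveEndo A hinj, hA⟩

end

end Pool.Agent.Lib.MP_da2c1b_co
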