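import Pool.Agent.Lib.MP_da2c1b_co.Est
import Pool.Agent.Lib.MP_da2c1b_co.Rigid

namespace Pool.Agent.Lib.MP_da2c1b_co

open Set Filter Metric Asymptotics
open scoped Topology

variable {K : Set E} {N : Seminorm ℝ E} {m R L M : ℝ}

theorem dcongr {F : Type*} [NormedAddCommGroup F] [NormedSpace ℝ F] {f g : ℝ → F} {f' g' : F}
    {t : ℝ} (hf : HasDerivAt f f' t) (h1 : ∀ s, g s = f s) (h2 : g' = f') :
    HasDerivAt g g' t := by
  rw [h2, funext h1]; exact hf

theorem deriv_of_est {f γ : ℝ → E} {η : ℝ → ℝ} {z : E} {Q ρ t : ℝ}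
    (h1 : ∀ s, ‖f s - f t - η s • z‖ ≤ Q * ‖γ s - γ t‖ ^ 2)
    (h2 : (fun s => γ s - γ t) =O[𝓝 t] fun s => s - t) (h3 : HasDerivAt η ρ t) (h4 : η t = 0) :
    HasDerivAt f (ρ • z) t := by
  have k1 : HasDerivAt (fun s => f t + η s • z) (ρ • z) t := (h3.smul_const z).const_add _
  have k2 : HasDerivAt (fun s => f s - f t - η s • z) 0 t := by
    rw [hasDerivAt_iff_isLittleO]
    simp only [h4, zero_smul, sub_self, sub_zero, smul_zero]
    have k3 : (fun s => f s - f t - η s • z) =O[𝓝 t] fun s => ‖γ s - γ t‖ ^ 2 :=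
      IsBigO.of_bound Q (Eventually.of_forall fun s => by simpa using h1 s)
    have k4 : (fun s => ‖γ s - γ t‖ ^ 2) =O[𝓝 t] fun s => ‖s - t‖ ^ 2 :=
      h2.norm_norm.pow 2
    exact (k3.trans k4).trans_isLittleO (isLittleO_pow_sub_sub t (m := 2) (by norm_num))
  exact dcongr (k1.add k2) (fun s => by simp) (by simp)

theorem deriv_mul_cont {f g : ℝ → ℝ} {f' t : ℝ} (hf : HasDerivAt f f' t) (h0 : f t = 0)
    (hg : ContinuousAt g t) : HasDerivAt (fun s => g s * f s) (g t * f') t := by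
  rw [hasDerivAt_iff_tendsto_slope] at hf ⊢
  have := (hg.tendsto.mono_left (nhdsWithin_le_nhds (s := {t}ᶜ))).mul hf
  refine this.congr fun s => ?_
  simp only [slope_def_field, h0]
  ring

theorem HasDerivAt.w2 {f g : ℝ → E} {f' g' : E} {t : ℝ} (hf : HasDerivAt f f' t)
    (hg : HasDerivAt g g' t) :
    HasDerivAt (fun s => w (f s) (g s)) (w f' (g t) + w (f t) g') t := by
  have c : ∀ {f : ℝ → E} {f' : E} (i : Fin 2), HasDerivAt f f' t →
      HasDerivAt (fun s => f s i) (f' i) t := fun i hf =>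
    (EuclideanSpace.proj (𝕜 := ℝ) i).hasFDerivAt.comp_hasDerivAt t hf
  exact dcongr (((c 0 hf).mul (c 1 hg)).sub ((c 1 hf).mul (c 0 hg))) (fun s => rfl)
    (by simp only [w]; ring)

theorem Ext.path (h : Ext K N m R L M) {u : ℝ → E} {u' : E} {t : ℝ} (hu : HasDerivAt u u' t)
    (hne : ∀ s, u s ≠ 0) {A V : ℝ → E} (hc : ∀ s, Cfg K N m ((N (u s))⁻¹ • u s) (A s) (V s))
    {a b : ℝ} (mu : Mul K m ((N (u t))⁻¹ • u t) (A t) (V t) a b) :
    HasDerivAt (fun s => (N (u s))⁻¹ • u s) ((w (u t) u' / (m * N (u t) ^ 2)) • V t) t ∧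
    HasDerivAt A ((w (u t) u' / (m * N (u t) ^ 2)) • velA ((N (u t))⁻¹ • u t) (V t) a b) t ∧
    HasDerivAt V ((w (u t) u' / (m * N (u t) ^ 2)) • (-(3 * kap a b)) • (N (u t))⁻¹ • u t) t := by
  have hm := h.mpos
  obtain ⟨Q, -, hQ⟩ := h.est (hc t) mu
  have hN := N_pos h.hR (hne t)
  have h2 : (fun s => (N (u s))⁻¹ • u s - (N (u t))⁻¹ • u t) =O[𝓝 t] fun s => s - t := by
    refine IsBigO.trans ?_ hu.isBigO_sub
    refine IsBigO.of_bound ((1 + R * L) / N (u t)) (Eventually.of_forall fun s => ?_)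
    exact normalize_close h.hR h.hL (hne t) (hne s)
  have h3 : HasDerivAt (fun s => w ((N (u t))⁻¹ • u t) ((N (u s))⁻¹ • u s) / m)
      (w (u t) u' / (m * N (u t) ^ 2)) t := by
    have k1 := HasDerivAt.w2 (hasDerivAt_const t (u t)) hu
    have k2 : ContinuousAt (fun s => (N (u t))⁻¹ * (N (u s))⁻¹ / m) t := by
      have : ContinuousAt (fun s => N (u s)) t :=
        (N_cont h.hL).continuousAt.comp hu.continuousAt
      exact ((this.inv₀ hN.ne').const_mul _).div_const _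
    have k3 := deriv_mul_cont k1 (w_self _) k2
    refine dcongr k3 (fun s => ?_) ?_
    · rw [w_smul_left, w_smul_right]; ring
    · rw [w_zero_left]; field_simp; ring
  have h4 : w ((N (u t))⁻¹ • u t) ((N (u t))⁻¹ • u t) / m = 0 := by rw [w_self, zero_div]
  exact ⟨deriv_of_est (fun s => (hQ _ _ _ (hc s)).1) h2 h3 h4,
    deriv_of_est (fun s => (hQ _ _ _ (hc s)).2.1) h2 h3 h4,
    deriv_of_est (fun s => (hQ _ _ _ (hc s)).2.2) h2 h3 h4⟩

theorem Ext.local_path (h : Ext K N m R L M) {x A v : E} (c : Cfg K N m x A v) :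
    ∃ X' A' V' : ℝ → E, (∀ s, Cfg K N m (X' s) (A' s) (V' s)) ∧ X' 0 = x ∧ A' 0 = A ∧ V' 0 = v ∧
      ∀ a b, Mul K m x A v a b → HasDerivAt X' v 0 ∧ HasDerivAt A' (velA x v a b) 0 ∧
        HasDerivAt V' ((-(3 * kap a b)) • x) 0 := by
  have hm := h.mpos
  have hne : ∀ t : ℝ, x + t • v ≠ 0 := by
    intro t ht
    have := congrArg (fun p => w p v) ht
    simp only [w_add_left, w_smul_left, w_self, c.hw, w_zero_left] at this
    linarith
  choose A' V' hc using fun s : ℝ => h.cfg_ex (N_normalize h.hR (hne s))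
  have e0 : (N (x + (0 : ℝ) • v))⁻¹ • (x + (0 : ℝ) • v) = x := by simp [c.hx]
  have hc0 := hc 0
  rw [e0] at hc0
  obtain ⟨e1, e2⟩ := h.unique c hc0
  refine ⟨_, A', V', hc, e0, e1, e2, fun a b mu => ?_⟩
  have hu : HasDerivAt (fun s : ℝ => x + s • v) v 0 := by
    simpa using ((hasDerivAt_id (0 : ℝ)).smul_const v).const_add x
  have k := h.path hu hne hc (a := a) (b := b) (by rw [e0, e1, e2]; exact mu)
  have e3 : w (x + (0 : ℝ) • v) v / (m * N (x + (0 : ℝ) • v) ^ 2) = 1 := by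
    simp [c.hx, c.hw, hm.ne']
  simp only [e3, e0, e2, one_smul] at k
  exact k

theorem min_deriv {f : ℝ → E} {f' g P : E} (hf : HasDerivAt f f' 0) (h0 : f 0 = P)
    (hg : ∀ s, 0 ≤ w g (f s - P)) : w g f' = 0 := by
  have k := HasDerivAt.w2 (hasDerivAt_const (0 : ℝ) g) (hf.sub_const P)
  rw [w_zero_left, zero_add] at k
  refine IsLocalMin.hasDerivAt_eq_zero ?_ k
  refine Eventually.of_forall fun s => ?_
  simp only [h0, sub_self, w_zero_right]
  exact hg s

theorem Ext.smooth (h : Ext K N m R L M) {x A v : E} {a b : ℝ} (c : Cfg K N m x A v)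
    (u : Mul K m x A v a b) (g : E) :
    ((∀ P ∈ K, 0 ≤ w g (P - A)) → (a + 3 / 2) * w g x - (1 / 2 - b) * w g v = 0) ∧
    ((∀ P ∈ K, 0 ≤ w g (P - (A + x))) → (3 / 2 - a) * w g x + (1 / 2 - b) * w g v = 0) ∧
    ((∀ P ∈ K, 0 ≤ w g (P - (A + x + v))) → (a - 3 / 2) * w g x + (1 / 2 + b) * w g v = 0) ∧
    ((∀ P ∈ K, 0 ≤ w g (P - (A + v))) → (a + 3 / 2) * w g x + (1 / 2 + b) * w g v = 0) ∧
    ((∀ z, N z ≤ 1 → 0 ≤ w g (z - x)) → w g v = 0) := by
  obtain ⟨X', A', V', hc, e0, e1, e2, hd⟩ := h.local_path c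
  obtain ⟨dX, dA, dV⟩ := hd a b u
  obtain ⟨a1, a2⟩ := abs_lt.1 (h.a_abs_lt c u)
  have hb := h.b_abs_lt c u
  obtain ⟨b1, b2⟩ := abs_lt.1 hb
  have ek := kap_eq a hb
  have n1 : 1 / 2 - b ≠ 0 := by linarith
  have n2 : 1 / 2 + b ≠ 0 := by linarith
  have n3 : 3 / 2 - a ≠ 0 := by linarith
  have n4 : 3 / 2 + a ≠ 0 := by linarith
  have ea : 9 / 4 - a ^ 2 = (3 / 2 - a) * (3 / 2 + a) := by ring
  refine ⟨fun hg => ?_, fun hg => ?_, fun hg => ?_, fun hg => ?_, fun hg => ?_⟩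
  · have k := min_deriv dA e1 fun s => hg _ (hc s).hA
    rw [velA, w_add_right, w_smul_right, w_smul_right, ea] at k
    apply mul_left_cancel₀ (div_ne_zero n3 (mul_ne_zero three_ne_zero n1))
    rw [mul_zero, ← k]
    generalize 1 / 2 - b = σ at *
    field_simp
    ring
  · have k := min_deriv (dA.add dX) (P := A + x) (by simp [e0, e1]) fun s => hg _ (hc s).hB
    rw [velA, w_add_right, w_add_right, w_smul_right, w_smul_right, ea] at k
    apply mul_left_cancel₀ (div_ne_zero n4 (mul_ne_zero three_ne_zero n1))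
    rw [mul_zero, ← k]
    generalize 1 / 2 - b = σ at *
    field_simp
    ring
  · have k := min_deriv ((dA.add dX).add dV) (P := A + x + v) (by simp [e0, e1, e2])
      fun s => hg _ (hc s).hD
    rw [velA, w_add_right, w_add_right, w_add_right, w_smul_right, w_smul_right, w_smul_right,
      ek, ea] at k
    apply mul_left_cancel₀ (div_ne_zero n4 (mul_ne_zero three_ne_zero n2))
    rw [mul_zero, ← k]
    generalize 1 / 2 - b = σ at *
    generalize 1 / 2 + b = τ at *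
    field_simp
    ring
  · have k := min_deriv (dA.add dV) (P := A + v) (by simp [e1, e2]) fun s => hg _ (hc s).hE
    rw [velA, w_add_right, w_add_right, w_smul_right, w_smul_right, w_smul_right, ek, ea] at k
    apply mul_left_cancel₀ (div_ne_zero n3 (mul_ne_zero (neg_ne_zero.2 three_ne_zero) n2))
    rw [mul_zero, ← k]
    generalize 1 / 2 - b = σ at *
    generalize 1 / 2 + b = τ at *
    field_simp
    ring
  · exact min_deriv dX e0 fun s => hg _ (hc s).hx.le

theorem Ext.mul_unique (h : Ext K N m R L M) {x A v : E} {a b a' b' : ℝ} (c : Cfg K N m x A v)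
    (u : Mul K m x A v a b) (u' : Mul K m x A v a' b') : a' = a ∧ b' = b := by
  have hm := h.mpos
  obtain ⟨s1, s2, -⟩ := h.smooth c u ((a' + 3 / 2) • x + (-(1 / 2 - b')) • v)
  obtain ⟨-, s3, -⟩ := h.smooth c u ((3 / 2 - a') • x + (1 / 2 - b') • v)
  have k1 := s1 fun P hP => by
    convert u'.tA P hP using 1; simp [w]; ring
  have k2 := s3 fun P hP => by
    convert u'.tB P hP using 1; rw [← c.hw]; simp [w]; ring
  rw [w_add_left, w_add_left, w_smul_left, w_smul_left, w_smul_left, w_smul_left, w_self, w_self,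
    w_comm v x, c.hw] at k1 k2
  have k3 : b' = b := by
    apply mul_left_cancel₀ hm.ne'; linarith
  have hb := h.b_lt c u
  subst k3
  refine ⟨?_, rfl⟩
  apply mul_left_cancel₀ (mul_pos hm (by linarith : 0 < 1 / 2 - b')).ne'
  linarith

theorem Ext.mul_cont (h : Ext K N m R L M) {X A V : ℝ → E} {a b : ℝ → ℝ} (cX : Continuous X)
    (cA : Continuous A) (cV : Continuous V) (hc : ∀ s, Cfg K N m (X s) (A s) (V s))
    (hu : ∀ s, Mul K m (X s) (A s) (V s) (a s) (b s)) : Continuous a ∧ Continuous b := by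
  have key : Continuous fun s => (a s, b s) := by
    rw [continuous_iff_continuousAt]
    intro t
    have hK : IsCompact (Icc (-(3 / 2) : ℝ) (3 / 2) ×ˢ Icc (-(1 / 2) : ℝ) (1 / 2)) :=
      isCompact_Icc.prod isCompact_Icc
    refine hK.tendsto_nhds_of_unique_mapClusterPt (Eventually.of_forall fun s =>
      ⟨abs_le.1 (h.mul_bd (hc s) (hu s)).1, abs_le.1 (h.mul_bd (hc s) (hu s)).2⟩) ?_
    rintro ⟨a', b'⟩ - hp
    have cl : ∀ G : ℝ × (ℝ × ℝ) → ℝ, Continuous G → (∀ s, 0 ≤ G (s, (a s, b s))) →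
        0 ≤ G (t, (a', b')) := by
      intro G hG h0
      by_contra hn
      push Not at hn
      have e1 : ∀ᶠ p in 𝓝 (t, (a', b')), G p < 0 :=
        (isOpen_lt hG continuous_const).mem_nhds hn
      rw [nhds_prod_eq, eventually_prod_iff] at e1
      obtain ⟨p1, h1, p2, h2, h3⟩ := e1
      obtain ⟨s, hs1, hs2⟩ := ((hp.frequently h2).and_eventually h1).exists
      exact absurd (h3 hs2 hs1) (not_lt.2 (h0 s))
    have wX : ∀ P : E, Continuous fun p : ℝ × (ℝ × ℝ) => w (X p.1) (P - A p.1) := fun P =>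
      w_cont.comp (f := fun p : ℝ × (ℝ × ℝ) => (X p.1, P - A p.1)) (by fun_prop)
    have wV : ∀ P : E, Continuous fun p : ℝ × (ℝ × ℝ) => w (P - A p.1) (V p.1) := fun P =>
      w_cont.comp (f := fun p : ℝ × (ℝ × ℝ) => (P - A p.1, V p.1)) (by fun_prop)
    have mu : Mul K m (X t) (A t) (V t) a' b' := by
      refine ⟨fun P hP => ?_, fun P hP => ?_, fun P hP => ?_, fun P hP => ?_⟩
      · exact cl (fun p => (p.2.1 + 3 / 2) * w (X p.1) (P - A p.1) +
          (1 / 2 - p.2.2) * w (P - A p.1) (V p.1)) (by have := wX P; have := wV P; fun_prop)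
          fun s => (hu s).tA P hP
      · exact cl (fun p => (3 / 2 - p.2.1) * w (X p.1) (P - A p.1) -
          (1 / 2 - p.2.2) * (w (P - A p.1) (V p.1) - m)) (by have := wX P; have := wV P; fun_prop)
          fun s => (hu s).tB P hP
      · exact cl (fun p => (p.2.1 - 3 / 2) * (w (X p.1) (P - A p.1) - m) -
          (1 / 2 + p.2.2) * (w (P - A p.1) (V p.1) - m)) (by have := wX P; have := wV P; fun_prop)
          fun s => (hu s).tD P hP
      · exact cl (fun p => -(p.2.1 + 3 / 2) * (w (X p.1) (P - A p.1) - m) +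
          (1 / 2 + p.2.2) * w (P - A p.1) (V p.1)) (by have := wX P; have := wV P; fun_prop)
          fun s => (hu s).tE P hP
    obtain ⟨e1, e2⟩ := h.mul_unique (hc t) (hu t) mu
    rw [e1, e2]
  exact ⟨continuous_fst.comp key, continuous_snd.comp key⟩

theorem Ext.N_ge (h : Ext K N m R L M) {x A v : E} (c : Cfg K N m x A v) (z : E) :
    w z v ≤ m * N z := by
  by_cases hz : z = 0
  · simp [hz, w_zero_left]
  have h1 := h.supp c (N_normalize h.hR hz).le
  have h2 := N_pos h.hR hz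
  rw [w_smul_left, inv_mul_le_iff₀ h2] at h1
  linarith

theorem Ext.N_deriv (h : Ext K N m R L M) {y : ℝ → E} {y' : E} {t : ℝ} (hy : HasDerivAt y y' t)
    (hne : ∀ s, y s ≠ 0) {A v : E} (c : Cfg K N m ((N (y t))⁻¹ • y t) A v) :
    HasDerivAt (fun s => N (y s)) (w y' v / m) t := by
  have hm := h.mpos
  choose A' V' hc using fun s : ℝ => h.cfg_ex (N_normalize h.hR (hne s))
  obtain ⟨e1, e2⟩ := h.unique c (hc t)
  obtain ⟨a, b, mu⟩ := h.mul_ex (hc t)
  obtain ⟨-, -, dV⟩ := h.path hy hne hc mu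
  have eN : ∀ s, N (y s) = w (y s) (V' s) / m := by
    intro s
    have := (hc s).hw
    rw [w_smul_left] at this
    have h2 := N_pos h.hR (hne s)
    field_simp at this ⊢
    linarith
  have k := (HasDerivAt.w2 hy dV).div_const m
  rw [w_smul_right, w_smul_right, w_smul_right, w_self, e2] at k
  simp only [mul_zero, add_zero] at k
  exact dcongr k eN rfl

end Pool.Agent.Lib.MP_da2c1b_co
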