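import Pool.Agent.Lib.MP_da2c1b_co.Defs

namespace Pool.Agent.Lib.MP_da2c1b_co

open Set Filter Metric
open scoped Topology

/-- Determinant of two plane vectors. -/
def w (p q : E) : ℝ := p 0 * q 1 - p 1 * q 0

theorem decomp {x y : E} (h : w x y ≠ 0) (p : E) :
    p = (w p y / w x y) • x + (w x p / w x y) • y := by
  ext i
  fin_cases i <;> simp only [PiLp.add_apply, PiLp.smul_apply, smul_eq_mul] <;>
    (field_simp; simp only [w]; simp; ring)

theorem abs_w_le (p q : E) : |w p q| ≤ 2 * (‖p‖ * ‖q‖) := by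
  have h1 : ∀ (u : E) (i : Fin 2), |u i| ≤ ‖u‖ := fun u i => by
    simpa using PiLp.norm_apply_le u i
  unfold w
  calc |p 0 * q 1 - p 1 * q 0| ≤ |p 0 * q 1| + |p 1 * q 0| := abs_sub _ _
    _ = |p 0| * |q 1| + |p 1| * |q 0| := by rw [abs_mul, abs_mul]
    _ ≤ ‖p‖ * ‖q‖ + ‖p‖ * ‖q‖ := by
        gcongr <;> exact h1 _ _
    _ = 2 * (‖p‖ * ‖q‖) := by ring

/-- Two consecutive vertices of an inscribed affine regular hexagon. -/
def Adm (N : Seminorm ℝ E) (x y : E) : Prop :=
  N x = 1 ∧ N y = 1 ∧ N (y - x) = 1 ∧ 0 < w x y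

section

variable {N : Seminorm ℝ E} {R L : ℝ}

theorem N_pos (hR : ∀ x, ‖x‖ ≤ R * N x) {x : E} (hx : x ≠ 0) : 0 < N x := by
  have h1 := hR x
  have h2 := norm_pos_iff.2 hx
  rcases (apply_nonneg N x).lt_or_eq with h | h
  · exact h
  · rw [← h] at h1; linarith

theorem N_cont (hL : ∀ x, N x ≤ L * ‖x‖) : Continuous N := by
  refine Seminorm.continuous_of_le (q := (L.toNNReal) • normSeminorm ℝ E) ?_ ?_
  · exact continuous_norm.const_smul (L.toNNReal)
  · intro x
    refine (hL x).trans ?_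
    simp only [smul_apply, coe_normSeminorm, NNReal.smul_def, smul_eq_mul]
    gcongr
    exact Real.le_coe_toNNReal L

theorem N_normalize (hR : ∀ x, ‖x‖ ≤ R * N x) {u : E} (hu : u ≠ 0) : N ((N u)⁻¹ • u) = 1 := by
  have := N_pos hR hu
  rw [map_smul_eq_mul, Real.norm_eq_abs, abs_of_pos (inv_pos.2 this), inv_mul_cancel₀ this.ne']

theorem exists_adm (hR : ∀ x, ‖x‖ ≤ R * N x) (hL : ∀ x, N x ≤ L * ‖x‖) {x : E} (hx : N x = 1) :
    ∃ y, Adm N x y := by
  have hx0 : x ≠ 0 := by rintro rfl; simp at hx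
  let J : E := !₂[-x 1, x 0]
  let u : ℝ → E := fun s => (-s) • x + (1 - s ^ 2) • J
  have hwx : ∀ s, w x (u s) = (1 - s ^ 2) * (x 0 ^ 2 + x 1 ^ 2) := by
    intro s; simp [w, u, J]; ring
  have hsq : 0 < x 0 ^ 2 + x 1 ^ 2 := by
    by_contra h
    apply hx0
    ext i
    fin_cases i <;> simp <;> nlinarith [sq_nonneg (x 0), sq_nonneg (x 1)]
  have hu : ∀ s, u s ≠ 0 := by
    intro s hs
    have h1 := hwx s
    rw [hs] at h1
    have h2 : 1 - s ^ 2 = 0 := by
      have : w x 0 = 0 := by simp [w]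
      rw [this] at h1
      rcases mul_eq_zero.1 h1.symm with h | h
      · exact h
      · exact absurd h hsq.ne'
    have h3 : s ≠ 0 := by rintro rfl; simp at h2
    simp only [u, h2, zero_smul, add_zero, smul_eq_zero, neg_eq_zero] at hs
    tauto
  have hNc := N_cont hL
  have huc : Continuous u := by fun_prop
  let g : ℝ → ℝ := fun s => N ((N (u s))⁻¹ • u s - x)
  have hgc : Continuous g := by
    have hi : Continuous fun s => (N (u s))⁻¹ :=
      (hNc.comp huc).inv₀ fun s => (N_pos hR (hu s)).ne'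
    exact hNc.comp ((hi.smul huc).sub continuous_const)
  have g0 : g (-1) = 0 := by simp [g, u, hx]
  have g1 : g 1 = 2 := by
    have : (-x - x : E) = (-2 : ℝ) • x := by module
    simp only [g, u]
    norm_num [hx]
    rw [this, map_smul_eq_mul, hx]; norm_num
  obtain ⟨s, hs, hgs⟩ : (1 : ℝ) ∈ g '' Icc (-1) 1 :=
    intermediate_value_Icc (by norm_num) hgc.continuousOn (by rw [g0, g1]; norm_num)
  refine ⟨(N (u s))⁻¹ • u s, hx, N_normalize hR (hu s), hgs, ?_⟩
  have h1 : s ≠ -1 := by rintro rfl; rw [g0] at hgs; norm_num at hgs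
  have h2 : s ≠ 1 := by rintro rfl; rw [g1] at hgs; norm_num at hgs
  have h3 : 0 < 1 - s ^ 2 := by
    have a1 := lt_of_le_of_ne hs.1 (Ne.symm h1)
    have a2 := lt_of_le_of_ne hs.2 h2
    nlinarith
  have h4 : w x ((N (u s))⁻¹ • u s) = (N (u s))⁻¹ * w x (u s) := by simp [w]; ring
  rw [h4, hwx]
  have := N_pos hR (hu s)
  positivity

theorem sector {u v : E} (hu : N u = 1) (huv : N (v - u) = 1) {m n : ℝ} (hm : 0 ≤ m)
    (hn : 0 ≤ n) : m ≤ N (m • u + n • v) := by
  have h1 : (m + n) • u = (m • u + n • v) + (-n) • (v - u) := by module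
  have h2 := map_add_le_add N (m • u + n • v) ((-n) • (v - u))
  rw [← h1, map_smul_eq_mul, map_smul_eq_mul, hu, huv, Real.norm_eq_abs, Real.norm_eq_abs,
    abs_of_nonneg (by linarith), abs_neg, abs_of_nonneg hn] at h2
  linarith

theorem pack_aux {x y : E} (h : Adm N x y) (m n : ℤ) (hn : 0 < n ∨ (n = 0 ∧ 0 < m)) :
    1 ≤ N ((m : ℝ) • x + (n : ℝ) • y) := by
  obtain ⟨h1, h2, h3, -⟩ := h
  rcases hn with hn | ⟨rfl, hm⟩
  · have hn' : (1 : ℝ) ≤ n := by exact_mod_cast hn
    rcases le_or_gt 0 m with hm | hm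
    · have hm' : (0 : ℝ) ≤ m := by exact_mod_cast hm
      have := sector (u := y) (v := x) h2 (by rw [map_sub_rev]; exact h3) (m := n) (n := m)
        (by linarith) hm'
      rw [add_comm] at this
      linarith
    · have hm' : (m : ℝ) ≤ -1 := by exact_mod_cast (by omega : m ≤ -1)
      rcases le_total 0 ((n : ℝ) + m) with hs | hs
      · have := sector (u := y - x) (v := y) h3 (by simpa using h1) (m := -(m : ℝ))
          (n := n + m) (by linarith) hs
        have e : -(m : ℝ) • (y - x) + ((n : ℝ) + m) • y = (m : ℝ) • x + (n : ℝ) • y := by module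
        rw [e] at this
        linarith
      · have := sector (u := y - x) (v := -x) h3
          (by rw [show -x - (y - x) = -y by abel, map_neg_eq_map]; exact h2) (m := (n : ℝ))
          (n := -(n + m)) (by linarith) (by linarith)
        have e : (n : ℝ) • (y - x) + -((n : ℝ) + m) • (-x) = (m : ℝ) • x + (n : ℝ) • y := by
          module
        rw [e] at this
        linarith
  · have hm' : (1 : ℝ) ≤ m := by exact_mod_cast hm
    simp only [Int.cast_zero, zero_smul, add_zero]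
    rw [map_smul_eq_mul, h1, Real.norm_eq_abs, abs_of_nonneg (by linarith)]
    linarith

theorem pack {x y : E} (h : Adm N x y) (m n : ℤ) (hmn : ¬(m = 0 ∧ n = 0)) :
    1 ≤ N ((m : ℝ) • x + (n : ℝ) • y) := by
  by_cases hn : 0 < n ∨ (n = 0 ∧ 0 < m)
  · exact pack_aux h m n hn
  · have := pack_aux h (-m) (-n) (by omega)
    rw [← map_neg_eq_map] at this
    convert this using 2
    push_cast
    module

theorem cover_edge {q u v z : E} (hu : N (q - u) ≤ 1) (hv : N (q - v) ≤ 1) {a b c : ℝ}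
    (ha : 0 ≤ a) (hb : 0 ≤ b) (hc : 0 ≤ c) (hs : a + b + c = 1)
    (hz : z = a • q + b • u + c • v) : N (z - u) ≤ 1 ∨ N (z - v) ≤ 1 := by
  have key : ∀ {u v : E} {b c : ℝ}, N (q - u) ≤ 1 → N (q - v) ≤ 1 → 0 ≤ c → c ≤ b →
      a + b + c = 1 → N (a • q + b • u + c • v - u) ≤ 1 := by
    intro u v b c hu hv hc hcb hs
    have e : a • q + b • u + c • v - u = (a + c) • (q - u) + (-c) • (q - v) := by
      have : b = 1 - a - c := by linarith
      rw [this]; module
    rw [e]
    refine (map_add_le_add N _ _).trans ?_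
    rw [map_smul_eq_mul, map_smul_eq_mul, Real.norm_eq_abs, Real.norm_eq_abs, abs_neg,
      abs_of_nonneg (by linarith), abs_of_nonneg hc]
    nlinarith
  rcases le_total c b with h | h
  · left; rw [hz]; exact key hu hv hc h hs
  · right; rw [hz, add_right_comm]; exact key hv hu hb h (by linarith)

theorem bary (z q : Fin 3 → ℝ) (hz : ∀ i, 0 ≤ z i) (hq : q 0 + q 1 + q 2 = 1) :
    ∃ l, 0 ≤ l ∧ (∀ i, 0 ≤ z i - l * q i) ∧ ∃ i, z i - l * q i = 0 := by
  have hne : (Finset.univ.filter fun i => 0 < q i).Nonempty := by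
    by_contra h
    rw [Finset.not_nonempty_iff_eq_empty, Finset.filter_eq_empty_iff] at h
    have h0 := h (Finset.mem_univ 0)
    have h1 := h (Finset.mem_univ 1)
    have h2 := h (Finset.mem_univ 2)
    linarith [not_lt.1 h0, not_lt.1 h1, not_lt.1 h2]
  obtain ⟨i, hi, hmin⟩ := Finset.exists_min_image _ (fun i => z i / q i) hne
  have hqi : 0 < q i := (Finset.mem_filter.1 hi).2
  have hl : 0 ≤ z i / q i := div_nonneg (hz i) hqi.le
  refine ⟨z i / q i, hl, fun j => ?_, i, by field_simp; ring⟩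
  rcases lt_or_ge 0 (q j) with h | h
  · have := hmin j (Finset.mem_filter.2 ⟨Finset.mem_univ _, h⟩)
    rw [le_div_iff₀ h] at this
    linarith
  · nlinarith [hz j]

theorem cover_tri {q z v0 v1 v2 : E} (h0 : N (q - v0) ≤ 1) (h1 : N (q - v1) ≤ 1)
    (h2 : N (q - v2) ≤ 1) {z0 z1 z2 q0 q1 q2 : ℝ} (a0 : 0 ≤ z0) (a1 : 0 ≤ z1) (a2 : 0 ≤ z2)
    (hzs : z0 + z1 + z2 = 1) (hqs : q0 + q1 + q2 = 1) (hz : z = z0 • v0 + z1 • v1 + z2 • v2)
    (hq : q = q0 • v0 + q1 • v1 + q2 • v2) :
    N (z - v0) ≤ 1 ∨ N (z - v1) ≤ 1 ∨ N (z - v2) ≤ 1 := by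
  obtain ⟨l, hl, hall, i, hi⟩ := bary ![z0, z1, z2] ![q0, q1, q2]
    (fun i => by fin_cases i <;> simpa) (by simpa using hqs)
  have b0 : 0 ≤ z0 - l * q0 := by simpa using hall 0
  have b1 : 0 ≤ z1 - l * q1 := by simpa using hall 1
  have b2 : 0 ≤ z2 - l * q2 := by simpa using hall 2
  have e : z = l • q + (z0 - l * q0) • v0 + (z1 - l * q1) • v1 + (z2 - l * q2) • v2 := by
    rw [hz, hq]; module
  have hsum : l + (z0 - l * q0) + (z1 - l * q1) + (z2 - l * q2) = 1 := by
    have : l * (q0 + q1 + q2) = l := by rw [hqs, mul_one]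
    linarith
  fin_cases i
  · have hi' : z0 - l * q0 = 0 := by simpa using hi
    rw [hi'] at e hsum
    have := cover_edge h1 h2 hl b1 b2 (by linarith) (z := z) (by rw [e]; module)
    tauto
  · have hi' : z1 - l * q1 = 0 := by simpa using hi
    rw [hi'] at e hsum
    have := cover_edge h0 h2 hl b0 b2 (by linarith) (z := z) (by rw [e]; module)
    tauto
  · have hi' : z2 - l * q2 = 0 := by simpa using hi
    rw [hi'] at e hsum
    have := cover_edge h0 h1 hl b0 b1 (by linarith) (z := z) (by rw [e]; module)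
    tauto

theorem cover {p q r : E} (hp : N p ≤ 1) (hq : N q ≤ 1) (hr : N r ≤ 1)
    (hw : w (p + q) (q + r) ≠ 0) (z : E) :
    ∃ m n : ℤ, N (z - ((m : ℝ) • (p + q) + (n : ℝ) • (q + r))) ≤ 1 := by
  set a := p + q with ha
  set b := q + r with hb
  obtain ⟨s, t, hz⟩ : ∃ s t : ℝ, z = s • a + t • b := ⟨_, _, decomp hw z⟩
  obtain ⟨q1, q2, hq'⟩ : ∃ s t : ℝ, q = s • a + t • b := ⟨_, _, decomp hw q⟩
  have hs0 := Int.fract_nonneg s
  have hs1 := Int.fract_lt_one s
  have ht0 := Int.fract_nonneg t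
  have ht1 := Int.fract_lt_one t
  have es : s = ⌊s⌋ + Int.fract s := (Int.floor_add_fract s).symm
  have et : t = ⌊t⌋ + Int.fract t := (Int.floor_add_fract t).symm
  set z' : E := Int.fract s • a + Int.fract t • b with hz'
  have ez : z = z' + ((⌊s⌋ : ℝ) • a + (⌊t⌋ : ℝ) • b) := by
    rw [hz, hz']; conv_lhs => rw [es, et]
    module
  have fin : ∀ i j : ℤ, N (z' - ((i : ℝ) • a + (j : ℝ) • b)) ≤ 1 →
      ∃ m n : ℤ, N (z - ((m : ℝ) • a + (n : ℝ) • b)) ≤ 1 := by
    intro i j h
    refine ⟨⌊s⌋ + i, ⌊t⌋ + j, ?_⟩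
    convert h using 2
    rw [ez]; push_cast; module
  rcases le_total (Int.fract s + Int.fract t) 1 with h | h
  · have := cover_tri (N := N) (q := q) (z := z') (v0 := 0) (v1 := a) (v2 := b) (by simpa using hq)
      (by rw [ha, show q - (p + q) = -p by abel, map_neg_eq_map]; exact hp)
      (by rw [hb, show q - (q + r) = -r by abel, map_neg_eq_map]; exact hr)
      (z0 := 1 - Int.fract s - Int.fract t) (z1 := Int.fract s) (z2 := Int.fract t)
      (q0 := 1 - q1 - q2) (q1 := q1) (q2 := q2) (by linarith) hs0 ht0 (by ring) (by ring)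
      (by rw [hz']; module) (by rw [smul_zero, zero_add]; exact hq')
    rcases this with h | h | h
    · exact fin 0 0 (by simpa using h)
    · exact fin 1 0 (by simpa using h)
    · exact fin 0 1 (by simpa using h)
  · have := cover_tri (N := N) (q := a + b - q) (z := z') (v0 := a + b) (v1 := b) (v2 := a)
      (by rw [show a + b - q - (a + b) = -q by abel, map_neg_eq_map]; exact hq)
      (by rw [show a + b - q - b = p by rw [ha]; abel]; exact hp)
      (by rw [show a + b - q - a = r by rw [hb]; abel]; exact hr)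
      (z0 := Int.fract s + Int.fract t - 1) (z1 := 1 - Int.fract s) (z2 := 1 - Int.fract t)
      (q0 := 1 - q1 - q2) (q1 := q1) (q2 := q2) (by linarith) (by linarith) (by linarith)
      (by ring) (by ring) (by rw [hz']; module)
      (by conv_lhs => rw [hq']
          module)
    rcases this with h | h | h
    · exact fin 1 1 (by simpa using h)
    · exact fin 0 1 (by simpa using h)
    · exact fin 1 0 (by simpa using h)

end

end Pool.Agent.Lib.MP_da2c1b_co
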