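import Pool.Agent.Lib.MP_da2c1b_co.Defs

namespace Pool.Agent.Lib.MP_da2c1b_co

open MeasureTheory Set Filter Metric Module Submodule
open scoped Pointwise Topology

/-- The integer span of a basis. -/
abbrev Lat (b : Basis (Fin 2) ℝ E) : AddSubgroup E := (span ℤ (Set.range b)).toAddSubgroup

/-- The family of lattice translates. -/
def latFam (b : Basis (Fin 2) ℝ E) (K : Set E) : Set (Set E) :=
  Set.range (fun l : Lat b => (fun x => (l : E) + x) '' K)

noncomputable def cnt (b : Basis (Fin 2) ℝ E) (s : ℝ) : ENNReal :=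
  ∑' l : Lat b, if ‖(l : E)‖ ≤ s then 1 else 0

instance (b : Basis (Fin 2) ℝ E) : Countable (Lat b) :=
  inferInstanceAs (Countable (span ℤ (Set.range b)))

theorem vol_translate (l : E) (K : Set E) : volume ((fun x => l + x) '' K) = volume K := by
  rw [image_add_left]; exact measure_preimage_add _ _ _

theorem translate_injective {K : Set E} (hK : Bornology.IsBounded K) (hne : K.Nonempty)
    {l m : E} (h : (fun x => l + x) '' K = (fun x => m + x) '' K) : l = m := by
  by_contra hlm
  obtain ⟨R, hR⟩ := hK.exists_norm_le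
  have step : ∀ x ∈ K, x + (l - m) ∈ K := by
    intro x hx
    have : l + x ∈ (fun x => m + x) '' K := h ▸ ⟨x, hx, rfl⟩
    obtain ⟨y, hy, hyx⟩ := this
    have : y = x + (l - m) := by
      simp only at hyx
      have : y = l + x - m := by rw [← hyx]; abel
      rw [this]; abel
    exact this ▸ hy
  obtain ⟨x, hx⟩ := hne
  have hn : ∀ n : ℕ, x + (n : ℝ) • (l - m) ∈ K := by
    intro n
    induction n with
    | zero => simpa using hx
    | succ n ih =>
      have := step _ ih
      convert this using 1
      push_cast; rw [add_smul, one_smul, add_assoc]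
  have hpos : 0 < ‖l - m‖ := norm_pos_iff.2 (sub_ne_zero.2 hlm)
  obtain ⟨n, hn'⟩ := exists_nat_gt ((2 * R) / ‖l - m‖)
  have h1 := hR _ (hn n)
  have h2 := hR _ hx
  have h3 : ‖(n : ℝ) • (l - m)‖ ≤ ‖x + (n : ℝ) • (l - m)‖ + ‖x‖ := by
    have := norm_sub_le (x + (n : ℝ) • (l - m)) x
    simpa using this
  rw [norm_smul, Real.norm_natCast] at h3
  rw [div_lt_iff₀ hpos] at hn'
  linarith

theorem sum_latFam (b : Basis (Fin 2) ℝ E) {K : Set E} (hK : Bornology.IsBounded K)
    (hne : K.Nonempty) (T : Set E) :
    (∑' C : latFam b K, volume ((C : Set E) ∩ T)) =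
      ∑' l : Lat b, volume (((fun x => (l : E) + x) '' K) ∩ T) := by
  have hinj : Function.Injective (fun l : Lat b => (fun x => (l : E) + x) '' K) := by
    intro l m h
    exact Subtype.ext (translate_injective hK hne h)
  unfold latFam
  exact (tsum_range (fun C : Set E => volume (C ∩ T)) hinj)

theorem sum_le_cnt (b : Basis (Fin 2) ℝ E) {K : Set E} {R : ℝ} (hR : ∀ x ∈ K, ‖x‖ ≤ R) (r : ℝ) :
    (∑' l : Lat b, volume (((fun x => (l : E) + x) '' K) ∩ closedBall 0 r)) ≤
      cnt b (r + R) * volume K := by
  unfold cnt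
  rw [← ENNReal.tsum_mul_right]
  refine ENNReal.tsum_le_tsum fun l => ?_
  split_ifs with h
  · rw [one_mul, ← vol_translate (l : E) K]
    exact measure_mono inter_subset_left
  · have : ((fun x => (l : E) + x) '' K) ∩ closedBall 0 r = ∅ := by
      rw [eq_empty_iff_forall_notMem]
      rintro _ ⟨⟨x, hx, rfl⟩, h2⟩
      apply h
      simp only [mem_closedBall, dist_zero_right] at h2
      have := norm_sub_le ((l : E) + x) x
      simp only [add_sub_cancel_right] at this
      linarith [hR x hx]
    rw [this]; simp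

theorem cnt_le_sum (b : Basis (Fin 2) ℝ E) {K : Set E} {R : ℝ} (hR : ∀ x ∈ K, ‖x‖ ≤ R) (r : ℝ) :
    cnt b (r - R) * volume K ≤
      (∑' l : Lat b, volume (((fun x => (l : E) + x) '' K) ∩ closedBall 0 r)) := by
  unfold cnt
  rw [← ENNReal.tsum_mul_right]
  refine ENNReal.tsum_le_tsum fun l => ?_
  split_ifs with h
  · rw [one_mul, ← vol_translate (l : E) K]
    apply measure_mono
    rintro _ ⟨x, hx, rfl⟩
    refine ⟨⟨x, hx, rfl⟩, ?_⟩
    simp only [mem_closedBall, dist_zero_right]
    have := norm_add_le (l : E) x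
    linarith [hR x hx]
  · simp

theorem ball_eq_sum (b : Basis (Fin 2) ℝ E) (r : ℝ) :
    volume (closedBall (0 : E) r) =
      ∑' l : Lat b, volume (((fun x => (l : E) + x) '' ZSpan.fundamentalDomain b) ∩
        closedBall 0 r) := by
  have h := (ZSpan.isAddFundamentalDomain' b (volume : Measure E)).measure_eq_tsum'
    (closedBall (0 : E) r)
  rw [h]
  refine tsum_congr fun l => ?_
  rw [inter_comm]
  rfl

theorem vol_ball (r : ℝ) (hr : 0 ≤ r) :
    volume (closedBall (0 : E) r) = ENNReal.ofReal (r ^ 2) * volume (ball (0 : E) 1) := by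
  rw [Measure.addHaar_closedBall _ _ hr]
  simp

theorem tendsto_ratio (c : ℝ) :
    Tendsto (fun r : ℝ => volume (closedBall (0 : E) (r + c)) / volume (closedBall (0 : E) r))
      atTop (𝓝 1) := by
  have h0 : volume (ball (0 : E) 1) ≠ 0 := (measure_ball_pos _ _ one_pos).ne'
  have h1 : volume (ball (0 : E) 1) ≠ ⊤ := measure_ball_lt_top.ne
  have hlim : Tendsto (fun r : ℝ => ENNReal.ofReal ((1 + c / r) ^ 2)) atTop (𝓝 1) := by
    have : Tendsto (fun r : ℝ => (1 + c / r) ^ 2) atTop (𝓝 ((1 + 0) ^ 2)) :=
      (tendsto_const_nhds.add (tendsto_const_nhds.div_atTop tendsto_id)).pow 2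
    simpa using ENNReal.tendsto_ofReal this
  refine hlim.congr' ?_
  filter_upwards [eventually_gt_atTop (0 : ℝ), eventually_ge_atTop (-c)] with r hr hc
  rw [vol_ball r hr.le, vol_ball (r + c) (by linarith), ENNReal.mul_div_mul_right _ _ h0 h1,
    ← ENNReal.ofReal_div_of_pos (by positivity)]
  congr 1
  field_simp

theorem dens_bounds (b : Basis (Fin 2) ℝ E) {K : Set E} (hK : Bornology.IsBounded K)
    (hne : K.Nonempty) (hfin : volume K ≠ ⊤) :
    volume K / volume (ZSpan.fundamentalDomain b) ≤ limsup (dens (latFam b K)) atTop ∧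
    liminf (dens (latFam b K)) atTop ≤ volume K / volume (ZSpan.fundamentalDomain b) := by
  obtain ⟨R, hR⟩ := hK.exists_norm_le
  obtain ⟨R', hR'⟩ := (ZSpan.fundamentalDomain_isBounded b).exists_norm_le
  set D := ZSpan.fundamentalDomain b with hD
  have hD0 : volume D ≠ 0 := ZSpan.measure_fundamentalDomain_ne_zero b
  have hD1 : volume D ≠ ⊤ := (ZSpan.fundamentalDomain_isBounded b).measure_lt_top.ne
  have hq : volume K / volume D ≠ ⊤ := ENNReal.div_ne_top hfin hD0
  constructor
  · have hl : Tendsto (fun r : ℝ => volume K / volume D *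
        (volume (closedBall (0 : E) (r + (-R - R'))) / volume (closedBall (0 : E) r)))
        atTop (𝓝 (volume K / volume D)) := by
      have := ENNReal.Tendsto.const_mul (a := volume K / volume D) (tendsto_ratio (-R - R'))
        (Or.inr hq)
      simpa using this
    rw [← hl.limsup_eq]
    refine limsup_le_limsup (Eventually.of_forall fun r => ?_)
    unfold dens
    beta_reduce
    rw [sum_latFam b hK hne, ← mul_div_assoc]
    apply ENNReal.div_le_div_right
    refine le_trans ?_ (cnt_le_sum b hR r)
    have h2 : volume (closedBall (0 : E) (r + (-R - R'))) ≤ cnt b (r - R) * volume D := by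
      rw [ball_eq_sum b]
      have := sum_le_cnt b hR' (r + (-R - R'))
      rwa [show r + (-R - R') + R' = r - R by ring] at this
    calc volume K / volume D * volume (closedBall (0 : E) (r + (-R - R')))
        ≤ volume K / volume D * (cnt b (r - R) * volume D) := by gcongr
      _ = cnt b (r - R) * (volume K / volume D * volume D) := by ring
      _ = cnt b (r - R) * volume K := by rw [ENNReal.div_mul_cancel hD0 hD1]
  · have hl : Tendsto (fun r : ℝ => volume K / volume D *
        (volume (closedBall (0 : E) (r + (R + R'))) / volume (closedBall (0 : E) r)))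
        atTop (𝓝 (volume K / volume D)) := by
      have := ENNReal.Tendsto.const_mul (a := volume K / volume D) (tendsto_ratio (R + R'))
        (Or.inr hq)
      simpa using this
    rw [← hl.liminf_eq]
    refine liminf_le_liminf (Eventually.of_forall fun r => ?_)
    unfold dens
    rw [sum_latFam b hK hne, ← mul_div_assoc]
    apply ENNReal.div_le_div_right
    refine le_trans (sum_le_cnt b hR r) ?_
    have h2 : cnt b (r + R) * volume D ≤ volume (closedBall (0 : E) (r + (R + R'))) := by
      rw [ball_eq_sum b]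
      have := cnt_le_sum b hR' (r + (R + R'))
      rwa [show r + (R + R') - R' = r + R by ring] at this
    calc cnt b (r + R) * volume K = cnt b (r + R) * (volume K / volume D * volume D) := by
          rw [ENNReal.div_mul_cancel hD0 hD1]
      _ = volume K / volume D * (cnt b (r + R) * volume D) := by ring
      _ ≤ _ := by gcongr

theorem copies_latFam (b : Basis (Fin 2) ℝ E) (K : Set E) : Copies K (latFam b K) := by
  rintro _ ⟨l, rfl⟩
  exact ⟨IsometryEquiv.addLeft (l : E), rfl⟩

end Pool.Agent.Lib.MP_da2c1b_co
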