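import Pool.Agent.Lib.MP_da2c1b_co.Rigid
import Pool.Agent.Lib.MP_da2c1b_co.Lattice

namespace Pool.Agent.Lib.MP_da2c1b_co

open MeasureTheory Set Filter Metric Module Submodule
open scoped Topology

theorem exists_basis {a b : E} (h : w a b ≠ 0) :
    ∃ B : Basis (Fin 2) ℝ E, B 0 = a ∧ B 1 = b := by
  have hli : LinearIndependent ℝ ![a, b] := by
    rw [LinearIndependent.pair_iff]
    intro s t hst
    have h0 := congrArg (fun v : E => v 0) hst
    have h1 := congrArg (fun v : E => v 1) hst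
    simp only [PiLp.add_apply, PiLp.smul_apply, smul_eq_mul, PiLp.zero_apply] at h0 h1
    constructor
    · apply mul_left_cancel₀ h
      unfold w
      linear_combination (b 1) * h0 - (b 0) * h1
    · apply mul_left_cancel₀ h
      unfold w
      linear_combination (a 0) * h1 - (a 1) * h0
  refine ⟨basisOfLinearIndependentOfCardEqFinrank hli (by simp), ?_, ?_⟩ <;> simp

/-- The standard basis. -/
noncomputable def B0 : Basis (Fin 2) ℝ E := (EuclideanSpace.basisFun (Fin 2) ℝ).toBasis

theorem vol_fund (B : Basis (Fin 2) ℝ E) :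
    volume (ZSpan.fundamentalDomain B) =
      ENNReal.ofReal |w (B 0) (B 1)| * volume (ZSpan.fundamentalDomain B0) := by
  rw [ZSpan.measure_fundamentalDomain B volume B0]
  congr 3
  rw [Basis.det_apply, Matrix.det_fin_two]
  simp [Basis.toMatrix_apply, B0, w]
  ring

theorem mem_lat (B : Basis (Fin 2) ℝ E) (l : E) :
    l ∈ Lat B ↔ ∃ m n : ℤ, l = (m : ℝ) • B 0 + (n : ℝ) • B 1 := by
  change l ∈ span ℤ (Set.range B) ↔ _
  rw [Submodule.mem_span_range_iff_exists_fun]
  constructor
  · rintro ⟨c, hc⟩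
    refine ⟨c 0, c 1, ?_⟩
    rw [← hc, Fin.sum_univ_two, Int.cast_smul_eq_zsmul, Int.cast_smul_eq_zsmul]
  · rintro ⟨m, n, h⟩
    refine ⟨![m, n], ?_⟩
    rw [h, Fin.sum_univ_two, Int.cast_smul_eq_zsmul, Int.cast_smul_eq_zsmul]
    simp

theorem interior_translate (l : E) (K : Set E) :
    interior ((fun x => l + x) '' K) = (fun x => l + x) '' interior K :=
  ((Homeomorph.addLeft l).image_interior K).symm

section

variable {N : Seminorm ℝ E} {K : Set E} {c : E}

theorem isPacking_latFam (hint : ∀ x ∈ interior K, N (x - c) < 1) {x y : E} (h : Adm N x y)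
    (B : Basis (Fin 2) ℝ E) (h0 : B 0 = (2 : ℝ) • x) (h1 : B 1 = (2 : ℝ) • y) :
    IsPacking K (latFam B K) := by
  refine ⟨copies_latFam B K, ?_⟩
  rintro _ ⟨l, rfl⟩ _ ⟨l', rfl⟩ hne
  simp only [interior_translate]
  rw [Set.disjoint_left]
  rintro _ ⟨u, hu, rfl⟩ ⟨v, hv, huv⟩
  obtain ⟨m, n, hmn⟩ := (mem_lat B _).1 (l - l').2
  have hz : ¬(m = 0 ∧ n = 0) := by
    rintro ⟨rfl, rfl⟩
    apply hne
    have : l - l' = 0 := Subtype.ext (by simpa using hmn)
    rw [sub_eq_zero.1 this]
  have k := pack h m n hz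
  have e : (2 : ℝ) • ((m : ℝ) • x + (n : ℝ) • y) = (v - c) - (u - c) := by
    have e1 : (l : E) - l' = v - u := by
      simp only at huv
      rw [sub_eq_sub_iff_add_eq_add, ← huv]; abel
    have e2 : (l : E) - l' = (m : ℝ) • B 0 + (n : ℝ) • B 1 := hmn
    rw [h0, h1] at e2
    rw [sub_sub_sub_cancel_right, ← e1, e2]; module
  have k2 := map_sub_le_add N (v - c) (u - c)
  rw [← e, map_smul_eq_mul] at k2
  have := hint u hu
  have := hint v hv
  norm_num at k2
  linarith

theorem isCovering_latFam (hK : ∀ x, N (x - c) ≤ 1 → x ∈ K) {p q r : E} (hp : N p ≤ 1)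
    (hq : N q ≤ 1) (hr : N r ≤ 1) (hw : w (p + q) (q + r) ≠ 0)
    (B : Basis (Fin 2) ℝ E) (h0 : B 0 = p + q) (h1 : B 1 = q + r) :
    IsCovering K (latFam B K) := by
  refine ⟨copies_latFam B K, ?_⟩
  rw [eq_univ_iff_forall]
  intro z
  obtain ⟨m, n, hmn⟩ := cover hp hq hr hw (z - c)
  let l : Lat B := ⟨(m : ℝ) • B 0 + (n : ℝ) • B 1, (mem_lat B _).2 ⟨m, n, rfl⟩⟩
  refine ⟨_, ⟨l, rfl⟩, z - l, hK _ ?_, by simp⟩
  convert hmn using 2
  simp only [l, h0, h1]
  abel

theorem extremal_of_ratio (hb : Bornology.IsBounded K) (hne : K.Nonempty)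
    (hv0 : volume K ≠ 0) (hv1 : volume K ≠ ⊤)
    (hint : ∀ x ∈ interior K, N (x - c) < 1) (hK : ∀ x, N (x - c) ≤ 1 → x ∈ K)
    (h : pd K / cd K ≤ 3 / 4) : Extremal N := by
  intro x y hxy p q r hp hq hr
  have hw := hxy.2.2.2
  by_contra hlt
  push Not at hlt
  have e1 : w (p + q) (q + r) = w p q + w q r + w p r := by simp [w]; ring
  have e2 : w ((2 : ℝ) • x) ((2 : ℝ) • y) = 4 * w x y := by simp [w]; ring
  set H := w p q + w q r + w p r with hH
  have hH0 : 0 < H := by linarith
  obtain ⟨B, b0, b1⟩ := exists_basis (a := (2 : ℝ) • x) (b := (2 : ℝ) • y)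
    (by rw [e2]; positivity)
  obtain ⟨B', b0', b1'⟩ := exists_basis (a := p + q) (b := q + r) (by rw [e1]; exact hH0.ne')
  have k1 : volume K / volume (ZSpan.fundamentalDomain B) ≤ pd K :=
    (dens_bounds B hb hne hv1).1.trans
      (le_iSup₂_of_le (latFam B K) (isPacking_latFam hint hxy B b0 b1) le_rfl)
  have k2 : cd K ≤ volume K / volume (ZSpan.fundamentalDomain B') :=
    le_trans (iInf₂_le_of_le (latFam B' K)
      (isCovering_latFam hK hp hq hr (by rw [e1]; exact hH0.ne') B' b0' b1') le_rfl)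
      (dens_bounds B' hb hne hv1).2
  have k3 := (ENNReal.div_le_div k1 k2).trans h
  rw [vol_fund B, vol_fund B', b0, b1, b0', b1', e1, e2, abs_of_pos hH0,
    abs_of_pos (by positivity)] at k3
  have hD0 : volume (ZSpan.fundamentalDomain B0) ≠ 0 := ZSpan.measure_fundamentalDomain_ne_zero _
  have hD1 : volume (ZSpan.fundamentalDomain B0) ≠ ⊤ :=
    (ZSpan.fundamentalDomain_isBounded B0).measure_lt_top.ne
  lift volume K to NNReal using hv1 with a ha
  lift volume (ZSpan.fundamentalDomain B0) to NNReal using hD1 with k hk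
  have ha0 : (0 : ℝ) < a := by
    have : a ≠ 0 := by simpa using hv0
    positivity
  have hk0 : (0 : ℝ) < k := by
    have : k ≠ 0 := by simpa using hD0
    positivity
  have e3 : (3 / 4 : ENNReal) = ENNReal.ofReal (3 / 4) := by
    rw [ENNReal.ofReal_div_of_pos (by norm_num)]; simp
  rw [← ENNReal.ofReal_coe_nnreal, ← ENNReal.ofReal_coe_nnreal (p := k),
    ← ENNReal.ofReal_mul (by positivity), ← ENNReal.ofReal_mul (by positivity),
    ← ENNReal.ofReal_div_of_pos (by positivity), ← ENNReal.ofReal_div_of_pos (by positivity),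
    ← ENNReal.ofReal_div_of_pos (by positivity), e3,
    ENNReal.ofReal_le_ofReal_iff (by norm_num)] at k3
  have e4 : (a : ℝ) / (4 * w x y * k) / (a / (H * k)) = H / (4 * w x y) := by field_simp
  rw [e4, div_le_iff₀ (by positivity)] at k3
  linarith

end

theorem main (K : Set E) (hc : IsCompact K) (hconv : Convex ℝ K) (hne : (interior K).Nonempty)
    (c : E) (hs : ∀ x ∈ K, c + (c - x) ∈ K) (h : pd K / cd K ≤ 3 / 4) :
    ∃ A : E ≃ₗ[ℝ] E, K = (fun z => c + A z) '' closedBall 0 1 := by
  set K0 : Set E := (fun x => c + x) ⁻¹' K with hK0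
  have hconv0 : Convex ℝ K0 := hconv.translate_preimage_right c
  have hneg : ∀ x ∈ K0, -x ∈ K0 := by
    intro x hx
    have := hs _ hx
    simpa [hK0] using this
  have hint0 : interior K0 = (fun x => c + x) ⁻¹' interior K :=
    ((Homeomorph.addLeft c).preimage_interior K).symm
  have h0 : K0 ∈ 𝓝 (0 : E) := by
    obtain ⟨u, hu⟩ := hne
    have h1 : u - c ∈ interior K0 := by rw [hint0]; simpa using hu
    have h2 : -(u - c) ∈ K0 := hneg _ (interior_subset h1)
    have := hconv0.combo_interior_self_mem_interior h1 h2 (a := 1 / 2) (b := 1 / 2)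
      (by norm_num) (by norm_num) (by norm_num)
    rw [← mem_interior_iff_mem_nhds]
    convert this using 1
    module
  have hbal : Balanced ℝ K0 := (balanced_iff_neg_mem hconv0).2 fun x hx => hneg x hx
  have habs : Absorbent ℝ K0 := absorbent_nhds_zero h0
  have hcl : IsClosed K0 := hc.isClosed.preimage (by fun_prop)
  let N : Seminorm ℝ E := gaugeSeminorm hbal hconv0 habs
  have hN : ∀ x, N x = gauge K0 x := fun x => rfl
  have hmem : ∀ x, N x ≤ 1 ↔ x ∈ K0 := by
    intro x
    rw [hN, gauge_le_one_iff_mem_closure hconv0 h0, hcl.closure_eq]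
  obtain ⟨R0, hR0⟩ := hc.isBounded.exists_norm_le
  have hRpos : 0 < |R0| + ‖c‖ + 1 := by positivity
  have hR : ∀ x, ‖x‖ ≤ (|R0| + ‖c‖ + 1) * N x := by
    intro x
    have := le_gauge_of_subset_closedBall habs hRpos.le (x := x) (by
      intro z hz
      have h1 := hR0 _ hz
      have h2 := norm_sub_le (c + z) c
      simp only [add_sub_cancel_left] at h2
      simp only [mem_closedBall, dist_zero_right]
      linarith [le_abs_self R0])
    rw [div_le_iff₀ hRpos] at this
    rw [hN]; linarith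
  obtain ⟨L, hL⟩ := hconv0.lipschitz_gauge h0
  have hL' : ∀ x, N x ≤ L * ‖x‖ := by
    intro x
    have := hL.dist_le_mul x 0
    rw [gauge_zero, dist_zero_right, dist_zero_right] at this
    exact (le_abs_self _).trans this
  have hex : Extremal N := by
    refine extremal_of_ratio (c := c) hc.isBounded (hne.mono interior_subset)
      (Measure.measure_pos_of_nonempty_interior _ hne).ne' hc.measure_lt_top.ne ?_ ?_ h
    · intro x hx
      rw [hN, gauge_lt_one_iff_mem_interior hconv0 h0, hint0]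
      simpa using hx
    · intro x hx
      simpa [hK0] using (hmem _).1 hx
  obtain ⟨A, hA⟩ := hex.ellipse hR hL'
  refine ⟨A, ?_⟩
  ext x
  constructor
  · intro hx
    refine ⟨A.symm (x - c), ?_, by simp⟩
    rw [mem_closedBall, dist_zero_right, ← hA, A.apply_symm_apply, hmem]
    simpa [hK0] using hx
  · rintro ⟨z, hz, rfl⟩
    rw [mem_closedBall, dist_zero_right, ← hA, hmem] at hz
    exact hz

end Pool.Agent.Lib.MP_da2c1b_co
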