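import Pool.Agent.Lib.MP_da2c1b_co.Ext

namespace Pool.Agent.Lib.MP_da2c1b_co

open Set Filter Metric
open scoped Topology

variable {K : Set E} {N : Seminorm ℝ E} {m R L M : ℝ}

theorem Cfg.neg {x A v : E} (c : Cfg K N m x A v) : Cfg K N m (-x) (A + x + v) (-v) := by
  refine ⟨by rw [map_neg_eq_map]; exact c.hx, c.hD, ?_, ?_, ?_, ?_⟩
  · convert c.hE using 1; abel
  · convert c.hB using 1; abel
  · convert c.hA using 1; abel
  · rw [w_neg_left, w_neg_right, neg_neg]; exact c.hw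

theorem Mul.neg {x A v : E} {a b : ℝ} (c : Cfg K N m x A v) (u : Mul K m x A v a b) :
    Mul K m (-x) (A + x + v) (-v) (-a) (-b) := by
  have e1 : ∀ P, w (-x) (P - (A + x + v)) = -(w x (P - A) - m) := by
    intro P; rw [← c.hw]; simp [w]; ring
  have e2 : ∀ P, w (P - (A + x + v)) (-v) = -(w (P - A) v - m) := by
    intro P; rw [← c.hw]; simp [w]; ring
  refine ⟨fun P hP => ?_, fun P hP => ?_, fun P hP => ?_, fun P hP => ?_⟩ <;> rw [e1, e2]
  · have := u.tD P hP; linarith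
  · have := u.tE P hP; linarith
  · have := u.tA P hP; linarith
  · have := u.tB P hP; linarith

theorem Ext.mul_bd (h : Ext K N m R L M) {x A v : E} {a b : ℝ} (c : Cfg K N m x A v)
    (u : Mul K m x A v a b) : |a| ≤ 3 / 2 ∧ |b| ≤ 1 / 2 := by
  have hm := h.mpos
  have hw := c.hw
  have k1 := u.tA _ c.hB
  have k2 := u.tA _ c.hE
  have k3 := u.tB _ c.hD
  have k4 := u.tD _ c.hE
  rw [show A + x - A = x by abel, w_self, hw] at k1
  rw [show A + v - A = v by abel, w_self, hw] at k2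
  rw [show A + x + v - A = x + v by abel, w_add_left, w_add_right, w_self, w_self, hw] at k3
  rw [show A + v - A = v by abel, w_self, hw] at k4
  refine ⟨abs_le.2 ⟨?_, ?_⟩, abs_le.2 ⟨?_, ?_⟩⟩ <;> by_contra hn <;> push Not at hn <;> nlinarith

theorem Ext.M_nonneg (h : Ext K N m R L M) : 0 ≤ M := by
  obtain ⟨P, hP⟩ := h.int
  exact (norm_nonneg _).trans (h.bdd P (interior_subset hP))

theorem Ext.diam (h : Ext K N m R L M) {P Q : E} (hP : P ∈ K) (hQ : Q ∈ K) : ‖P - Q‖ ≤ 2 * M := by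
  have := norm_sub_le P Q
  linarith [h.bdd P hP, h.bdd Q hQ]

theorem Ext.x_le (h : Ext K N m R L M) {x A v : E} (c : Cfg K N m x A v) : ‖x‖ ≤ 2 * M := by
  simpa using h.diam c.hB c.hA

theorem Ext.v_le (h : Ext K N m R L M) {x A v : E} (c : Cfg K N m x A v) : ‖v‖ ≤ 2 * M := by
  simpa using h.diam c.hE c.hA

theorem Ext.frame (h : Ext K N m R L M) {x A v : E} (c : Cfg K N m x A v) (p : E) :
    ∃ s t : ℝ, p = s • x + t • v ∧ |s| ≤ 4 * M / m * ‖p‖ ∧ |t| ≤ 4 * M / m * ‖p‖ := by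
  have hm := h.mpos
  have e := decomp (x := x) (y := v) (by rw [c.hw]; exact hm.ne') p
  rw [c.hw] at e
  refine ⟨_, _, e, ?_, ?_⟩
  · rw [abs_div, abs_of_pos hm, div_mul_eq_mul_div]
    gcongr
    have := abs_w_le p v
    have := h.v_le c
    nlinarith [norm_nonneg p]
  · rw [abs_div, abs_of_pos hm, div_mul_eq_mul_div]
    gcongr
    have := abs_w_le x p
    have := h.x_le c
    nlinarith [norm_nonneg p]

theorem Ext.coords (h : Ext K N m R L M) {x A v x' A' v' : E} {a b : ℝ} (c : Cfg K N m x A v)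
    (u : Mul K m x A v a b) (c' : Cfg K N m x' A' v') :
    ∃ d η a1 a2 e1 e2 : ℝ, x' = x + (d • x + η • v) ∧ A' = A + (a1 • x + a2 • v) ∧
      A' + v' = A + v + (e1 • x + e2 • v) ∧
      |d| ≤ 4 * M / m * ‖x' - x‖ ∧ |η| ≤ 4 * M / m * ‖x' - x‖ ∧
      |a1| ≤ 8 * M ^ 2 / m ∧ |a2| ≤ 8 * M ^ 2 / m ∧ |e1| ≤ 8 * M ^ 2 / m ∧
      |e2| ≤ 8 * M ^ 2 / m ∧ d ≤ 0 ∧
      0 ≤ (a + 3 / 2) * a2 + (1 / 2 - b) * a1 ∧
      0 ≤ (3 / 2 - a) * (a2 + η) - (1 / 2 - b) * (a1 + d) ∧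
      0 ≤ (a - 3 / 2) * (e2 + η) - (1 / 2 + b) * (e1 + d) ∧
      0 ≤ -(a + 3 / 2) * e2 + (1 / 2 + b) * e1 ∧
      (1 + d) * (1 + e2 - a2) - η * (e1 - a1) = 1 := by
  have hm := h.mpos
  have hM := h.M_nonneg
  have hw := c.hw
  obtain ⟨d, η, ex, b1, b2⟩ := h.frame c (x' - x)
  obtain ⟨a1, a2, eA, b3, b4⟩ := h.frame c (A' - A)
  obtain ⟨e1, e2, eE, b5, b6⟩ := h.frame c (A' + v' - (A + v))
  have n1 := h.diam c'.hA c.hA
  have n2 := h.diam c'.hE c.hE
  have hb : ∀ t : ℝ, t ≤ 2 * M → 4 * M / m * t ≤ 8 * M ^ 2 / m := by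
    intro t ht
    calc 4 * M / m * t ≤ 4 * M / m * (2 * M) := by gcongr
      _ = _ := by ring
  have fx : x' = x + (d • x + η • v) := by rw [← ex]; abel
  have fA : A' = A + (a1 • x + a2 • v) := by rw [← eA]; abel
  have fE : A' + v' = A + v + (e1 • x + e2 • v) := by rw [← eE]; abel
  have fv : v' = v + ((e1 - a1) • x + (e2 - a2) • v) := by
    have : v' = (A' + v') - A' := by abel
    rw [this, fE, fA]; module
  have cx : ∀ s t : ℝ, w x (s • x + t • v) = t * m := by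
    intro s t; rw [← hw]; simp [w]; ring
  have cv : ∀ s t : ℝ, w (s • x + t • v) v = s * m := by
    intro s t; rw [← hw]; simp [w]; ring
  have div : ∀ {t : ℝ}, 0 ≤ t * m → 0 ≤ t := fun ht => nonneg_of_mul_nonneg_left ht hm
  refine ⟨d, η, a1, a2, e1, e2, fx, fA, fE, b1, b2, b3.trans (hb _ n1), b4.trans (hb _ n1),
    b5.trans (hb _ n2), b6.trans (hb _ n2), ?_, ?_, ?_, ?_, ?_, ?_⟩
  · have k := h.supp c c'.hx.le
    rw [fx, w_add_left, cv, hw] at k
    by_contra hn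
    push Not at hn
    nlinarith
  · have k := u.tA _ c'.hA
    rw [eA, cx, cv] at k
    apply div; linarith
  · have k := u.tB _ c'.hB
    rw [show A' + x' - A = (a1 + d + 1) • x + (a2 + η) • v by rw [fx, fA]; module, cx, cv] at k
    apply div; linarith
  · have k := u.tD _ c'.hD
    rw [show A' + x' + v' - A = (e1 + d + 1) • x + (e2 + η + 1) • v by
      rw [add_right_comm, fE, fx]; module, cx, cv] at k
    apply div; linarith
  · have k := u.tE _ c'.hE
    rw [show A' + v' - A = e1 • x + (e2 + 1) • v by rw [fE]; module, cx, cv] at k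
    apply div; linarith
  · have k := c'.hw
    have e : w x' v' = ((1 + d) * (1 + e2 - a2) - η * (e1 - a1)) * w x v := by
      rw [fx, fv]; simp [w]; ring
    rw [e, hw] at k
    exact mul_right_cancel₀ hm.ne' (by rw [k, one_mul])

theorem tilt {a C ε d η a1 a2 e1 e2 : ℝ} (ha : |a| ≤ 3 / 2) (h0 : 0 < η) (h1 : η ≤ ε)
    (h2 : |d| ≤ ε) (h3 : d ≤ 0) (h4 : ε ≤ 1 / 2) (b1 : |a1| ≤ C) (b2 : |e1| ≤ C) (h5 : 0 ≤ a2)
    (hD : 0 ≤ (a - 3 / 2) * (e2 + η) - (e1 + d)) (hE : 0 ≤ -(a + 3 / 2) * e2 + e1)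
    (har : (1 + d) * (1 + e2 - a2) - η * (e1 - a1) = 1) :
    a2 ≤ (12 * C + 1) * ε ∧ (3 / 2 - a) / 3 - (12 * C + 1) * ε ≤ a1 := by
  obtain ⟨ha1, ha2⟩ := abs_le.1 ha
  obtain ⟨d1, -⟩ := abs_le.1 h2
  obtain ⟨c1, c2⟩ := abs_le.1 b1
  obtain ⟨c3, c4⟩ := abs_le.1 b2
  have hC : 0 ≤ C := by linarith
  have hε : 0 < ε := by linarith
  have k1 : 3 * e2 ≤ (a - 3 / 2) * η - d := by linarith
  have k1' : (a - 3 / 2) * η ≤ 0 := by nlinarith
  have k2 : -(2 * C * ε) ≤ η * (e1 - a1) := by nlinarith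
  have k3 : -(4 * C * ε) ≤ e2 - a2 := by
    by_contra hn
    push Not at hn
    have : 0 ≤ C * ε := by positivity
    nlinarith
  have k4 : -(12 * C * ε) ≤ e1 := by
    have : 0 ≤ C * ε := by positivity
    nlinarith
  refine ⟨by nlinarith, ?_⟩
  have k5 : η * (e1 + (1 + d) * (3 / 2 - a) / 3) ≤ η * a1 := by
    have p1 : (1 + d) * (3 * e2) ≤ (1 + d) * ((a - 3 / 2) * η - d) :=
      mul_le_mul_of_nonneg_left k1 (by linarith)
    have p2 : 0 ≤ (1 + d) * a2 := mul_nonneg (by linarith) h5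
    have p3 : 0 ≤ -d * (2 - d) := mul_nonneg (by linarith) (by linarith)
    nlinarith
  have k6 := le_of_mul_le_mul_left k5 h0
  nlinarith

theorem Ext.lim_pt (h : Ext K N m R L M) {A x v : E} {X : ℝ} (hA : A ∈ K) (hX : 0 < X)
    (hh : ∀ ε, 0 < ε → ∃ s t : ℝ, A + (s • x + t • v) ∈ K ∧ X - ε ≤ s ∧ |t| ≤ ε) :
    A + X • x ∈ K := by
  rw [← h.closed.closure_eq, Metric.mem_closure_iff]
  intro r hr
  have hp : 0 < ‖x‖ + ‖v‖ + 1 := by positivity
  set ε := min (X / 2) (r / (‖x‖ + ‖v‖ + 1)) with hε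
  have e0 : 0 < ε := lt_min (by linarith) (by positivity)
  have e1 : ε ≤ X / 2 := min_le_left _ _
  have e2 : ε * (‖x‖ + ‖v‖ + 1) ≤ r := by
    rw [← le_div_iff₀ hp]; exact min_le_right _ _
  obtain ⟨s, t, h1, h2, h3⟩ := hh ε e0
  have hs : 0 < s := by linarith
  have q0 : 0 ≤ (X - ε) / s := div_nonneg (by linarith) hs.le
  have q1 : (X - ε) / s ≤ 1 := (div_le_one hs).2 h2
  refine ⟨_, h.seg hA h1 q0 q1, ?_⟩
  rw [dist_eq_norm]
  have e : A + X • x - (A + ((X - ε) / s) • (A + (s • x + t • v) - A)) =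
      ε • x + (-((X - ε) / s * t)) • v := by
    have : (X - ε) / s * s = X - ε := by field_simp
    rw [add_sub_cancel_left, smul_add, smul_smul, smul_smul, this]; module
  rw [e]
  refine (norm_add_le _ _).trans_lt ?_
  rw [norm_smul, norm_smul, Real.norm_eq_abs, Real.norm_eq_abs, abs_of_pos e0, abs_neg, abs_mul,
    abs_of_nonneg q0]
  have : (X - ε) / s * |t| ≤ 1 * ε := by gcongr
  nlinarith [norm_nonneg v, norm_nonneg x]

theorem Ext.near (h : Ext K N m R L M) {x A v : E} (c : Cfg K N m x A v) (σ : ℝ)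
    (hσ : σ = 1 ∨ σ = -1) {r : ℝ} (hr : 0 < r) :
    ∃ x', N x' = 1 ∧ ‖x' - x‖ < r ∧ 0 < σ * w x x' := by
  have hm := h.mpos
  have hne : ∀ t : ℝ, x + t • v ≠ 0 := by
    intro t ht
    have := congrArg (fun p => w p v) ht
    simp only [w_add_left, w_smul_left, w_self, c.hw, w_zero_left] at this
    linarith
  have hc : Continuous fun t : ℝ => (N (x + t • v))⁻¹ • (x + t • v) := by
    have : Continuous fun t : ℝ => N (x + t • v) := (N_cont h.hL).comp (by fun_prop)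
    exact (this.inv₀ fun t => (N_pos h.hR (hne t)).ne').smul (by fun_prop)
  have h0 := Metric.continuous_iff.1 hc 0 r hr
  obtain ⟨δ, hδ, h1⟩ := h0
  have hσ2 : σ * σ = 1 := by rcases hσ with rfl | rfl <;> norm_num
  have hσa : |σ| = 1 := by rcases hσ with rfl | rfl <;> norm_num
  refine ⟨_, N_normalize h.hR (hne (σ * (δ / 2))), ?_, ?_⟩
  · have := h1 (σ * (δ / 2)) (by
      rw [dist_zero_right, Real.norm_eq_abs, abs_mul, hσa, abs_of_pos (by linarith)]; linarith)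
    simpa [dist_eq_norm, c.hx] using this
  · rw [w_smul_right, w_add_right, w_smul_right, w_self, c.hw]
    have := inv_pos.2 (N_pos h.hR (hne (σ * (δ / 2))))
    have e : σ * ((N (x + (σ * (δ / 2)) • v))⁻¹ * (0 + σ * (δ / 2) * m)) =
        (σ * σ) * ((N (x + (σ * (δ / 2)) • v))⁻¹ * (δ / 2 * m)) := by ring
    rw [e, hσ2]
    positivity

theorem Ext.half_mem (h : Ext K N m R L M) {P Q : E} (hP : P ∈ K) (hQ : Q ∈ K) :
    N ((1 / 2 : ℝ) • (P - Q)) ≤ 1 := by
  rw [h.hN]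
  refine ⟨Q, hQ, ?_⟩
  convert hP using 1
  module

theorem Ext.Nv_ge (h : Ext K N m R L M) {x A v : E} (c : Cfg K N m x A v) :
    0 < (N v)⁻¹ ∧ (N v)⁻¹ ≤ 2 / 3 ∧ N ((N v)⁻¹ • v) = 1 := by
  have hm := h.mpos
  have hv : v ≠ 0 := by
    rintro rfl
    have := c.hw
    rw [w_zero_right] at this
    linarith
  have h1 := N_normalize h.hR hv
  obtain ⟨P, hP, hP2⟩ := (h.hN _).1 h1.le
  have k := h.first_order c (A' := P) (u' := 0) (v' := (2 : ℝ) • ((N v)⁻¹ • v)) hP (by simpa)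
    hP2 (by simpa using hP2)
  rw [w_zero_left, w_smul_right, w_smul_right, c.hw] at k
  refine ⟨inv_pos.2 (N_pos h.hR hv), ?_, h1⟩
  by_contra hn
  push Not at hn
  nlinarith

theorem Ext.b_lt (h : Ext K N m R L M) {x A v : E} {a b : ℝ} (c : Cfg K N m x A v)
    (u : Mul K m x A v a b) : b < 1 / 2 := by
  have hm := h.mpos
  have hM := h.M_nonneg
  obtain ⟨ha, hb⟩ := h.mul_bd c u
  refine lt_of_le_of_ne (abs_le.1 hb).2 ?_
  rintro rfl
  obtain ⟨ha1, ha2⟩ := abs_le.1 ha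
  have hY : ∀ P ∈ K, 0 ≤ w x (P - A) := by
    intro P hP
    have := u.tA P hP
    have := u.tB P hP
    linarith
  have cx : ∀ s t : ℝ, w x (s • x + t • v) = t * m := by
    intro s t; rw [← c.hw]; simp [w]; ring
  set C := 8 * M ^ 2 / m with hC
  have hC0 : 0 ≤ C := by positivity
  have hq : 0 < 4 * M / m + 1 := by positivity
  have small : ∀ ε, 0 < ε → ∀ σ : ℝ, σ = 1 ∨ σ = -1 → ∃ x', N x' = 1 ∧
      4 * M / m * ‖x' - x‖ ≤ min (1 / 2) (ε / (12 * (C + 1) + 3)) ∧ 0 < σ * w x x' := by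
    intro ε hε σ hσ
    obtain ⟨x', h1, h2, h3⟩ := h.near c σ hσ
      (r := min (1 / 2) (ε / (12 * (C + 1) + 3)) / (4 * M / m + 1)) (by positivity)
    refine ⟨x', h1, ?_, h3⟩
    rw [lt_div_iff₀ hq] at h2
    nlinarith [norm_nonneg (x' - x)]
  have hCp : A + (3 / 2 - a / 3) • x ∈ K := by
    refine h.lim_pt (v := v) c.hA (by linarith) fun ε hε => ?_
    obtain ⟨x', h1, h2, h3⟩ := small ε hε 1 (Or.inl rfl)
    obtain ⟨A', v', c'⟩ := h.cfg_ex h1
    obtain ⟨d, η, a1, a2, e1, e2, fx, fA, fE, b1, b2, b3, b4, b5, b6, d0, -, -, iD, iE, ar⟩ :=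
      h.coords c u c'
    set ε' := min (1 / 2) (ε / (12 * (C + 1) + 3)) with hε'
    have q1 : ε' ≤ 1 / 2 := min_le_left _ _
    have q2 : ε' * (12 * (C + 1) + 3) ≤ ε := by
      rw [← le_div_iff₀ (by positivity)]; exact min_le_right _ _
    have hη : 0 < η := by
      rw [fx, w_add_right, w_self, cx] at h3
      by_contra hn
      push Not at hn
      nlinarith
    have ha2' : 0 ≤ a2 := by
      have := hY _ c'.hA
      rw [fA, add_sub_cancel_left, cx] at this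
      exact nonneg_of_mul_nonneg_left this hm
    obtain ⟨r1, r2⟩ := tilt (C := C) (ε := ε') ha hη ((le_abs_self _).trans (b2.trans h2))
      (b1.trans h2) d0 q1 b3 b5 ha2' (by linarith) (by linarith) ar
    have q0 : 0 ≤ ε' := (abs_nonneg _).trans (b1.trans h2)
    have q3 := abs_le.1 (b1.trans h2)
    have q4 := abs_le.1 (b2.trans h2)
    refine ⟨1 + a1 + d, a2 + η, ?_, by nlinarith, abs_le.2 ⟨by linarith, by nlinarith⟩⟩
    convert c'.hB using 1
    rw [fx, fA]; module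
  have hFp : A + x + (3 / 2 + a / 3) • (-x) ∈ K := by
    refine h.lim_pt (v := v) c.hB (by linarith) fun ε hε => ?_
    obtain ⟨x', h1, h2, h3⟩ := small ε hε (-1) (Or.inr rfl)
    obtain ⟨A', v', c'⟩ := h.cfg_ex h1
    obtain ⟨d, η, a1, a2, e1, e2, fx, fA, fE, b1, b2, b3, b4, b5, b6, d0, -, -, iD, iE, ar⟩ :=
      h.coords c u c'
    set ε' := min (1 / 2) (ε / (12 * (C + 1) + 3)) with hε'
    have q1 : ε' ≤ 1 / 2 := min_le_left _ _
    have q2 : ε' * (12 * (C + 1) + 3) ≤ ε := by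
      rw [← le_div_iff₀ (by positivity)]; exact min_le_right _ _
    have hη : η < 0 := by
      rw [fx, w_add_right, w_self, cx] at h3
      by_contra hn
      push Not at hn
      nlinarith
    have ha2' : 0 ≤ a2 + η := by
      have := hY _ c'.hB
      rw [show A' + x' - A = (a1 + d + 1) • x + (a2 + η) • v by rw [fx, fA]; module, cx] at this
      exact nonneg_of_mul_nonneg_left this hm
    have q0 : 0 ≤ ε' := (abs_nonneg _).trans (b1.trans h2)
    have q3 := abs_le.1 (b1.trans h2)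
    have q4 := abs_le.1 (b2.trans h2)
    have q5 := abs_le.1 b3
    have q6 := abs_le.1 b5
    obtain ⟨r1, r2⟩ := tilt (a := -a) (C := C + 1) (ε := ε') (d := d) (η := -η) (a1 := -(a1 + d))
      (a2 := a2 + η) (e1 := -(e1 + d)) (e2 := e2 + η) (by rwa [abs_neg]) (by linarith)
      (by linarith) (b1.trans h2) d0 q1 (abs_le.2 ⟨by linarith, by linarith⟩)
      (abs_le.2 ⟨by linarith, by linarith⟩) ha2' (by linarith) (by linarith) (by linarith)
    refine ⟨1 - a1, a2, ?_, by nlinarith, abs_le.2 ⟨by nlinarith, by nlinarith⟩⟩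
    convert c'.hA using 1
    rw [fA]; module
  set F := A + x + (3 / 2 + a / 3) • (-x) with hF
  have hC2 : F + (2 : ℝ) • x ∈ K := by
    convert hCp using 1; rw [hF]; module
  have hC1 : F + x ∈ K := by
    convert h.seg hFp hC2 (s := 1 / 2) (by norm_num) (by norm_num) using 1; module
  set v1 := A + v - (F + x) with hv1
  have hw1 : w x v1 = m := by rw [← c.hw, hv1, hF]; simp [w]; ring
  have c1 : Cfg K N m x (F + x) v1 := by
    refine ⟨c.hx, hC1, by convert hC2 using 1; module, by simpa [hv1] using c.hE, ?_, hw1⟩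
    convert c.hD using 1; rw [hv1]; abel
  have c2 : Cfg K N m x F (v1 + x) := by
    refine ⟨c.hx, hFp, hC1, ?_, ?_, by rw [w_add_right, w_self, hw1, add_zero]⟩
    · convert c.hE using 1; rw [hv1]; abel
    · convert c.hD using 1; rw [hv1]; abel
  obtain ⟨r0, r1, r2⟩ := h.Nv_ge c1
  set r := (N v1)⁻¹
  obtain ⟨A', v', c'⟩ := h.cfg_ex r2
  have k1 := h.supp c1 (h.half_mem c'.hA hFp)
  have k2 := h.supp c2 (h.half_mem hC2 c'.hD)
  have k3 := hY _ c'.hE
  have k4 := c'.hw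
  have k5 : w x (A' + v' - A) = w x (A' + v' - F) := by rw [hF]; simp [w]; ring
  rw [k5] at k3
  have k6 : w (r • v1) v' = r * (2 * w ((1 / 2 : ℝ) • (A' - F)) v1 +
      (2 * w ((1 / 2 : ℝ) • (F + (2 : ℝ) • x - (A' + r • v1 + v'))) (v1 + x) - 2 * w x v1) -
      r * w x v1 - w x (A' + v' - F)) := by
    simp [w]; ring
  rw [k6, hw1] at k4
  have k7 : m ≤ r * (2 * m - r * m) := by
    rw [← k4]
    apply mul_le_mul_of_nonneg_left _ r0.le
    rw [k4]
    linarith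
  have k8 : r * (2 - r) < 1 := by nlinarith
  nlinarith

theorem Ext.b_abs_lt (h : Ext K N m R L M) {x A v : E} {a b : ℝ} (c : Cfg K N m x A v)
    (u : Mul K m x A v a b) : |b| < 1 / 2 := by
  have h1 := h.b_lt c u
  have h2 := h.b_lt c.neg (u.neg c)
  exact abs_lt.2 ⟨by linarith, h1⟩

end Pool.Agent.Lib.MP_da2c1b_co
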