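import Pool.Agent.Lib.MP_da2c1b_co.Main

namespace Pool.Agent.Lib.MP_da2c1b_co.SymmetricEllipse

open Pool.Agent.Lib.MP_da2c1b_co

/-- A centrally symmetric plane convex body whose packing density is at most three quarters of
its covering density is an ellipse. -/
theorem result (K : Set E) (hc : IsCompact K) (hconv : Convex ℝ K)
    (hne : (interior K).Nonempty) (c : E) (hs : ∀ x ∈ K, c + (c - x) ∈ K)
    (h : pd K / cd K ≤ 3 / 4) :
    ∃ A : E ≃ₗ[ℝ] E, K = (fun z => c + A z) '' Metric.closedBall 0 1 :=
  main K hc hconv hne c hs h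

end Pool.Agent.Lib.MP_da2c1b_co.SymmetricEllipse
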