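import Pool.Agent.Lib.MP_da2c1b_co.T64Tri

/-!
Areas of triangles.
-/

namespace Pool.Agent.Lib.MP_da2c1b_co

open MeasureTheory Set Filter Metric
open scoped Topology

/-- The standard triangle. -/
def T64Area_std : Set E := {p | 0 ≤ p 0 ∧ 0 ≤ p 1 ∧ p 0 + p 1 ≤ 1}

/-- The linear map with the given columns. -/
noncomputable def T64Area_lin (u v : E) : E →ₗ[ℝ] E where
  toFun p := p 0 • u + p 1 • v
  map_add' p q := by
    simp only [PiLp.add_apply, add_smul]
    abel
  map_smul' c p := by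
    simp only [PiLp.smul_apply, smul_eq_mul, RingHom.id_apply, smul_add, mul_smul]

theorem T64Area_lin_apply (u v p : E) : T64Area_lin u v p = p 0 • u + p 1 • v := rfl

theorem T64Area_det (u v : E) : LinearMap.det (T64Area_lin u v) = w u v := by
  rw [← LinearMap.det_toMatrix (EuclideanSpace.basisFun (Fin 2) ℝ).toBasis, Matrix.det_fin_two]
  simp [LinearMap.toMatrix_apply, T64Area_lin_apply, w]
  ring

theorem T64Area_convex : Convex ℝ T64Area_std := by
  rintro p ⟨p0, p1, p2⟩ q ⟨q0, q1, q2⟩ s t hs ht hst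
  refine ⟨?_, ?_, ?_⟩ <;> simp only [PiLp.add_apply, PiLp.smul_apply, smul_eq_mul]
  · positivity
  · positivity
  · nlinarith

theorem T64Area_vol_std : volume T64Area_std = ENNReal.ofReal (1 / 2) := by
  set R : Set (ℝ × ℝ) := {p | 0 ≤ p.1 ∧ 0 ≤ p.2 ∧ p.1 + p.2 ≤ 1} with hR
  have mR : MeasurableSet R := by
    refine IsClosed.measurableSet ?_
    exact (isClosed_le continuous_const continuous_fst).inter
      ((isClosed_le continuous_const continuous_snd).inter
        (isClosed_le (continuous_fst.add continuous_snd) continuous_const))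
  have h1 := ((volume_preserving_finTwoArrow ℝ).comp
    (PiLp.volume_preserving_ofLp (Fin 2))).measure_preimage mR.nullMeasurableSet
  have h2 : T64Area_std = (MeasurableEquiv.finTwoArrow ∘ (WithLp.ofLp : E → Fin 2 → ℝ)) ⁻¹' R :=
    rfl
  rw [h2, h1, Measure.volume_eq_prod, Measure.prod_apply mR]
  have h3 : ∀ x : ℝ, volume (Prod.mk x ⁻¹' R) =
      (Icc (0 : ℝ) 1).indicator (fun x => ENNReal.ofReal (1 - x)) x := by
    intro x
    by_cases hx : x ∈ Icc (0 : ℝ) 1
    · have : Prod.mk x ⁻¹' R = Icc 0 (1 - x) := by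
        ext y
        simp only [hR, mem_preimage, mem_ofPred_eq, mem_Icc]
        constructor
        · rintro ⟨-, a, b⟩
          exact ⟨a, by linarith⟩
        · rintro ⟨a, b⟩
          exact ⟨hx.1, a, by linarith⟩
      rw [this, indicator_of_mem hx, Real.volume_Icc, sub_zero]
    · have : Prod.mk x ⁻¹' R = ∅ := by
        ext y
        simp only [hR, mem_preimage, mem_ofPred_eq, mem_empty_iff_false, iff_false]
        rintro ⟨a, b, c⟩
        exact hx ⟨a, by linarith⟩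
      rw [this, indicator_of_notMem hx, measure_empty]
  simp_rw [h3]
  rw [lintegral_indicator measurableSet_Icc, ← ofReal_integral_eq_lintegral_ofReal]
  · congr 1
    rw [integral_Icc_eq_integral_Ioc, ← intervalIntegral.integral_of_le zero_le_one,
      intervalIntegral.integral_sub (by simp) (by simp)]
    simp
    norm_num
  · exact (continuous_const.sub continuous_id).continuousOn.integrableOn_Icc
  · filter_upwards [ae_restrict_mem measurableSet_Icc] with x hx
    exact sub_nonneg.2 hx.2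

theorem T64Area_tri_eq (t : E × E × E) :
    tri t = (fun x => t.1 + x) '' (T64Area_lin (t.2.1 - t.1) (t.2.2 - t.1) '' T64Area_std) := by
  obtain ⟨a, b, c⟩ := t
  refine Subset.antisymm (convexHull_min ?_ ((T64Area_convex.linear_image _).translate _)) ?_
  · rintro x (rfl | rfl | rfl)
    · exact ⟨0, ⟨0, by simp [T64Area_std], map_zero _⟩, by simp⟩
    · exact ⟨_, ⟨!₂[1, 0], by simp [T64Area_std], rfl⟩, by simp [T64Area_lin_apply]⟩
    · exact ⟨_, ⟨!₂[0, 1], by simp [T64Area_std], rfl⟩, by simp [T64Area_lin_apply]⟩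
  · rintro _ ⟨_, ⟨p, ⟨p0, p1, p2⟩, rfl⟩, rfl⟩
    have h := (convex_convexHull ℝ ({a, b, c} : Set E)).sum_mem (t := Finset.univ)
      (w := ![1 - p 0 - p 1, p 0, p 1]) (z := ![a, b, c])
      (fun i _ => by fin_cases i <;> simp <;> linarith)
      (by simp [Fin.sum_univ_three]; ring)
      (fun i _ => subset_convexHull ℝ _ (by fin_cases i <;> simp))
    simp only [Fin.sum_univ_three, Matrix.cons_val_zero, Matrix.cons_val_one,
      Matrix.cons_val] at h
    change a + (p 0 • (b - a) + p 1 • (c - a)) ∈ convexHull ℝ ({a, b, c} : Set E)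
    convert h using 1
    module

theorem vol_tri (t : E × E × E) :
    volume (tri t) = ENNReal.ofReal (|w (t.2.1 - t.1) (t.2.2 - t.1)| / 2) := by
  rw [T64Area_tri_eq, image_add_left, measure_preimage_add, Measure.addHaar_image_linearMap,
    T64Area_det, T64Area_vol_std, ← ENNReal.ofReal_mul (abs_nonneg _)]
  congr 1
  ring

theorem vol_interior_tri (t : E × E × E) : volume (interior (tri t)) = volume (tri t) :=
  measure_interior_of_null_frontier ((convex_convexHull ℝ _).addHaar_frontier volume)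

theorem T64Area_dist_sq (p q : E) : dist p q ^ 2 = (p 0 - q 0) ^ 2 + (p 1 - q 1) ^ 2 := by
  rw [EuclideanSpace.dist_eq, Real.sq_sqrt (by positivity), Fin.sum_univ_two, Real.dist_eq,
    Real.dist_eq, sq_abs, sq_abs]

theorem T64Area_heron (a b c : E) : 4 * w (b - a) (c - a) ^ 2 =
    4 * (dist a b ^ 2 * dist a c ^ 2) - (dist a b ^ 2 + dist a c ^ 2 - dist b c ^ 2) ^ 2 := by
  simp only [T64Area_dist_sq, w, PiLp.sub_apply]
  ring

theorem w_le_of_circle {a b c o : E} {ρ : ℝ} (ha : dist a o = ρ) (hb : dist b o = ρ)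
    (hc : dist c o = ρ) (h : ρ ≤ 1) : |w (b - a) (c - a)| / 2 ≤ √27 / 4 := by
  have h0 : 0 ≤ ρ := ha ▸ dist_nonneg
  have h1 : ρ ^ 2 ≤ 1 := by nlinarith
  have h2 : dist a b ^ 2 + dist a c ^ 2 + dist b c ^ 2 ≤ 9 := by
    have e1 := T64Area_dist_sq a o
    have e2 := T64Area_dist_sq b o
    have e3 := T64Area_dist_sq c o
    rw [ha] at e1
    rw [hb] at e2
    rw [hc] at e3
    simp only [T64Area_dist_sq]
    nlinarith [sq_nonneg (a 0 + b 0 + c 0 - 3 * o 0), sq_nonneg (a 1 + b 1 + c 1 - 3 * o 1)]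
  have h3 := T64Area_heron a b c
  have h4 : 0 ≤ dist a b ^ 2 + dist a c ^ 2 + dist b c ^ 2 := by positivity
  generalize dist a b ^ 2 = x at *
  generalize dist a c ^ 2 = y at *
  generalize dist b c ^ 2 = z at *
  have h5 : (x + y + z) ^ 2 ≤ 81 := by nlinarith
  have h6 : (2 * w (b - a) (c - a)) ^ 2 ≤ 27 := by
    nlinarith [sq_nonneg (x - y), sq_nonneg (y - z), sq_nonneg (x - z)]
  have h7 := Real.abs_le_sqrt h6
  rw [abs_mul, abs_two] at h7
  linarith

theorem T64Area_radius {a b c o : E} {ρ : ℝ} (ha : dist a o = ρ) (hb : dist b o = ρ)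
    (hc : dist c o = ρ) :
    4 * w (b - a) (c - a) ^ 2 * ρ ^ 2 = dist a b ^ 2 * dist a c ^ 2 * dist b c ^ 2 := by
  have e1 := T64Area_dist_sq a o
  have e2 := T64Area_dist_sq b o
  have e3 := T64Area_dist_sq c o
  rw [ha] at e1
  rw [hb] at e2
  rw [hc] at e3
  have k1 : 2 * ((a 0 - o 0) * (b 0 - a 0) + (a 1 - o 1) * (b 1 - a 1)) =
      -((b 0 - a 0) ^ 2 + (b 1 - a 1) ^ 2) := by linear_combination e1 - e2
  have k2 : 2 * ((a 0 - o 0) * (c 0 - a 0) + (a 1 - o 1) * (c 1 - a 1)) =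
      -((c 0 - a 0) ^ 2 + (c 1 - a 1) ^ 2) := by linear_combination e1 - e3
  have k3 : 4 * w (b - a) (c - a) ^ 2 * ((a 0 - o 0) ^ 2 + (a 1 - o 1) ^ 2) =
      (2 * ((a 0 - o 0) * (b 0 - a 0) + (a 1 - o 1) * (b 1 - a 1)) * (c 0 - a 0) -
        2 * ((a 0 - o 0) * (c 0 - a 0) + (a 1 - o 1) * (c 1 - a 1)) * (b 0 - a 0)) ^ 2 +
      (2 * ((a 0 - o 0) * (b 0 - a 0) + (a 1 - o 1) * (b 1 - a 1)) * (c 1 - a 1) -
        2 * ((a 0 - o 0) * (c 0 - a 0) + (a 1 - o 1) * (c 1 - a 1)) * (b 1 - a 1)) ^ 2 := by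
    simp only [w, PiLp.sub_apply]
    ring
  rw [e1, k3, k1, k2]
  simp only [T64Area_dist_sq]
  ring

theorem T64Area_real {x y z W r : ℝ} (hx : 4 ≤ x) (hy : 4 ≤ y) (hz : 4 ≤ z) (hW : 0 ≤ W)
    (hr : r ≤ 4) (h1 : 4 * W = 4 * (x * y) - (x + y - z) ^ 2) (h2 : 4 * W * r = x * y * z) :
    12 ≤ W := by
  have h3 : x * y * z ≤ 16 * W := by nlinarith
  have hxy : 16 ≤ x * y := by nlinarith
  have hxz : 16 ≤ x * z := by nlinarith
  have hyz : 16 ≤ y * z := by nlinarith
  by_cases c1 : 12 ≤ x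
  · nlinarith
  by_cases c2 : 12 ≤ y
  · nlinarith
  by_cases c3 : 12 ≤ z
  · nlinarith
  push Not at c1 c2 c3
  nlinarith [mul_nonneg (sub_nonneg.2 hx) (sub_nonneg.2 hy),
    mul_nonneg (sub_nonneg.2 hx) (sub_nonneg.2 hz), mul_nonneg (sub_nonneg.2 hy) (sub_nonneg.2 hz),
    mul_nonneg (sub_nonneg.2 hx) (sub_nonneg.2 c1.le),
    mul_nonneg (sub_nonneg.2 hy) (sub_nonneg.2 c2.le),
    mul_nonneg (sub_nonneg.2 hz) (sub_nonneg.2 c3.le)]

theorem le_w_of_circle {a b c o : E} {ρ : ℝ} (ha : dist a o = ρ) (hb : dist b o = ρ)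
    (hc : dist c o = ρ) (h : ρ ≤ 2) (h1 : 2 ≤ dist a b) (h2 : 2 ≤ dist a c) (h3 : 2 ≤ dist b c) :
    √12 / 2 ≤ |w (b - a) (c - a)| / 2 := by
  have h0 : 0 ≤ ρ := ha ▸ dist_nonneg
  have h4 : 12 ≤ w (b - a) (c - a) ^ 2 :=
    T64Area_real (x := dist a b ^ 2) (y := dist a c ^ 2) (z := dist b c ^ 2) (r := ρ ^ 2)
      (by nlinarith) (by nlinarith) (by nlinarith) (sq_nonneg _) (by nlinarith)
      (T64Area_heron a b c) (T64Area_radius ha hb hc)
  have h5 := Real.sqrt_le_sqrt h4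
  rw [Real.sqrt_sq_eq_abs] at h5
  linarith

end Pool.Agent.Lib.MP_da2c1b_co
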