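import Pool.Agent.Lib.MP_da2c1b_co.T64Tri

/-!
Counting triangles by their middle vertex; the radius of the circumcircle.
-/

namespace Pool.Agent.Lib.MP_da2c1b_co

open MeasureTheory Set Filter Metric
open scoped Topology

variable {S : Finset E} {v : E} {T : Finset (E × E × E)}

theorem T64Cnt_mem {a b c y : E} : y ∈ tri (a, b, c) ↔
    ∃ α β γ : ℝ, 0 ≤ α ∧ 0 ≤ β ∧ 0 ≤ γ ∧ α + β + γ = 1 ∧ y = α • a + β • b + γ • c := by
  constructor
  · intro hy
    refine convexHull_min (t := {y | ∃ α β γ : ℝ, 0 ≤ α ∧ 0 ≤ β ∧ 0 ≤ γ ∧ α + β + γ = 1 ∧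
      y = α • a + β • b + γ • c}) ?_ ?_ hy
    · rintro x (rfl | rfl | rfl)
      · exact ⟨1, 0, 0, by norm_num, le_rfl, le_rfl, by norm_num, by simp⟩
      · exact ⟨0, 1, 0, le_rfl, by norm_num, le_rfl, by norm_num, by simp⟩
      · exact ⟨0, 0, 1, le_rfl, le_rfl, by norm_num, by norm_num, by simp⟩
    · rintro _ ⟨α, β, γ, h1, h2, h3, h4, rfl⟩ _ ⟨α', β', γ', g1, g2, g3, g4, rfl⟩ p q hp hq hpq
      refine ⟨p * α + q * α', p * β + q * β', p * γ + q * γ', by positivity, by positivity,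
        by positivity, ?_, by module⟩
      linear_combination p * h4 + q * g4 + hpq
  · rintro ⟨α, β, γ, h1, h2, h3, h4, rfl⟩
    have := (convex_convexHull ℝ ({a, b, c} : Set E)).sum_mem (t := (Finset.univ : Finset (Fin 3)))
      (w := ![α, β, γ]) (z := ![a, b, c]) (fun i _ => by fin_cases i <;> simpa)
      (by simpa [Fin.sum_univ_three] using h4)
      (fun i _ => subset_convexHull ℝ _ (by fin_cases i <;> simp))
    simpa [tri, Fin.sum_univ_three] using this

theorem T64Cnt_int {a b c : E} (hD : w (a - b) (c - b) ≠ 0) {α γ : ℝ} (h1 : 0 < α) (h2 : 0 < γ)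
    (h3 : α + γ < 1) : b + (α • (a - b) + γ • (c - b)) ∈ interior (tri (a, b, c)) := by
  have c1 : Continuous fun y : E => w (y - b) (c - b) / w (a - b) (c - b) := by
    unfold w; fun_prop
  have c2 : Continuous fun y : E => w (a - b) (y - b) / w (a - b) (c - b) := by
    unfold w; fun_prop
  refine mem_interior.2 ⟨{y | 0 < w (y - b) (c - b) / w (a - b) (c - b)} ∩
    ({y | 0 < w (a - b) (y - b) / w (a - b) (c - b)} ∩
      {y | w (y - b) (c - b) / w (a - b) (c - b) + w (a - b) (y - b) / w (a - b) (c - b) < 1}),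
    ?_, (isOpen_lt continuous_const c1).inter ((isOpen_lt continuous_const c2).inter
      (isOpen_lt (c1.add c2) continuous_const)), ?_⟩
  · rintro y ⟨g1, g2, g3⟩
    have e := decomp hD (y - b)
    simp only [mem_ofPred_eq] at g1 g2 g3
    generalize w (y - b) (c - b) / w (a - b) (c - b) = p at g1 g3 e
    generalize w (a - b) (y - b) / w (a - b) (c - b) = q at g2 g3 e
    refine T64Cnt_mem.2 ⟨p, 1 - p - q, q, g1.le, by linarith, g2.le, by ring, ?_⟩
    rw [← sub_add_cancel y b, e]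
    module
  · have e1 : w (b + (α • (a - b) + γ • (c - b)) - b) (c - b) / w (a - b) (c - b) = α := by
      rw [div_eq_iff hD]
      simp only [w, PiLp.add_apply, PiLp.sub_apply, PiLp.smul_apply, smul_eq_mul]
      ring
    have e2 : w (a - b) (b + (α • (a - b) + γ • (c - b)) - b) / w (a - b) (c - b) = γ := by
      rw [div_eq_iff hD]
      simp only [w, PiLp.add_apply, PiLp.sub_apply, PiLp.smul_apply, smul_eq_mul]
      ring
    simp only [mem_inter_iff, mem_ofPred_eq, e1, e2]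
    exact ⟨h1, h2, h3⟩

theorem T64Cnt_mid {t : E × E × E} (h : Del S v t) : ∃ σ ∈ ({1, -1} : Finset ℝ),
    ∀ᶠ ε : ℝ in 𝓝[>] 0, t.2.1 + (ε * σ) • v ∈ interior (tri t) := by
  obtain ⟨a, b, c⟩ := t
  obtain ⟨-, -, -, h1, h2, h3, -⟩ := h
  dsimp only at h1 h2 h3 ⊢
  have hD : w (a - b) (c - b) ≠ 0 := fun e => h3 (by
    simp only [w, PiLp.sub_apply] at e ⊢
    linarith)
  have n1 : 0 < w v (c - b) := by
    simp only [w, PiLp.sub_apply] at h2 ⊢
    linarith
  have n2 : 0 < w (a - b) v := by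
    simp only [w, PiLp.sub_apply] at h1 ⊢
    linarith
  have e := decomp hD v
  have key : ∀ σ p q : ℝ, 0 < p → 0 < q → σ • v = p • (a - b) + q • (c - b) →
      ∀ᶠ ε : ℝ in 𝓝[>] 0, b + (ε * σ) • v ∈ interior (tri (a, b, c)) := by
    intro σ p q hp hq hv
    filter_upwards [Ioo_mem_nhdsGT (show (0 : ℝ) < 1 / (p + q) by positivity)] with ε hε
    have h4 : ε * (p + q) < 1 := (lt_div_iff₀ (by positivity)).1 hε.2
    have h5 := T64Cnt_int hD (mul_pos hε.1 hp) (mul_pos hε.1 hq) (by linarith)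
    rwa [mul_smul ε σ, hv, smul_add, smul_smul, smul_smul]
  rcases hD.lt_or_gt with g | g
  · refine ⟨-1, by simp, key (-1) (-(w v (c - b) / w (a - b) (c - b)))
      (-(w (a - b) v / w (a - b) (c - b))) (neg_pos.2 (div_neg_of_pos_of_neg n1 g))
      (neg_pos.2 (div_neg_of_pos_of_neg n2 g)) ?_⟩
    generalize w v (c - b) / w (a - b) (c - b) = p at e
    generalize w (a - b) v / w (a - b) (c - b) = q at e
    rw [e]
    module
  · exact ⟨1, by simp, key 1 _ _ (div_pos n1 g) (div_pos n2 g) ((one_smul ℝ v).trans e)⟩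

theorem T64Cnt_vertex {a b c s : E} (h : Del S v (a, b, c)) (hs : s ∈ S) (ht : s ∈ tri (a, b, c)) :
    s = a ∨ s = b ∨ s = c := by
  obtain ⟨-, -, -, h1, h2, -, o, ρ, g1, g2, g3, g4⟩ := h
  dsimp only at h1 h2 g1 g2 g3
  obtain ⟨α, β, γ, p1, p2, p3, p4, rfl⟩ := T64Cnt_mem.1 ht
  have sq : ∀ x y : E, dist x y ^ 2 = (x 0 - y 0) ^ 2 + (x 1 - y 1) ^ 2 := fun x y => by
    rw [EuclideanSpace.dist_sq_eq, Fin.sum_univ_two, Real.dist_eq, Real.dist_eq, sq_abs, sq_abs]
  have pos : ∀ x y : E, w v x < w v y → 0 < dist x y ^ 2 := fun x y hxy =>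
    pow_pos (dist_pos.2 fun e => hxy.ne (by rw [e])) 2
  have q1 := pos a b h1
  have q2 := pos b c h2
  have q3 := pos a c (h1.trans h2)
  have q4 : ρ ^ 2 ≤ dist (α • a + β • b + γ • c) o ^ 2 :=
    pow_le_pow_left₀ (g1 ▸ dist_nonneg) (g4 _ hs) 2
  have q5 : dist (α • a + β • b + γ • c) o ^ 2 = α * dist a o ^ 2 + β * dist b o ^ 2 +
      γ * dist c o ^ 2 - (α * β * dist a b ^ 2 + β * γ * dist b c ^ 2 + α * γ * dist a c ^ 2) := by
    obtain rfl : β = 1 - α - γ := by linarith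
    simp only [sq, PiLp.add_apply, PiLp.smul_apply, smul_eq_mul]
    ring
  rw [g1, g2, g3] at q5
  have q6 : α * ρ ^ 2 + β * ρ ^ 2 + γ * ρ ^ 2 = ρ ^ 2 := by linear_combination ρ ^ 2 * p4
  have r1 := mul_nonneg (mul_nonneg p1 p2) q1.le
  have r2 := mul_nonneg (mul_nonneg p2 p3) q2.le
  have r3 := mul_nonneg (mul_nonneg p1 p3) q3.le
  have s1 : α * β = 0 := (mul_eq_zero.1 (by linarith)).resolve_right q1.ne'
  have s2 : β * γ = 0 := (mul_eq_zero.1 (by linarith)).resolve_right q2.ne'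
  have s3 : α * γ = 0 := (mul_eq_zero.1 (by linarith)).resolve_right q3.ne'
  by_cases b0 : β = 0
  · rcases mul_eq_zero.1 s3 with a0 | c0
    · obtain rfl : γ = 1 := by linarith
      simp [a0, b0]
    · obtain rfl : α = 1 := by linarith
      simp [c0, b0]
  · have a0 := (mul_eq_zero.1 s1).resolve_right b0
    have c0 := (mul_eq_zero.1 s2).resolve_left b0
    obtain rfl : β = 1 := by linarith
    simp [a0, c0]

theorem T64Cnt_end {a b c : E} (hv : v ≠ 0) (h1 : w v a < w v b) (h2 : w v b < w v c) {τ : ℝ}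
    (hτ : τ ≠ 0) : a + τ • v ∉ tri (a, b, c) ∧ c + τ • v ∉ tri (a, b, c) := by
  have hw : ∀ (x : E) (α β γ : ℝ), x + τ • v = α • a + β • b + γ • c →
      w v x = α * w v a + β * w v b + γ * w v c := fun x α β γ e => by
    have e0 := congrArg (fun z : E => z 0) e
    have e1 := congrArg (fun z : E => z 1) e
    simp only [PiLp.add_apply, PiLp.smul_apply, smul_eq_mul] at e0 e1
    simp only [w]
    linear_combination v 0 * e1 - v 1 * e0
  constructor
  · intro h
    obtain ⟨α, β, γ, p1, p2, p3, p4, e⟩ := T64Cnt_mem.1 h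
    have h3 := hw _ _ _ _ e
    have r1 := mul_nonneg p2 (sub_pos.2 h1).le
    have r2 := mul_nonneg p3 (sub_pos.2 (h1.trans h2)).le
    have r3 : β * (w v b - w v a) + γ * (w v c - w v a) = 0 := by
      linear_combination -h3 - w v a * p4
    have b0 : β = 0 := (mul_eq_zero.1 (by linarith)).resolve_right (sub_pos.2 h1).ne'
    have c0 : γ = 0 := (mul_eq_zero.1 (by linarith)).resolve_right (sub_pos.2 (h1.trans h2)).ne'
    obtain rfl : α = 1 := by linarith
    simp [b0, c0, hτ, hv] at e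
  · intro h
    obtain ⟨α, β, γ, p1, p2, p3, p4, e⟩ := T64Cnt_mem.1 h
    have h3 := hw _ _ _ _ e
    have r1 := mul_nonneg p2 (sub_pos.2 h2).le
    have r2 := mul_nonneg p1 (sub_pos.2 (h1.trans h2)).le
    have r3 : β * (w v c - w v b) + α * (w v c - w v a) = 0 := by
      linear_combination h3 + w v c * p4
    have b0 : β = 0 := (mul_eq_zero.1 (by linarith)).resolve_right (sub_pos.2 h2).ne'
    have a0 : α = 0 := (mul_eq_zero.1 (by linarith)).resolve_right (sub_pos.2 (h1.trans h2)).ne'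
    obtain rfl : γ = 1 := by linarith
    simp [b0, a0, hτ, hv] at e

theorem T64Cnt_side {a b c : E} (h : Del S v (a, b, c)) {ε δ : ℝ} (hε : 0 < ε) (hδ : 0 < δ)
    (h1 : b + (ε * 1) • v ∈ tri (a, b, c)) (h2 : b + (δ * -1) • v ∈ tri (a, b, c)) : False := by
  obtain ⟨-, -, -, g1, g2, g3, -⟩ := h
  dsimp only at g1 g2 g3
  have key : ∀ τ : ℝ, b + τ • v ∈ tri (a, b, c) →
      τ * w v (c - a) * w (b - a) (c - a) ≤ 0 := fun τ hτ => by
    obtain ⟨α, β, γ, p1, p2, p3, p4, e⟩ := T64Cnt_mem.1 hτ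
    have e0 := congrArg (fun z : E => z 0) e
    have e1 := congrArg (fun z : E => z 1) e
    simp only [PiLp.add_apply, PiLp.smul_apply, smul_eq_mul] at e0 e1
    have e2 : τ * w v (c - a) = -(α + γ) * w (b - a) (c - a) := by
      obtain rfl : β = 1 - α - γ := by linarith
      simp only [w, PiLp.sub_apply]
      linear_combination (c 1 - a 1) * e0 - (c 0 - a 0) * e1
    rw [e2]
    nlinarith [mul_nonneg (add_nonneg p1 p3) (mul_self_nonneg (w (b - a) (c - a)))]
  have n : 0 < w v (c - a) := by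
    simp only [w, PiLp.sub_apply] at g1 g2 ⊢
    linarith
  have k1 := key _ h1
  have k2 := key _ h2
  rcases g3.lt_or_gt with g | g
  · nlinarith [mul_pos (mul_pos hδ n) (neg_pos.2 g)]
  · nlinarith [mul_pos (mul_pos hε n) g]

theorem T64Cnt_ex (h : Trg S v T) {s : E} (hs : s ∈ S)
    (hi : s ∈ interior (convexHull ℝ (S : Set E))) {σ : ℝ} (hσ : σ ≠ 0) :
    ∃ t ∈ T, t.2.1 = s ∧ ∃ ε : ℝ, 0 < ε ∧ s + (ε * σ) • v ∈ tri t := by
  have ht : Tendsto (fun ε : ℝ => s + (ε * σ) • v) (𝓝[>] 0) (𝓝 s) := by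
    have : Continuous fun ε : ℝ => s + (ε * σ) • v := by fun_prop
    simpa using (this.tendsto 0).mono_left nhdsWithin_le_nhds
  obtain ⟨t, htT, hf⟩ : ∃ t ∈ T, ∃ᶠ ε : ℝ in 𝓝[>] 0, s + (ε * σ) • v ∈ tri t := by
    by_contra hc
    have h1 : ∀ᶠ ε : ℝ in 𝓝[>] 0, ∀ t ∈ T, s + (ε * σ) • v ∉ tri t :=
      (eventually_all_finset T).2 fun t ht => not_frequently.1 fun hf => hc ⟨t, ht, hf⟩
    obtain ⟨ε, h2, h3⟩ := (h1.and (ht.eventually (isOpen_interior.mem_nhds hi))).exists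
    obtain ⟨t, h4, h5⟩ := h.cov _ h3
    exact h2 t h4 h5
  have hcl : IsClosed (tri t) := ((Set.toFinite _).isCompact_convexHull ℝ).isClosed
  have h1 := hcl.mem_of_frequently_of_tendsto hf ht
  obtain ⟨ε, h2, h3⟩ := (hf.and_eventually self_mem_nhdsWithin).exists
  refine ⟨t, htT, ?_, ε, h3, h2⟩
  obtain ⟨a, b, c⟩ := t
  have hd := h.del _ htT
  have he := T64Cnt_end h.ne hd.2.2.2.1 hd.2.2.2.2.1 (mul_ne_zero (ne_of_gt h3) hσ)
  rcases T64Cnt_vertex hd hs h1 with rfl | rfl | rfl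
  · exact absurd h2 he.1
  · rfl
  · exact absurd h2 he.2

theorem Trg.card_le (h : Trg S v T) : T.card ≤ 2 * S.card := by
  choose! σ h1 h2 using fun t (ht : t ∈ T) => T64Cnt_mid (h.del t ht)
  have := Finset.card_le_card_of_injOn (s := T) (t := S ×ˢ ({1, -1} : Finset ℝ))
    (fun t => (t.2.1, σ t)) (fun t ht => Finset.mem_coe.2
      (Finset.mem_product.2 ⟨(h.del t ht).2.1, h1 t ht⟩)) fun t ht t' ht' e => by
      by_contra hne
      obtain ⟨ε, g1, g2⟩ := ((h2 t ht).and (h2 t' ht')).exists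
      have e1 : t.2.1 = t'.2.1 := (Prod.ext_iff.1 e).1
      have e2 : σ t = σ t' := (Prod.ext_iff.1 e).2
      rw [← e1, ← e2] at g2
      exact Set.disjoint_left.1 (h.dis t ht t' ht' hne) g1 g2
  rwa [Finset.card_product, Finset.card_pair (by norm_num), mul_comm] at this

theorem Trg.le_card (h : Trg S v T) (S₀ : Finset E) (h0 : S₀ ⊆ S)
    (hi : ∀ s ∈ S₀, s ∈ interior (convexHull ℝ (S : Set E))) :
    ∃ T₀ ⊆ T, 2 * S₀.card ≤ T₀.card ∧ ∀ t ∈ T₀, t.2.1 ∈ S₀ := by
  classical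
  refine ⟨T.filter fun t => t.2.1 ∈ S₀, Finset.filter_subset _ _, ?_,
    fun t ht => (Finset.mem_filter.1 ht).2⟩
  have hx : ∀ x ∈ S₀ ×ˢ ({1, -1} : Finset ℝ), ∃ t ∈ T, t.2.1 = x.1 ∧
      ∃ ε : ℝ, 0 < ε ∧ x.1 + (ε * x.2) • v ∈ tri t := fun x hx => by
    obtain ⟨g1, g2⟩ := Finset.mem_product.1 hx
    refine T64Cnt_ex h (h0 g1) (hi _ g1) fun e => ?_
    simp [e] at g2
  choose! f f1 f2 f3 using hx
  have := Finset.card_le_card_of_injOn (s := S₀ ×ˢ ({1, -1} : Finset ℝ))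
    (t := T.filter fun t => t.2.1 ∈ S₀) f (fun x hx => Finset.mem_coe.2
      (Finset.mem_filter.2 ⟨f1 x hx, f2 x hx ▸ (Finset.mem_product.1 hx).1⟩))
    fun x hx x' hx' e => by
      have e1 : x.1 = x'.1 := by rw [← f2 x hx, ← f2 x' hx', e]
      obtain ⟨ε, g1, g2⟩ := f3 x hx
      obtain ⟨δ, g3, g4⟩ := f3 x' hx'
      have hd := h.del _ (f1 x hx)
      rw [← e, ← e1] at g4
      rw [← f2 x hx] at g2 g4
      have m1 := (Finset.mem_product.1 hx).2
      have m2 := (Finset.mem_product.1 hx').2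
      simp only [Finset.mem_insert, Finset.mem_singleton] at m1 m2
      refine Prod.ext e1 ?_
      rcases m1 with m1 | m1 <;> rcases m2 with m2 | m2
      · rw [m1, m2]
      · exact (T64Cnt_side hd g1 g3 (m1 ▸ g2) (m2 ▸ g4)).elim
      · exact (T64Cnt_side hd g3 g1 (m2 ▸ g4) (m1 ▸ g2)).elim
      · rw [m1, m2]
  rwa [Finset.card_product, Finset.card_pair (by norm_num), mul_comm] at this

/-- If the points near `y` are within `r` of `S`, an empty circle around `y` is small. -/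
theorem radius_le {y o : E} {ρ r : ℝ} (hy : dist y o ≤ ρ) (he : ∀ s ∈ S, ρ ≤ dist s o)
    (hr : ∀ x, dist x y ≤ 2 * r → ∃ s ∈ S, dist x s ≤ r) (r0 : 0 < r) : ρ ≤ r := by
  obtain ⟨x, h1, h2⟩ := exists_dist_le_le (x := y) (z := o) (δ := 2 * r) (ε := max (ρ - 2 * r) 0)
    (by positivity) (le_max_right _ _) (by linarith [le_max_left (ρ - 2 * r) 0])
  obtain ⟨s, hs, h3⟩ := hr x (dist_comm x y ▸ h1)
  have h4 := he s hs
  have h5 := dist_triangle_left s o x
  rcases le_total (ρ - 2 * r) 0 with h | h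
  · rw [max_eq_right h] at h2
    linarith
  · rw [max_eq_left h] at h2
    linarith

theorem mem_interior_hull {y : E} {r : ℝ}
    (hr : ∀ x, dist x y ≤ 2 * r → ∃ s ∈ S, dist x s ≤ r) (r0 : 0 < r) :
    y ∈ interior (convexHull ℝ (S : Set E)) := by
  refine mem_interior.2 ⟨ball y (r / 2), fun z hz => ?_, isOpen_ball, mem_ball_self (half_pos r0)⟩
  by_contra hc
  obtain ⟨f, u, h1, h2⟩ := geometric_hahn_banach_closed_point (convex_convexHull ℝ (S : Set E))
    (S.finite_toSet.isCompact_convexHull ℝ).isClosed hc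
  obtain ⟨n, hn⟩ : ∃ n : E, ∀ x, f x = inner ℝ n x :=
    ⟨(InnerProductSpace.toDual ℝ E).symm f, fun x => InnerProductSpace.toDual_symm_apply.symm⟩
  have hn0 : 0 < ‖n‖ := norm_pos_iff.2 fun e => by
    obtain ⟨s, hs, -⟩ := hr y (by rw [dist_self]; positivity)
    have := (h1 s (subset_convexHull ℝ _ hs)).trans h2
    simp [hn, e] at this
  have hd : dist (z + (5 * r / 4 / ‖n‖) • n) z = 5 * r / 4 := by
    rw [dist_eq_norm, add_sub_cancel_left, norm_smul, Real.norm_of_nonneg (by positivity),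
      div_mul_cancel₀ _ hn0.ne']
  obtain ⟨s, hs, h3⟩ := hr (z + (5 * r / 4 / ‖n‖) • n) (by
    linarith [dist_triangle (z + (5 * r / 4 / ‖n‖) • n) z y, mem_ball.1 hz])
  have h4 := (h1 s (subset_convexHull ℝ _ hs)).trans h2
  have h5 := real_inner_le_norm n (z + (5 * r / 4 / ‖n‖) • n - s)
  rw [← dist_eq_norm, inner_sub_right, inner_add_right, inner_smul_right,
    real_inner_self_eq_norm_mul_norm, ← mul_assoc, div_mul_cancel₀ _ hn0.ne'] at h5
  rw [hn, hn] at h4
  nlinarith [mul_le_mul_of_nonneg_left h3 hn0.le, mul_pos r0 hn0]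

end Pool.Agent.Lib.MP_da2c1b_co
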