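import Pool.Agent.Lib.MP_da2c1b_co.T64Fin
import Pool.Agent.Lib.MP_da2c1b_co.Lattice

/-!
Coverings with translates of an ellipse.
-/

namespace Pool.Agent.Lib.MP_da2c1b_co

open MeasureTheory Set Filter Metric
open scoped Topology

theorem T64Cov_member (c : E) (A : E ≃ₗ[ℝ] E) {φ : E ≃ᵢ E} (hφ : φ ∈ PM) :
    ∃ p : E, φ '' ((fun z => c + A z) '' closedBall 0 1) =
      (fun z => p + A z) '' closedBall 0 1 := by
  obtain ⟨d, h | h⟩ := hφ
  · refine ⟨d + c, ?_⟩
    rw [image_image]
    exact image_congr fun z _ => by rw [h, add_assoc]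
  · refine ⟨d - c, ?_⟩
    rw [image_image]
    ext x
    constructor
    · rintro ⟨z, hz, rfl⟩
      refine ⟨-z, by simpa using hz, ?_⟩
      simp only [h, map_neg]
      abel
    · rintro ⟨z, hz, rfl⟩
      refine ⟨-z, by simpa using hz, ?_⟩
      simp only [h, map_neg]
      abel

theorem T64Cov_vol (p : E) (A : E ≃ₗ[ℝ] E) :
    volume ((fun z => p + A z) '' closedBall (0 : E) 1) =
      ENNReal.ofReal |LinearMap.det (A : E →ₗ[ℝ] E)| * ENNReal.ofReal Real.pi := by
  have e : (fun z => p + A z) '' closedBall (0 : E) 1 =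
      (fun x => p + x) '' ((A : E →ₗ[ℝ] E) '' closedBall (0 : E) 1) := by
    rw [image_image]
    rfl
  rw [e, vol_translate, Measure.addHaar_image_linearMap, EuclideanSpace.volume_closedBall_fin_two]
  simp

theorem T64Cov_sum (A : E ≃ₗ[ℝ] E) {L : ℝ} (hL0 : 0 ≤ L) (hL : ∀ z, ‖A z‖ ≤ L * ‖z‖)
    (F : Set (Set E)) (p : F → E) (hp : ∀ C : F, (C : Set E) = (fun z => p C + A z) '' closedBall 0 1)
    (hF : ⋃₀ F = univ) (r : ℝ) :
    ENNReal.ofReal (2 * Real.pi / √27) * volume (closedBall (0 : E) (r + -(4 * L))) ≤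
      ∑' C : F, volume ((C : Set E) ∩ closedBall 0 r) := by
  classical
  set a := ENNReal.ofReal |LinearMap.det (A : E →ₗ[ℝ] E)| with ha
  have ha0 : a ≠ 0 := by
    rw [ha, ne_eq, ENNReal.ofReal_eq_zero, not_le]
    exact abs_pos.2 (LinearEquiv.isUnit_det' A).ne_zero
  have hL1 : ∀ z ∈ closedBall (0 : E) 1, ‖A z‖ ≤ L := fun z hz =>
    (hL z).trans (mul_le_of_le_one_right hL0 (mem_closedBall_zero_iff.1 hz))
  have hJ : ∀ J : Finset F, (∀ C ∈ J, ‖p C‖ ≤ r - L) →
      (J.card : ENNReal) * (a * ENNReal.ofReal Real.pi) ≤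
        ∑' C : F, volume ((C : Set E) ∩ closedBall 0 r) := by
    intro J hJ
    refine le_trans (le_of_eq ?_) (ENNReal.sum_le_tsum J)
    rw [← nsmul_eq_mul, ← Finset.sum_const]
    refine Finset.sum_congr rfl fun C hC => ?_
    have h1 : (C : Set E) ⊆ closedBall 0 r := by
      rw [hp C]
      rintro _ ⟨z, hz, rfl⟩
      rw [mem_closedBall_zero_iff]
      have := norm_add_le (p C) (A z)
      linarith [hJ C hC, hL1 z hz]
    rw [inter_eq_left.2 h1, hp C, T64Cov_vol]
  by_cases hfin : {C : F | ‖p C‖ ≤ r - L}.Finite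
  · refine le_trans ?_ (hJ hfin.toFinset fun C hC => hfin.mem_toFinset.1 hC)
    have h1 := kershner_fin (hfin.toFinset.image fun C => A.symm (p C))
      (A ⁻¹' closedBall 0 (r + -(4 * L))) (by
        intro y hy x hx
        have h2 : A x ∈ ⋃₀ F := hF ▸ mem_univ _
        obtain ⟨C, hC, h3⟩ := h2
        have h4 : A x ∈ ((⟨C, hC⟩ : F) : Set E) := h3
        rw [hp] at h4
        obtain ⟨z, hz, h5⟩ := h4
        have h5 : p ⟨C, hC⟩ + A z = A x := h5
        refine ⟨A.symm (p ⟨C, hC⟩), Finset.mem_image_of_mem _ (hfin.mem_toFinset.2 ?_), ?_⟩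
        · have h6 : p ⟨C, hC⟩ = A y + A (x - y) - A z := by
            rw [map_sub, ← h5]
            abel
          have h7 : ‖A y‖ ≤ r + -(4 * L) := mem_closedBall_zero_iff.1 hy
          have h8 := hL (x - y)
          rw [dist_eq_norm] at hx
          have h9 := mul_le_mul_of_nonneg_left hx hL0
          have h10 := norm_sub_le (A y + A (x - y)) (A z)
          have h11 := norm_add_le (A y) (A (x - y))
          show ‖p ⟨C, hC⟩‖ ≤ r - L
          rw [h6]
          linarith [hL1 z hz]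
        · have h6 : x - A.symm (p ⟨C, hC⟩) = z := by
            apply A.injective
            rw [map_sub, A.apply_symm_apply, ← h5]
            abel
          rw [dist_eq_norm, h6]
          exact mem_closedBall_zero_iff.1 hz)
    have h2 : volume (closedBall (0 : E) (r + -(4 * L))) =
        a * volume (A ⁻¹' closedBall (0 : E) (r + -(4 * L))) := by
      rw [ha, ← Measure.addHaar_image_linearMap]
      congr 1
      exact (image_preimage_eq _ A.surjective).symm
    have h3 : ENNReal.ofReal (2 * Real.pi / √27) * ENNReal.ofReal (√27 / 2) =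
        ENNReal.ofReal Real.pi := by
      rw [← ENNReal.ofReal_mul (by positivity)]
      congr 1
      have : (√27 : ℝ) ≠ 0 := by positivity
      field_simp
    have h4 : ((hfin.toFinset.image fun C => A.symm (p C)).card : ENNReal) ≤ hfin.toFinset.card :=
      Nat.cast_le.2 Finset.card_image_le
    rw [h2, ← h3]
    calc ENNReal.ofReal (2 * Real.pi / √27) * (a * volume (A ⁻¹' closedBall (0 : E) (r + -(4 * L))))
        ≤ ENNReal.ofReal (2 * Real.pi / √27) * (a * ((hfin.toFinset.card : ENNReal) *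
          ENNReal.ofReal (√27 / 2))) := by
          gcongr
          exact h1.trans (by gcongr)
      _ = _ := by ring
  · obtain ⟨n, hn⟩ := ENNReal.exists_nat_mul_gt (a := a * ENNReal.ofReal Real.pi)
      (b := ENNReal.ofReal (2 * Real.pi / √27) * volume (closedBall (0 : E) (r + -(4 * L))))
      (mul_ne_zero ha0 (by simp [Real.pi_pos]))
      (ENNReal.mul_ne_top ENNReal.ofReal_ne_top measure_closedBall_lt_top.ne)
    obtain ⟨J, hJ1, hJ2⟩ := Set.Infinite.exists_subset_card_eq hfin n
    exact hn.le.trans (hJ2 ▸ hJ J fun C hC => hJ1 hC)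

theorem le_cdBy (c : E) (A : E ≃ₗ[ℝ] E) :
    ENNReal.ofReal (2 * Real.pi / √27) ≤ cdBy PM ((fun z => c + A z) '' closedBall 0 1) := by
  refine le_iInf₂ fun F hF => ?_
  have h1 : ∀ C : F, ∃ p : E, (C : Set E) = (fun z => p + A z) '' closedBall 0 1 := by
    intro C
    obtain ⟨φ, hφ, h⟩ := hF.1 C C.2
    obtain ⟨p, hp⟩ := T64Cov_member c A hφ
    exact ⟨p, h.trans hp⟩
  choose p hp using h1
  have h2 := T64Cov_sum A (norm_nonneg (LinearMap.toContinuousLinearMap (A : E →ₗ[ℝ] E)))
    (fun z => (LinearMap.toContinuousLinearMap (A : E →ₗ[ℝ] E)).le_opNorm z) F p hp hF.2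
  have h3 := ENNReal.Tendsto.const_mul (a := ENNReal.ofReal (2 * Real.pi / √27))
    (tendsto_ratio (-(4 * ‖LinearMap.toContinuousLinearMap (A : E →ₗ[ℝ] E)‖)))
    (Or.inl one_ne_zero)
  rw [mul_one] at h3
  rw [← h3.liminf_eq]
  refine liminf_le_liminf (Eventually.of_forall fun r => ?_)
  rw [← mul_div_assoc]
  exact ENNReal.div_le_div_right (h2 r) _

end Pool.Agent.Lib.MP_da2c1b_co
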