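import Pool.Agent.Lib.MP_da2c1b_co.Defs

/-!
Packings and coverings with a prescribed set of motions.
-/

namespace Pool.Agent.Lib.MP_da2c1b_co

open MeasureTheory Set Filter Metric
open scoped Topology

/-- Every member of `F` is the image of `K` under an isometry in `G`. -/
def CopiesBy (G : Set (E ≃ᵢ E)) (K : Set E) (F : Set (Set E)) : Prop :=
  ∀ C ∈ F, ∃ φ ∈ G, C = φ '' K

/-- Packing density for copies under `G`. -/
noncomputable def pdBy (G : Set (E ≃ᵢ E)) (K : Set E) : ENNReal :=
  ⨆ (F : Set (Set E))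
    (_ : CopiesBy G K F ∧ F.Pairwise fun C D => Disjoint (interior C) (interior D)),
    limsup (dens F) atTop

/-- Covering density for copies under `G`. -/
noncomputable def cdBy (G : Set (E ≃ᵢ E)) (K : Set E) : ENNReal :=
  ⨅ (F : Set (Set E)) (_ : CopiesBy G K F ∧ ⋃₀ F = univ), liminf (dens F) atTop

/-- Translations and half-turns. -/
def PM : Set (E ≃ᵢ E) := {φ | ∃ c : E, (∀ x, φ x = c + x) ∨ ∀ x, φ x = c - x}

end Pool.Agent.Lib.MP_da2c1b_co
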