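import Pool.Agent.Lib.MP_da2c1b_co.T64Tri

/-!
Existence of a Delaunay triangulation.
-/

namespace Pool.Agent.Lib.MP_da2c1b_co

open MeasureTheory Set Filter Metric
open scoped Topology

theorem T64Del_mem {a b c y : E} : y ∈ tri (a, b, c) ↔ ∃ l m k : ℝ, 0 ≤ l ∧ 0 ≤ m ∧ 0 ≤ k ∧
    l + m + k = 1 ∧ y = l • a + m • b + k • c := by
  constructor
  · intro h
    refine convexHull_min (t := {y | ∃ l m k : ℝ, 0 ≤ l ∧ 0 ≤ m ∧ 0 ≤ k ∧
      l + m + k = 1 ∧ y = l • a + m • b + k • c}) ?_ ?_ h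
    · rintro x (rfl | rfl | rfl)
      · exact ⟨1, 0, 0, by norm_num, by norm_num, by norm_num, by norm_num, by simp⟩
      · exact ⟨0, 1, 0, by norm_num, by norm_num, by norm_num, by norm_num, by simp⟩
      · exact ⟨0, 0, 1, by norm_num, by norm_num, by norm_num, by norm_num, by simp⟩
    · rintro x ⟨l, m, k, h1, h2, h3, h4, rfl⟩ z ⟨l', m', k', g1, g2, g3, g4, rfl⟩ p q hp hq hpq
      refine ⟨p * l + q * l', p * m + q * m', p * k + q * k', by positivity, by positivity,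
        by positivity, ?_, by module⟩
      linear_combination p * h4 + q * g4 + hpq
  · rintro ⟨l, m, k, h1, h2, h3, h4, rfl⟩
    have h := (convex_convexHull ℝ ({a, b, c} : Set E)).sum_mem (t := Finset.univ)
      (w := ![l, m, k]) (z := ![a, b, c]) (fun i _ => by fin_cases i <;> simpa)
      (by simpa [Fin.sum_univ_three] using h4)
      (fun i _ => subset_convexHull ℝ _ (by fin_cases i <;> simp))
    simpa [Fin.sum_univ_three, tri] using h

theorem T64Del_cara {S : Finset E} {y : E} (h : y ∈ convexHull ℝ (S : Set E)) :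
    ∃ a ∈ S, ∃ b ∈ S, ∃ c ∈ S, y ∈ tri (a, b, c) := by
  classical
  rw [convexHull_eq_union] at h
  simp only [mem_iUnion] at h
  obtain ⟨t, ht, hi, hy⟩ := h
  have h1 := hi.card_le_finrank_succ
  have h2 := Submodule.finrank_le (vectorSpan ℝ (range ((↑) : t → E)))
  rw [finrank_euclideanSpace_fin] at h2
  rw [Fintype.card_coe] at h1
  have h3 : t.card = 0 ∨ t.card = 1 ∨ t.card = 2 ∨ t.card = 3 := by omega
  rcases h3 with h3 | h3 | h3 | h3
  · rw [Finset.card_eq_zero] at h3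
    subst h3
    simp at hy
  · obtain ⟨a, rfl⟩ := Finset.card_eq_one.1 h3
    have ha : a ∈ S := ht (by simp)
    exact ⟨a, ha, a, ha, a, ha, by simpa [tri] using hy⟩
  · obtain ⟨a, b, -, rfl⟩ := Finset.card_eq_two.1 h3
    have ha : a ∈ S := ht (by simp)
    have hb : b ∈ S := ht (by simp)
    exact ⟨a, ha, b, hb, b, hb, by simpa [tri] using hy⟩
  · obtain ⟨a, b, c, -, -, -, rfl⟩ := Finset.card_eq_three.1 h3
    exact ⟨a, ht (by simp), b, ht (by simp), c, ht (by simp), by simpa [tri] using hy⟩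

/-- The affine interpolant of the heights. -/
noncomputable def T64I (η : E → ℝ) (a b c y : E) : ℝ :=
  (w (b - y) (c - y) * η a + w (c - y) (a - y) * η b + w (a - y) (b - y) * η c) / w (b - a) (c - a)

theorem T64Del_aff (η : E → ℝ) (a b c : E) :
    ∃ α β κ : ℝ, ∀ y, T64I η a b c y = α * y 0 + β * y 1 + κ := by
  refine ⟨((b 1 - c 1) * η a + (c 1 - a 1) * η b + (a 1 - b 1) * η c) / w (b - a) (c - a),
    ((c 0 - b 0) * η a + (a 0 - c 0) * η b + (b 0 - a 0) * η c) / w (b - a) (c - a),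
    (w b c * η a + w c a * η b + w a b * η c) / w (b - a) (c - a), fun y => ?_⟩
  unfold T64I
  generalize w (b - a) (c - a) = D
  simp only [w, PiLp.sub_apply]
  ring

theorem T64Del_comb (η : E → ℝ) (a b c p q r : E) {l m k : ℝ} (h : l + m + k = 1) :
    T64I η a b c (l • p + m • q + k • r)
      = l * T64I η a b c p + m * T64I η a b c q + k * T64I η a b c r := by
  obtain ⟨α, β, κ, H⟩ := T64Del_aff η a b c
  simp only [H, PiLp.add_apply, PiLp.smul_apply, smul_eq_mul]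
  linear_combination (-κ) * h

theorem T64Del_vert (η : E → ℝ) {a b c : E} (h : w (b - a) (c - a) ≠ 0) :
    T64I η a b c a = η a ∧ T64I η a b c b = η b ∧ T64I η a b c c = η c := by
  unfold T64I
  refine ⟨?_, ?_, ?_⟩ <;> rw [div_eq_iff h] <;> simp only [w, PiLp.sub_apply] <;> ring

theorem T64Del_val (η : E → ℝ) {a b c : E} (h : w (b - a) (c - a) ≠ 0) {l m k : ℝ}
    (hs : l + m + k = 1) :
    T64I η a b c (l • a + m • b + k • c) = l * η a + m * η b + k * η c := by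
  obtain ⟨h1, h2, h3⟩ := T64Del_vert η h
  rw [T64Del_comb η a b c a b c hs, h1, h2, h3]

theorem T64Del_bary {a b c : E} (h : w (b - a) (c - a) ≠ 0) (d : E) :
    ∃ l m k : ℝ, l + m + k = 1 ∧ d = l • a + m • b + k • c := by
  have h1 := decomp h (d - a)
  set x := w (d - a) (c - a) / w (b - a) (c - a)
  set z := w (b - a) (d - a) / w (b - a) (c - a)
  refine ⟨1 - x - z, x, z, by ring, ?_⟩
  have h2 : d = a + (x • (b - a) + z • (c - a)) := by rw [← h1]; abel
  rw [h2]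
  module

/-- Points off all lines through two points of `S`. -/
def T64Gen (S : Finset E) (y : E) : Prop :=
  (∀ p ∈ S, ∀ q ∈ S, p ≠ q → w (p - y) (q - y) ≠ 0) ∧ ∀ p ∈ S, y ≠ p

theorem T64Del_pos {S : Finset E} {y a b c : E} (hy : T64Gen S y) (ha : a ∈ S) (hb : b ∈ S)
    (hc : c ∈ S) {l m k : ℝ} (hs : l + m + k = 1) (h : y = l • a + m • b + k • c) :
    w (b - a) (c - a) ≠ 0 ∧ l ≠ 0 ∧ m ≠ 0 ∧ k ≠ 0 := by
  obtain rfl : l = 1 - m - k := by linarith
  have e1 : w (b - y) (c - y) = (1 - m - k) * w (b - a) (c - a) := by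
    simp only [h, w, PiLp.sub_apply, PiLp.add_apply, PiLp.smul_apply, smul_eq_mul]; ring
  have e2 : w (c - y) (a - y) = m * w (b - a) (c - a) := by
    simp only [h, w, PiLp.sub_apply, PiLp.add_apply, PiLp.smul_apply, smul_eq_mul]; ring
  have e3 : w (a - y) (b - y) = k * w (b - a) (c - a) := by
    simp only [h, w, PiLp.sub_apply, PiLp.add_apply, PiLp.smul_apply, smul_eq_mul]; ring
  have hD : w (b - a) (c - a) ≠ 0 := by
    intro h0
    rw [h0, mul_zero] at e1 e3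
    have hab : a = b := by
      by_contra hne
      exact hy.1 a ha b hb hne e3
    have hbc : b = c := by
      by_contra hne
      exact hy.1 b hb c hc hne e1
    subst hab hbc
    exact hy.2 a ha (by rw [h]; module)
  have hab : a ≠ b := by
    rintro rfl
    exact hD (by simp [w])
  have hca : c ≠ a := by
    rintro rfl
    exact hD (by simp [w])
  have hbc : b ≠ c := by
    rintro rfl
    exact hD (by simp only [w]; ring)
  have g1 := hy.1 b hb c hc hbc
  have g2 := hy.1 c hc a ha hca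
  have g3 := hy.1 a ha b hb hab
  rw [e1] at g1
  rw [e2] at g2
  rw [e3] at g3
  exact ⟨hD, left_ne_zero_of_mul g1, left_ne_zero_of_mul g2, left_ne_zero_of_mul g3⟩

theorem T64Del_ev (A : ℝ) {B : ℝ} (hB : B ≠ 0) :
    ∀ᶠ s in 𝓝[>] (0 : ℝ), A + s * B ≠ 0 ∧ (A < 0 → A + s * B < 0) := by
  by_cases hA : A = 0
  · filter_upwards [self_mem_nhdsWithin] with s hs
    subst hA
    exact ⟨by rw [zero_add]; exact mul_ne_zero (ne_of_gt hs) hB, fun h => absurd h (lt_irrefl _)⟩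
  · have hc : Continuous fun s : ℝ => A + s * B := by fun_prop
    have ht : Tendsto (fun s : ℝ => A + s * B) (𝓝[>] 0) (𝓝 A) := by
      have := (hc.tendsto 0).mono_left (nhdsWithin_le_nhds (s := Ioi 0))
      simpa using this
    by_cases hn : A < 0
    · filter_upwards [ht.eventually_ne hA, ht.eventually (gt_mem_nhds hn)] with s h1 h2
      exact ⟨h1, fun _ => h2⟩
    · filter_upwards [ht.eventually_ne hA] with s h1
      exact ⟨h1, fun h => absurd h hn⟩

theorem T64Del_dir (S : Finset E) :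
    ∃ v : E, v 0 ≠ 0 ∧ ∀ p ∈ S, ∀ q ∈ S, w v p = w v q → p = q := by
  classical
  obtain ⟨τ, hτ⟩ := Infinite.exists_notMem_finset
    ((S ×ˢ S).image fun x : E × E => (x.1 1 - x.2 1) / (x.1 0 - x.2 0))
  refine ⟨!₂[1, τ], by simp, fun p hp q hq h => ?_⟩
  have h1 : p 1 - q 1 = τ * (p 0 - q 0) := by
    simp [w] at h
    linarith
  by_cases h0 : p 0 - q 0 = 0
  · rw [h0, mul_zero] at h1
    ext i
    fin_cases i
    · exact sub_eq_zero.1 h0
    · exact sub_eq_zero.1 h1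
  · refine absurd (Finset.mem_image.2 ⟨(p, q), Finset.mem_product.2 ⟨hp, hq⟩, ?_⟩) hτ
    simp only
    rw [h1, mul_div_cancel_right₀ _ h0]

theorem T64Del_near {S : Finset E} {v : E} (h0 : v 0 ≠ 0)
    (hv : ∀ p ∈ S, ∀ q ∈ S, w v p = w v q → p = q) (y : E) :
    ∀ᶠ s in 𝓝[>] (0 : ℝ), T64Gen S (y + s • v) := by
  refine Eventually.and ?_ ?_
  · refine (eventually_all_finset S).2 fun p hp => (eventually_all_finset S).2 fun q hq => ?_
    by_cases hpq : p = q
    · exact Eventually.of_forall fun s h => absurd hpq h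
    · have hB : w v p - w v q ≠ 0 := fun h => hpq (hv p hp q hq (sub_eq_zero.1 h))
      filter_upwards [T64Del_ev (w (p - y) (q - y)) hB] with s hs _
      convert hs.1 using 1
      simp only [w, PiLp.sub_apply, PiLp.add_apply, PiLp.smul_apply, smul_eq_mul]
      ring
  · refine (eventually_all_finset S).2 fun p _ => ?_
    filter_upwards [T64Del_ev (y 0 - p 0) h0] with s hs h
    apply hs.1
    rw [← h]
    simp only [PiLp.add_apply, PiLp.smul_apply, smul_eq_mul]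
    ring

theorem T64Del_tend (y v : E) : Tendsto (fun s : ℝ => y + s • v) (𝓝[>] 0) (𝓝 y) := by
  have hc : Continuous fun s : ℝ => y + s • v := by fun_prop
  have := (hc.tendsto 0).mono_left (nhdsWithin_le_nhds (s := Ioi 0))
  simpa using this

/-- The height defect at `d`, as a linear form in the heights. -/
noncomputable def T64F (a b c d : E) : Module.Dual ℝ (E → ℝ) where
  toFun η := η d - T64I η a b c d
  map_add' η η' := by simp only [T64I, Pi.add_apply]; ring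
  map_smul' s η := by simp only [T64I, Pi.smul_apply, smul_eq_mul, RingHom.id_apply]; ring

theorem T64Del_eta (S : Finset E) (η₀ : E → ℝ) : ∃ η : E → ℝ, ∀ a ∈ S, ∀ b ∈ S, ∀ c ∈ S, ∀ d ∈ S,
    d ≠ a → d ≠ b → d ≠ c → η d - T64I η a b c d ≠ 0 ∧
      (η₀ d - T64I η₀ a b c d < 0 → η d - T64I η a b c d < 0) := by
  classical
  obtain ⟨e, he⟩ := Module.Dual.exists_forall_ne_zero_of_forall_exists
    (fun x : {x : S × S × S × S // x.2.2.2 ≠ x.1 ∧ x.2.2.2 ≠ x.2.1 ∧ x.2.2.2 ≠ x.2.2.1} =>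
      T64F x.1.1 x.1.2.1 x.1.2.2.1 x.1.2.2.2) (by
    rintro ⟨⟨a, b, c, d⟩, h1, h2, h3⟩
    refine ⟨fun x => if x = d then 1 else 0, ?_⟩
    have g1 : (a : E) ≠ d := fun h => h1 (Subtype.ext h.symm)
    have g2 : (b : E) ≠ d := fun h => h2 (Subtype.ext h.symm)
    have g3 : (c : E) ≠ d := fun h => h3 (Subtype.ext h.symm)
    simp [T64F, T64I, g1, g2, g3])
  have key : ∀ᶠ s in 𝓝[>] (0 : ℝ), ∀ a ∈ S, ∀ b ∈ S, ∀ c ∈ S, ∀ d ∈ S,
      d ≠ a → d ≠ b → d ≠ c → T64F a b c d (η₀ + s • e) ≠ 0 ∧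
        (T64F a b c d η₀ < 0 → T64F a b c d (η₀ + s • e) < 0) := by
    refine (eventually_all_finset S).2 fun a ha => (eventually_all_finset S).2 fun b hb =>
      (eventually_all_finset S).2 fun c hc => (eventually_all_finset S).2 fun d hd => ?_
    by_cases h : d ≠ a ∧ d ≠ b ∧ d ≠ c
    · have hB := he ⟨(⟨a, ha⟩, ⟨b, hb⟩, ⟨c, hc⟩, ⟨d, hd⟩), fun g => h.1 (congrArg Subtype.val g),
        fun g => h.2.1 (congrArg Subtype.val g), fun g => h.2.2 (congrArg Subtype.val g)⟩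
      filter_upwards [T64Del_ev (T64F a b c d η₀) hB] with s hs _ _ _
      rw [map_add, map_smul, smul_eq_mul]
      exact hs
    · exact Eventually.of_forall fun s h1 h2 h3 => absurd ⟨h1, h2, h3⟩ h
  obtain ⟨s, hs⟩ := key.exists
  exact ⟨η₀ + s • e, hs⟩

/-- A lower face of the lifted point set. -/
def T64Low (S : Finset E) (η : E → ℝ) (a b c : E) : Prop :=
  a ∈ S ∧ b ∈ S ∧ c ∈ S ∧ w (b - a) (c - a) ≠ 0 ∧
    ∀ d ∈ S, d ≠ a → d ≠ b → d ≠ c → T64I η a b c d < η d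

variable {S : Finset E} {η : E → ℝ} {a b c y : E}

theorem T64Low.le (h : T64Low S η a b c) {d : E} (hd : d ∈ S) : T64I η a b c d ≤ η d := by
  obtain ⟨h1, h2, h3⟩ := T64Del_vert η h.2.2.2.1
  by_cases g1 : d = a
  · rw [g1, h1]
  by_cases g2 : d = b
  · rw [g2, h2]
  by_cases g3 : d = c
  · rw [g3, h3]
  exact (h.2.2.2.2 d hd g1 g2 g3).le

theorem T64Low.vert (h : T64Low S η a b c) {d : E} (hd : d ∈ S) (he : η d ≤ T64I η a b c d) :
    d = a ∨ d = b ∨ d = c := by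
  by_contra g
  push Not at g
  exact absurd (h.2.2.2.2 d hd g.1 g.2.1 g.2.2) (not_lt.2 he)

theorem T64Low.sw1 (h : T64Low S η a b c ∧ y ∈ tri (a, b, c)) :
    T64Low S η b a c ∧ y ∈ tri (b, a, c) := by
  obtain ⟨⟨h1, h2, h3, h4, h5⟩, h6⟩ := h
  have e : w (a - b) (c - b) = -w (b - a) (c - a) := by simp only [w, PiLp.sub_apply]; ring
  refine ⟨⟨h2, h1, h3, by rw [e]; exact neg_ne_zero.2 h4, fun d hd g1 g2 g3 => ?_⟩, ?_⟩
  · convert h5 d hd g2 g1 g3 using 1
    unfold T64I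
    rw [e, div_neg, ← neg_div]
    congr 1
    simp only [w, PiLp.sub_apply]
    ring
  · simpa only [tri, Set.insert_comm b a] using h6

theorem T64Low.sw2 (h : T64Low S η a b c ∧ y ∈ tri (a, b, c)) :
    T64Low S η a c b ∧ y ∈ tri (a, c, b) := by
  obtain ⟨⟨h1, h2, h3, h4, h5⟩, h6⟩ := h
  have e : w (c - a) (b - a) = -w (b - a) (c - a) := by simp only [w, PiLp.sub_apply]; ring
  refine ⟨⟨h1, h3, h2, by rw [e]; exact neg_ne_zero.2 h4, fun d hd g1 g2 g3 => ?_⟩, ?_⟩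
  · convert h5 d hd g1 g3 g2 using 1
    unfold T64I
    rw [e, div_neg, ← neg_div]
    congr 1
    simp only [w, PiLp.sub_apply]
    ring
  · simpa only [tri, Set.pair_comm c b] using h6

theorem T64Del_step (hy : T64Gen S y) (hb : b ∈ S) (hc : c ∈ S) {d : E} (hd : d ∈ S)
    {l m k l' m' k' : ℝ} (hl : 0 < l) (hm : 0 < m) (hk : 0 < k) (hs : l + m + k = 1)
    (hs' : l' + m' + k' = 1) (h : y = l • a + m • b + k • c) (h' : d = l' • a + m' • b + k' • c)
    (hη : η d < l' * η a + m' * η b + k' * η c) (h1 : m' / m ≤ l' / l) (h2 : k' / k ≤ l' / l) :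
    ∃ p ∈ S, ∃ q ∈ S, ∃ r ∈ S, y ∈ tri (p, q, r) ∧
      T64I η p q r y < l * η a + m * η b + k * η c := by
  rw [div_le_div_iff₀ hm hl] at h1
  rw [div_le_div_iff₀ hk hl] at h2
  have hl' : 0 < l' := by
    by_contra g
    push Not at g
    have g1 : m' * l ≤ 0 := h1.trans (mul_nonpos_of_nonpos_of_nonneg g hm.le)
    have g2 : k' * l ≤ 0 := h2.trans (mul_nonpos_of_nonpos_of_nonneg g hk.le)
    have g3 : m' ≤ 0 := nonpos_of_mul_nonpos_left g1 hl
    have g4 : k' ≤ 0 := nonpos_of_mul_nonpos_left g2 hl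
    linarith
  obtain ⟨τ, rfl⟩ : ∃ τ, l = τ * l' := ⟨l / l', by field_simp⟩
  have hτ : 0 < τ := (mul_pos_iff_of_pos_right hl').1 hl
  have g1 : 0 ≤ m - τ * m' := by
    have : 0 ≤ (m - τ * m') * l' := by linarith
    exact nonneg_of_mul_nonneg_left this hl'
  have g2 : 0 ≤ k - τ * k' := by
    have : 0 ≤ (k - τ * k') * l' := by linarith
    exact nonneg_of_mul_nonneg_left this hl'
  have g3 : τ + (m - τ * m') + (k - τ * k') = 1 := by linear_combination hs - τ * hs'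
  have g4 : y = τ • d + (m - τ * m') • b + (k - τ * k') • c := by rw [h, h']; module
  refine ⟨d, hd, b, hb, c, hc, T64Del_mem.2 ⟨_, _, _, hτ.le, g1, g2, g3, g4⟩, ?_⟩
  have g5 := T64Del_val η (T64Del_pos hy hd hb hc g3 g4).1 g3
  rw [← g4] at g5
  rw [g5]
  have := mul_lt_mul_of_pos_left hη hτ
  linarith

theorem T64Del_low (hη : ∀ a ∈ S, ∀ b ∈ S, ∀ c ∈ S, ∀ d ∈ S,
    d ≠ a → d ≠ b → d ≠ c → η d - T64I η a b c d ≠ 0) (hy : T64Gen S y)
    (h : y ∈ convexHull ℝ (S : Set E)) : ∃ a b c, T64Low S η a b c ∧ y ∈ tri (a, b, c) := by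
  classical
  obtain ⟨⟨a, b, c⟩, ht, hmin⟩ := Finset.exists_min_image
    ((S ×ˢ S ×ˢ S).filter fun t => y ∈ tri t) (fun t => T64I η t.1 t.2.1 t.2.2 y) (by
      obtain ⟨a, ha, b, hb, c, hc, h1⟩ := T64Del_cara h
      exact ⟨(a, b, c), by simp [ha, hb, hc, h1]⟩)
  simp only [Finset.mem_filter, Finset.mem_product] at ht hmin
  obtain ⟨⟨ha, hb, hc⟩, hyt⟩ := ht
  obtain ⟨l, m, k, h1, h2, h3, hs, hye⟩ := T64Del_mem.1 hyt
  obtain ⟨hD, g1, g2, g3⟩ := T64Del_pos hy ha hb hc hs hye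
  have hl := h1.lt_of_ne' g1
  have hm := h2.lt_of_ne' g2
  have hk := h3.lt_of_ne' g3
  refine ⟨a, b, c, ⟨ha, hb, hc, hD, fun d hd d1 d2 d3 => ?_⟩, hyt⟩
  by_contra hn
  have hlt : η d < T64I η a b c d :=
    (not_lt.1 hn).lt_of_ne fun g => hη a ha b hb c hc d hd d1 d2 d3 (sub_eq_zero.2 g)
  obtain ⟨l', m', k', hs', hde⟩ := T64Del_bary hD d
  have v1 := T64Del_val η hD hs'
  rw [← hde] at v1
  rw [v1] at hlt
  have v2 := T64Del_val η hD hs
  rw [← hye] at v2
  have fin : ¬ ∃ p ∈ S, ∃ q ∈ S, ∃ r ∈ S, y ∈ tri (p, q, r) ∧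
      T64I η p q r y < l * η a + m * η b + k * η c := by
    rintro ⟨p, hp, q, hq, r, hr, f1, f2⟩
    have := hmin (p, q, r) ⟨⟨hp, hq, hr⟩, f1⟩
    simp only at this
    linarith
  apply fin
  have A : m' / m ≤ l' / l → k' / k ≤ l' / l → _ :=
    T64Del_step hy hb hc hd hl hm hk hs hs' hye hde hlt
  have B : l' / l ≤ m' / m → k' / k ≤ m' / m → _ :=
    T64Del_step (η := η) (a := b) hy ha hc hd hm hl hk (by linarith) (by linarith)
      (by rw [hye]; abel) (by rw [hde]; abel) (by linarith)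
  have C : l' / l ≤ k' / k → m' / m ≤ k' / k → _ :=
    T64Del_step (η := η) (a := c) hy ha hb hd hk hl hm (by linarith) (by linarith)
      (by rw [hye]; abel) (by rw [hde]; abel) (by linarith)
  rw [show m * η b + l * η a + k * η c = l * η a + m * η b + k * η c by ring] at B
  rw [show k * η c + l * η a + m * η b = l * η a + m * η b + k * η c by ring] at C
  rcases le_total (m' / m) (l' / l) with x1 | x1
  · rcases le_total (k' / k) (l' / l) with x2 | x2
    · exact A x1 x2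
    · exact C x2 (x1.trans x2)
  · rcases le_total (k' / k) (m' / m) with x2 | x2
    · exact B x1 x2
    · exact C (x1.trans x2) x2

theorem T64Del_sort {v : E} (hv : ∀ p ∈ S, ∀ q ∈ S, w v p = w v q → p = q)
    (h : T64Low S η a b c ∧ y ∈ tri (a, b, c)) :
    ∃ a b c, (T64Low S η a b c ∧ y ∈ tri (a, b, c)) ∧ w v a < w v b ∧ w v b < w v c := by
  obtain ⟨ha, hb, hc, hD, -⟩ := h.1
  have hab : w v a ≠ w v b := fun g => by
    obtain rfl := hv a ha b hb g
    exact hD (by simp [w])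
  have hac : w v a ≠ w v c := fun g => by
    obtain rfl := hv a ha c hc g
    exact hD (by simp [w])
  have hbc : w v b ≠ w v c := fun g => by
    obtain rfl := hv b hb c hc g
    exact hD (by simp only [w]; ring)
  rcases hab.lt_or_gt with x | x <;> rcases hac.lt_or_gt with x' | x' <;>
    rcases hbc.lt_or_gt with x'' | x''
  · exact ⟨_, _, _, h, x, x''⟩
  · exact ⟨_, _, _, T64Low.sw2 h, x', x''⟩
  · linarith
  · exact ⟨_, _, _, T64Low.sw1 (T64Low.sw2 h), x', x⟩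
  · exact ⟨_, _, _, T64Low.sw1 h, x, x'⟩
  · linarith
  · exact ⟨_, _, _, T64Low.sw2 (T64Low.sw1 h), x'', x'⟩
  · exact ⟨_, _, _, T64Low.sw1 (T64Low.sw2 (T64Low.sw1 h)), x'', x⟩

theorem T64Del_uniq {a' b' c' : E} (hy : T64Gen S y) (h : T64Low S η a b c)
    (h' : T64Low S η a' b' c') (hm : y ∈ tri (a, b, c)) (hm' : y ∈ tri (a', b', c')) :
    (a = a' ∨ a = b' ∨ a = c') ∧ (b = a' ∨ b = b' ∨ b = c') ∧ (c = a' ∨ c = b' ∨ c = c') := by
  obtain ⟨l, m, k, h1, h2, h3, hs, hye⟩ := T64Del_mem.1 hm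
  obtain ⟨l', m', k', g1, g2, g3, hs', hye'⟩ := T64Del_mem.1 hm'
  obtain ⟨hD, n1, n2, n3⟩ := T64Del_pos hy h.1 h.2.1 h.2.2.1 hs hye
  have hl := h1.lt_of_ne' n1
  have hmm := h2.lt_of_ne' n2
  have hk := h3.lt_of_ne' n3
  have v1 := T64Del_val η hD hs
  have v2 := T64Del_val η h'.2.2.2.1 hs'
  have v3 := T64Del_comb η a b c a' b' c' hs'
  have v4 := T64Del_comb η a' b' c' a b c hs
  rw [← hye] at v1 v4
  rw [← hye'] at v2 v3
  have p1 := mul_le_mul_of_nonneg_left (h.le h'.1) g1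
  have p2 := mul_le_mul_of_nonneg_left (h.le h'.2.1) g2
  have p3 := mul_le_mul_of_nonneg_left (h.le h'.2.2.1) g3
  have q1 := mul_le_mul_of_nonneg_left (h'.le h.1) h1
  have q2 := mul_le_mul_of_nonneg_left (h'.le h.2.1) h2
  have q3 := mul_le_mul_of_nonneg_left (h'.le h.2.2.1) h3
  exact ⟨h'.vert h.1 (le_of_mul_le_mul_left (by linarith) hl),
    h'.vert h.2.1 (le_of_mul_le_mul_left (by linarith) hmm),
    h'.vert h.2.2.1 (le_of_mul_le_mul_left (by linarith) hk)⟩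

theorem T64Del_circ (hD : w (b - a) (c - a) ≠ 0) (h : ∀ d ∈ S, d ≠ a → d ≠ b → d ≠ c →
    T64I (fun x => x 0 ^ 2 + x 1 ^ 2) a b c d ≤ d 0 ^ 2 + d 1 ^ 2) :
    ∃ (o : E) (ρ : ℝ), dist a o = ρ ∧ dist b o = ρ ∧ dist c o = ρ ∧ ∀ s ∈ S, ρ ≤ dist s o := by
  obtain ⟨h1, h2, h3⟩ := T64Del_vert (fun x => x 0 ^ 2 + x 1 ^ 2) hD
  obtain ⟨α, β, κ, H⟩ := T64Del_aff (fun x => x 0 ^ 2 + x 1 ^ 2) a b c
  simp only [H] at h h1 h2 h3
  have hd : ∀ x : E, dist x !₂[α / 2, β / 2] = √((x 0 - α / 2) ^ 2 + (x 1 - β / 2) ^ 2) := by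
    intro x
    simp [EuclideanSpace.dist_eq, Fin.sum_univ_two, Real.dist_eq]
  have e1 : dist a !₂[α / 2, β / 2] = √(κ + α ^ 2 / 4 + β ^ 2 / 4) := by
    rw [hd]; congr 1; linarith
  have e2 : dist b !₂[α / 2, β / 2] = √(κ + α ^ 2 / 4 + β ^ 2 / 4) := by
    rw [hd]; congr 1; linarith
  have e3 : dist c !₂[α / 2, β / 2] = √(κ + α ^ 2 / 4 + β ^ 2 / 4) := by
    rw [hd]; congr 1; linarith
  refine ⟨_, _, e1, e2, e3, fun s hs => ?_⟩
  by_cases g1 : s = a
  · rw [g1, e1]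
  by_cases g2 : s = b
  · rw [g2, e2]
  by_cases g3 : s = c
  · rw [g3, e3]
  rw [hd]
  have := h s hs g1 g2 g3
  exact Real.sqrt_le_sqrt (by linarith)

theorem exists_trg (S : Finset E) : ∃ v T, Trg S v T := by
  classical
  obtain ⟨v, h0, hv⟩ := T64Del_dir S
  obtain ⟨η, hη⟩ := T64Del_eta S fun x => x 0 ^ 2 + x 1 ^ 2
  set T := (S ×ˢ S ×ˢ S).filter fun t : E × E × E => T64Low S η t.1 t.2.1 t.2.2 ∧
    w v t.1 < w v t.2.1 ∧ w v t.2.1 < w v t.2.2 with hT
  refine ⟨v, T, hv, ?_, ?_, ?_, ?_⟩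
  · rintro rfl
    exact h0 rfl
  · rintro ⟨a, b, c⟩ ht
    obtain ⟨⟨ha, hb, hc, hD, hL⟩, o1, o2⟩ := (Finset.mem_filter.1 ht).2
    refine ⟨ha, hb, hc, o1, o2, hD, T64Del_circ hD fun d hd d1 d2 d3 => ?_⟩
    by_contra g
    have g1 := (hη a ha b hb c hc d hd d1 d2 d3).2 (sub_neg.2 (not_le.1 g))
    have g2 := hL d hd d1 d2 d3
    simp only at g2
    linarith
  · rintro ⟨a, b, c⟩ ht ⟨a', b', c'⟩ ht' hne
    obtain ⟨hL, o1, o2⟩ := (Finset.mem_filter.1 ht).2
    obtain ⟨hL', o1', o2'⟩ := (Finset.mem_filter.1 ht').2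
    simp only at hL hL' o1 o2 o1' o2'
    refine Set.disjoint_left.2 fun y hy hy' => hne ?_
    obtain ⟨s, s1, s2, s3⟩ := ((T64Del_near h0 hv y).and
      (((T64Del_tend y v).eventually (mem_interior_iff_mem_nhds.1 hy)).and
        ((T64Del_tend y v).eventually (mem_interior_iff_mem_nhds.1 hy')))).exists
    obtain ⟨x1, x2, x3⟩ := T64Del_uniq s1 hL hL' s2 s3
    rcases x1 with rfl | rfl | rfl <;> rcases x2 with rfl | rfl | rfl <;>
      rcases x3 with rfl | rfl | rfl <;> first | rfl | (exfalso; linarith)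
  · intro y hy
    have hcl : IsClosed (⋃ t ∈ T, tri t) :=
      T.finite_toSet.isClosed_biUnion fun t _ => (toFinite _).isClosed_convexHull ℝ
    have hmem : y ∈ ⋃ t ∈ T, tri t := by
      refine hcl.mem_of_tendsto (T64Del_tend y v) ?_
      filter_upwards [T64Del_near h0 hv y,
        (T64Del_tend y v).eventually (mem_interior_iff_mem_nhds.1 hy)] with s s1 s2
      obtain ⟨a, b, c, h1⟩ := T64Del_low
        (fun a ha b hb c hc d hd d1 d2 d3 => (hη a ha b hb c hc d hd d1 d2 d3).1) s1 s2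
      obtain ⟨a, b, c, ⟨g1, g2⟩, g3⟩ := T64Del_sort hv h1
      refine mem_iUnion₂.2 ⟨(a, b, c), Finset.mem_filter.2 ⟨?_, g1, g3⟩, g2⟩
      simp [g1.1, g1.2.1, g1.2.2.1]
    obtain ⟨t, ht, hy⟩ := mem_iUnion₂.1 hmem
    exact ⟨t, ht, hy⟩

end Pool.Agent.Lib.MP_da2c1b_co
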