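import Pool.Agent.Lib.MP_da2c1b_co.T64Area
import Pool.Agent.Lib.MP_da2c1b_co.T64Del
import Pool.Agent.Lib.MP_da2c1b_co.T64Cnt

/-!
The theorems of Thue and Kershner for finite sets of centres.
-/

namespace Pool.Agent.Lib.MP_da2c1b_co

open MeasureTheory Set Filter Metric
open scoped Topology

theorem T64Fin_max (S : Finset E) (h : ∀ p ∈ S, ∀ q ∈ S, p ≠ q → 2 ≤ dist p q) :
    ∃ S' : Finset E, S ⊆ S' ∧ (∀ p ∈ S', ∀ q ∈ S', p ≠ q → 2 ≤ dist p q) ∧
      ∀ y ∈ S, ∀ x, dist x y ≤ 2 * 2 → ∃ s ∈ S', dist x s ≤ 2 := by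
  classical
  have hc : IsCompact (⋃ s ∈ S, closedBall s 4) :=
    S.isCompact_biUnion fun s _ => isCompact_closedBall s 4
  obtain ⟨t, ht, hcov⟩ := Metric.totallyBounded_iff.1 hc.totallyBounded 1 one_pos
  let N : Set ℕ := {n | ∃ S' : Finset E, S ⊆ S' ∧ (∀ p ∈ S', ∀ q ∈ S', p ≠ q → 2 ≤ dist p q) ∧
    (∀ p ∈ S', p ∈ ⋃ s ∈ S, closedBall s 4) ∧ S'.card = n}
  have hb : BddAbove N := by
    refine ⟨ht.toFinset.card, ?_⟩
    rintro _ ⟨S', -, h2, h3, rfl⟩
    have : ∀ p ∈ S', ∃ y ∈ ht.toFinset, dist p y < 1 := fun p hp => by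
      obtain ⟨y, hy, hy'⟩ := mem_iUnion₂.1 (hcov (h3 p hp))
      exact ⟨y, ht.mem_toFinset.2 hy, hy'⟩
    choose! f hf1 hf2 using this
    refine Finset.card_le_card_of_injOn f (fun p hp => hf1 p hp) fun p hp q hq e => ?_
    by_contra hne
    have h4 := h2 p hp q hq hne
    have h5 := dist_triangle_right p q (f p)
    have h6 := hf2 p hp
    have h7 := hf2 q hq
    rw [← e] at h7
    linarith
  have hn : N.Nonempty := ⟨_, S, subset_rfl, h,
    fun p hp => mem_iUnion₂.2 ⟨p, hp, mem_closedBall_self (by norm_num)⟩, rfl⟩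
  obtain ⟨S', h1, h2, h3, h4⟩ := Nat.sSup_mem hn hb
  refine ⟨S', h1, h2, fun y hy x hx => ?_⟩
  by_contra hcon
  push Not at hcon
  have hx' : x ∉ S' := fun hx' => by
    have := hcon x hx'
    rw [dist_self] at this
    linarith
  have h5 : S'.card + 1 ∈ N := by
    refine ⟨insert x S', h1.trans (Finset.subset_insert _ _), fun p hp q hq hne => ?_,
      fun p hp => ?_, Finset.card_insert_of_notMem hx'⟩
    · rcases Finset.mem_insert.1 hp with rfl | hp' <;> rcases Finset.mem_insert.1 hq with rfl | hq'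
      · exact absurd rfl hne
      · exact (hcon q hq').le
      · exact dist_comm p q ▸ (hcon p hp').le
      · exact h2 p hp' q hq' hne
    · rcases Finset.mem_insert.1 hp with rfl | hp'
      · exact mem_iUnion₂.2 ⟨y, hy, mem_closedBall.2 (by linarith)⟩
      · exact h3 p hp'
  have := le_csSup hb h5
  omega

theorem T64Fin_sub {t : E × E × E} {o : E} {ρ : ℝ} (h1 : dist t.1 o = ρ) (h2 : dist t.2.1 o = ρ)
    (h3 : dist t.2.2 o = ρ) : tri t ⊆ closedBall o ρ := by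
  refine convexHull_min ?_ (convex_closedBall o ρ)
  rintro x (rfl | rfl | rfl)
  exacts [h1.le, h2.le, h3.le]

theorem thue_fin (S : Finset E) (h : ∀ p ∈ S, ∀ q ∈ S, p ≠ q → 2 ≤ dist p q) :
    (S.card : ENNReal) * ENNReal.ofReal √12 ≤ volume {x | ∃ s ∈ S, dist x s ≤ 4} := by
  obtain ⟨S', h1, h2, h3⟩ := T64Fin_max S h
  obtain ⟨v, T, hT⟩ := exists_trg S'
  obtain ⟨T₀, h4, h5, h6⟩ := hT.le_card S h1 fun s hs => mem_interior_hull (h3 s hs) two_pos
  have key : ∀ t ∈ T₀, ENNReal.ofReal (√12 / 2) ≤ volume (interior (tri t)) ∧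
      interior (tri t) ⊆ {x | ∃ s ∈ S, dist x s ≤ 4} := by
    intro t ht
    obtain ⟨a1, a2, a3, b1, b2, -, o, ρ, c1, c2, c3, c4⟩ := hT.del t (h4 ht)
    have hρ : ρ ≤ 2 := radius_le c2.le c4 (h3 _ (h6 t ht)) two_pos
    refine ⟨?_, fun x hx => ⟨_, h6 t ht, ?_⟩⟩
    · rw [vol_interior_tri, vol_tri]
      refine ENNReal.ofReal_le_ofReal (le_w_of_circle c1 c2 c3 hρ (h2 _ a1 _ a2 ?_)
        (h2 _ a1 _ a3 ?_) (h2 _ a2 _ a3 ?_)) <;> intro e
      · rw [e] at b1
        exact lt_irrefl _ b1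
      · rw [e] at b1
        exact lt_asymm b1 b2
      · rw [e] at b2
        exact lt_irrefl _ b2
    · have h7 : dist x o ≤ ρ := T64Fin_sub c1 c2 c3 (interior_subset hx)
      have h8 := dist_triangle_right x t.2.1 o
      linarith
  calc (S.card : ENNReal) * ENNReal.ofReal √12
      = ((2 * S.card : ℕ) : ENNReal) * ENNReal.ofReal (√12 / 2) := by
        rw [← ENNReal.ofReal_natCast, ← ENNReal.ofReal_natCast,
          ← ENNReal.ofReal_mul (by positivity), ← ENNReal.ofReal_mul (by positivity)]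
        congr 1
        push_cast
        ring
    _ ≤ (T₀.card : ENNReal) * ENNReal.ofReal (√12 / 2) := by gcongr
    _ = ∑ _t ∈ T₀, ENNReal.ofReal (√12 / 2) := by rw [Finset.sum_const, nsmul_eq_mul]
    _ ≤ ∑ t ∈ T₀, volume (interior (tri t)) := Finset.sum_le_sum fun t ht => (key t ht).1
    _ = volume (⋃ t ∈ T₀, interior (tri t)) :=
        (measure_biUnion_finset (fun t ht t' ht' hne => hT.dis t (h4 ht) t' (h4 ht') hne)
          fun t _ => isOpen_interior.measurableSet).symm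
    _ ≤ _ := measure_mono (iUnion₂_subset fun t ht => (key t ht).2)

theorem kershner_fin (S : Finset E) (X : Set E)
    (h : ∀ y ∈ X, ∀ x, dist x y ≤ 2 → ∃ s ∈ S, dist x s ≤ 1) :
    volume X ≤ (S.card : ENNReal) * ENNReal.ofReal (√27 / 2) := by
  classical
  obtain ⟨v, T, hT⟩ := exists_trg S
  let T₀ := T.filter fun t => volume (tri t) ≤ ENNReal.ofReal (√27 / 4)
  have hc : X ⊆ ⋃ t ∈ T₀, tri t := by
    intro y hy
    have h1 : ∀ x, dist x y ≤ 2 * 1 → ∃ s ∈ S, dist x s ≤ 1 := fun x hx => h y hy x (by linarith)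
    obtain ⟨t, ht, hyt⟩ := hT.cov y (mem_interior_hull h1 one_pos)
    obtain ⟨-, -, -, -, -, -, o, ρ, c1, c2, c3, c4⟩ := hT.del t ht
    have hρ : ρ ≤ 1 := radius_le (T64Fin_sub c1 c2 c3 hyt) c4 h1 one_pos
    refine mem_iUnion₂.2 ⟨t, Finset.mem_filter.2 ⟨ht, ?_⟩, hyt⟩
    rw [vol_tri]
    exact ENNReal.ofReal_le_ofReal (w_le_of_circle c1 c2 c3 hρ)
  calc volume X ≤ ∑ t ∈ T₀, volume (tri t) :=
        (measure_mono hc).trans (measure_biUnion_finset_le _ _)
    _ ≤ ∑ _t ∈ T₀, ENNReal.ofReal (√27 / 4) :=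
        Finset.sum_le_sum fun t ht => (Finset.mem_filter.1 ht).2
    _ = (T₀.card : ENNReal) * ENNReal.ofReal (√27 / 4) := by rw [Finset.sum_const, nsmul_eq_mul]
    _ ≤ ((2 * S.card : ℕ) : ENNReal) * ENNReal.ofReal (√27 / 4) := by
        gcongr
        exact (Finset.card_filter_le _ _).trans hT.card_le
    _ = _ := by
        rw [← ENNReal.ofReal_natCast, ← ENNReal.ofReal_natCast,
          ← ENNReal.ofReal_mul (by positivity), ← ENNReal.ofReal_mul (by positivity)]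
        congr 1
        push_cast
        ring

end Pool.Agent.Lib.MP_da2c1b_co
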