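import Pool.Agent.Lib.MP_da2c1b_co.T64Defs
import Pool.Agent.Lib.MP_da2c1b_co.Main

/-!
The hexagonal packing and covering.
-/

namespace Pool.Agent.Lib.MP_da2c1b_co

open MeasureTheory Set Filter Metric
open scoped Topology

theorem T64Hex_det (x y : E) : B0.det ![x, y] = w x y := by
  rw [Module.Basis.det_apply, Matrix.det_fin_two]
  simp [Module.Basis.toMatrix_apply, B0, w]
  ring

theorem T64Hex_w (A : E ≃ₗ[ℝ] E) (x y : E) :
    w (A x) (A y) = LinearMap.det (A : E →ₗ[ℝ] E) * w x y := by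
  rw [← T64Hex_det, ← T64Hex_det, ← Module.Basis.det_comp]
  congr 1
  funext i
  fin_cases i <;> rfl

theorem T64Hex_B0 : volume (ZSpan.fundamentalDomain B0) = 1 := by
  rw [measure_congr (ZSpan.fundamentalDomain_ae_parallelepiped B0 volume)]
  exact (EuclideanSpace.basisFun (Fin 2) ℝ).volume_parallelepiped

theorem T64Hex_vol (c : E) (A : E ≃ₗ[ℝ] E) :
    volume ((fun z => c + A z) '' closedBall (0 : E) 1) =
      ENNReal.ofReal (|LinearMap.det (A : E →ₗ[ℝ] E)| * Real.pi) := by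
  have e : (fun z => c + A z) '' closedBall (0 : E) 1 =
      (fun x => c + x) '' ((A : E →ₗ[ℝ] E) '' closedBall (0 : E) 1) := by
    rw [image_image]
    rfl
  rw [e, vol_translate, Measure.addHaar_image_linearMap, EuclideanSpace.volume_closedBall_fin_two,
    ENNReal.ofReal_mul (abs_nonneg _)]
  simp

theorem T64Hex_copies (B : Module.Basis (Fin 2) ℝ E) (K : Set E) : CopiesBy PM K (latFam B K) := by
  rintro _ ⟨l, rfl⟩
  exact ⟨IsometryEquiv.addLeft (l : E), ⟨l, Or.inl fun _ => rfl⟩, rfl⟩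

theorem T64Hex_bdd (c : E) (A : E ≃ₗ[ℝ] E) :
    Bornology.IsBounded ((fun z => c + A z) '' closedBall (0 : E) 1) :=
  ((isCompact_closedBall (0 : E) 1).image
    (continuous_const.add (A : E →ₗ[ℝ] E).continuous_of_finiteDimensional)).isBounded

theorem T64Hex_ratio (c : E) (A : E ≃ₗ[ℝ] E) (B : Module.Basis (Fin 2) ℝ E) {t : ℝ} (ht : 0 < t)
    (h : |w (B 0) (B 1)| = |LinearMap.det (A : E →ₗ[ℝ] E)| * t) :
    volume ((fun z => c + A z) '' closedBall (0 : E) 1) / volume (ZSpan.fundamentalDomain B) =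
      ENNReal.ofReal (Real.pi / t) := by
  have hd : 0 < |LinearMap.det (A : E →ₗ[ℝ] E)| := abs_pos.2 A.isUnit_det'.ne_zero
  rw [T64Hex_vol, vol_fund, T64Hex_B0, mul_one, h, ← ENNReal.ofReal_div_of_pos (by positivity),
    mul_div_mul_left _ _ hd.ne']

theorem T64Hex_norm (a b : ℝ) (h : a ^ 2 + b ^ 2 = 1) : ‖(!₂[a, b] : E)‖ = 1 := by
  rw [EuclideanSpace.norm_eq, Fin.sum_univ_two]
  simp [h]

theorem le_pdBy (c : E) (A : E ≃ₗ[ℝ] E) :
    ENNReal.ofReal (Real.pi / √12) ≤ pdBy PM ((fun z => c + A z) '' closedBall 0 1) := by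
  let N : Seminorm ℝ E := (normSeminorm ℝ E).comp (A.symm : E →ₗ[ℝ] E)
  have hN : ∀ z, N (A z) = ‖z‖ := fun z => by simp [N]
  have h3 : √3 ^ 2 = 3 := Real.sq_sqrt (by norm_num)
  have h3' : 0 < √3 := by positivity
  have h12 : √12 = 2 * √3 := by
    rw [show (12 : ℝ) = 2 ^ 2 * 3 by norm_num, Real.sqrt_mul (by norm_num),
      Real.sqrt_sq (by norm_num)]
  have hint : ∀ x ∈ interior ((fun z => c + A z) '' closedBall (0 : E) 1), N (x - c) < 1 := by
    intro x hx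
    have e := (A.toContinuousLinearEquiv.toHomeomorph.trans
      (Homeomorph.addLeft c)).image_interior (closedBall (0 : E) 1)
    rw [interior_closedBall _ one_ne_zero] at e
    have hx' : x ∈ (fun z => c + A z) '' ball (0 : E) 1 := e.symm.subset hx
    obtain ⟨z, hz, rfl⟩ := hx'
    rw [add_sub_cancel_left, hN]
    exact mem_ball_zero_iff.1 hz
  have n1 : N (A !₂[1, 0]) = 1 := by rw [hN]; exact T64Hex_norm _ _ (by norm_num)
  have n2 : N (A !₂[1 / 2, √3 / 2]) = 1 := by rw [hN]; exact T64Hex_norm _ _ (by linarith)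
  have n3 : N (A !₂[1 / 2, √3 / 2] - A !₂[1, 0]) = 1 := by
    rw [← map_sub, hN]
    have : (!₂[1 / 2, √3 / 2] - !₂[1, 0] : E) = !₂[-1 / 2, √3 / 2] := by
      ext i
      fin_cases i <;> simp
      norm_num
    rw [this]
    exact T64Hex_norm _ _ (by linarith)
  obtain ⟨x, y, hxy, hw⟩ : ∃ x y, Adm N x y ∧
      w x y = |LinearMap.det (A : E →ₗ[ℝ] E)| * (√3 / 2) := by
    rcases lt_or_gt_of_ne A.isUnit_det'.ne_zero with hd | hd
    · have e : w (A !₂[1 / 2, √3 / 2]) (A !₂[1, 0]) =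
          |LinearMap.det (A : E →ₗ[ℝ] E)| * (√3 / 2) := by
        rw [T64Hex_w, abs_of_neg hd]
        simp [w]
      refine ⟨_, _, ⟨n2, n1, by rw [map_sub_rev]; exact n3, ?_⟩, e⟩
      rw [e]
      exact mul_pos (abs_pos.2 hd.ne) (by positivity)
    · have e : w (A !₂[1, 0]) (A !₂[1 / 2, √3 / 2]) =
          |LinearMap.det (A : E →ₗ[ℝ] E)| * (√3 / 2) := by
        rw [T64Hex_w, abs_of_pos hd]
        simp [w]
      refine ⟨_, _, ⟨n1, n2, n3, ?_⟩, e⟩
      rw [e]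
      exact mul_pos (abs_pos.2 hd.ne') (by positivity)
  have hw0 := hxy.2.2.2
  have e2 : w ((2 : ℝ) • x) ((2 : ℝ) • y) = 4 * w x y := by simp [w]; ring
  obtain ⟨B, b0, b1⟩ := exists_basis (a := (2 : ℝ) • x) (b := (2 : ℝ) • y)
    (by rw [e2]; positivity)
  rw [← T64Hex_ratio c A B (by positivity) (by
    rw [b0, b1, e2, abs_of_pos (by positivity), hw, h12]; ring)]
  exact (dens_bounds B (T64Hex_bdd c A) ⟨_, 0, mem_closedBall_self zero_le_one, rfl⟩
    (T64Hex_bdd c A).measure_lt_top.ne).1.trans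
    (le_iSup₂_of_le (latFam B _) ⟨T64Hex_copies B _, (isPacking_latFam hint hxy B b0 b1).2⟩ le_rfl)

theorem cdBy_le (c : E) (A : E ≃ₗ[ℝ] E) :
    cdBy PM ((fun z => c + A z) '' closedBall 0 1) ≤ ENNReal.ofReal (2 * Real.pi / √27) := by
  let N : Seminorm ℝ E := (normSeminorm ℝ E).comp (A.symm : E →ₗ[ℝ] E)
  have hN : ∀ z, N (A z) = ‖z‖ := fun z => by simp [N]
  have h3 : √3 ^ 2 = 3 := Real.sq_sqrt (by norm_num)
  have h3' : 0 < √3 := by positivity
  have h27 : √27 = 3 * √3 := by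
    rw [show (27 : ℝ) = 3 ^ 2 * 3 by norm_num, Real.sqrt_mul (by norm_num),
      Real.sqrt_sq (by norm_num)]
  have hK : ∀ x, N (x - c) ≤ 1 → x ∈ (fun z => c + A z) '' closedBall (0 : E) 1 := by
    intro x hx
    refine ⟨A.symm (x - c), mem_closedBall_zero_iff.2 ?_, by simp⟩
    rwa [← hN, A.apply_symm_apply]
  have n1 : N (A !₂[1, 0]) = 1 := by rw [hN]; exact T64Hex_norm _ _ (by norm_num)
  have n2 : N (A !₂[1 / 2, √3 / 2]) = 1 := by rw [hN]; exact T64Hex_norm _ _ (by linarith)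
  have n3 : N (A !₂[-1 / 2, √3 / 2]) = 1 := by rw [hN]; exact T64Hex_norm _ _ (by linarith)
  have e : w (A !₂[1, 0] + A !₂[1 / 2, √3 / 2]) (A !₂[1 / 2, √3 / 2] + A !₂[-1 / 2, √3 / 2]) =
      LinearMap.det (A : E →ₗ[ℝ] E) * (√27 / 2) := by
    rw [← map_add, ← map_add, T64Hex_w, h27]
    congr 1
    simp [w]
    ring
  have hw : w (A !₂[1, 0] + A !₂[1 / 2, √3 / 2]) (A !₂[1 / 2, √3 / 2] + A !₂[-1 / 2, √3 / 2]) ≠
      0 := by
    rw [e]
    exact mul_ne_zero A.isUnit_det'.ne_zero (by positivity)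
  obtain ⟨B, b0, b1⟩ := exists_basis hw
  rw [show 2 * Real.pi / √27 = Real.pi / (√27 / 2) by field_simp,
    ← T64Hex_ratio c A B (by positivity) (by
      rw [b0, b1, e, abs_mul, abs_of_pos (a := √27 / 2) (by positivity)])]
  exact le_trans (iInf₂_le_of_le (latFam B _)
    ⟨T64Hex_copies B _, (isCovering_latFam hK n1.le n2.le n3.le hw B b0 b1).2⟩ le_rfl)
    (dens_bounds B (T64Hex_bdd c A) ⟨_, 0, mem_closedBall_self zero_le_one, rfl⟩
      (T64Hex_bdd c A).measure_lt_top.ne).2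

end Pool.Agent.Lib.MP_da2c1b_co
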