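import Pool.Agent.Lib.MP_da2c1b_co.All
import Pool.Agent.Lib.MP_da2c1b_co.T64Defs

/-!
The rigidity theorem for translates of `K` and `-K` (the proofs of `All`, `Dbl`, `Main` use no other
motions).
-/

namespace Pool.Agent.Lib.MP_da2c1b_co

open MeasureTheory Set Filter Metric Module Submodule
open scoped Topology

theorem copiesBy_latFam (b : Basis (Fin 2) ℝ E) (K : Set E) : CopiesBy PM K (latFam b K) := by
  rintro _ ⟨l, rfl⟩
  exact ⟨IsometryEquiv.addLeft (l : E), ⟨l, .inl fun _ => rfl⟩, rfl⟩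

theorem copiesBy_dbl (b : Basis (Fin 2) ℝ E) (z : E) (K : Set E) : CopiesBy PM K (dbl b z K) := by
  rintro C (hC | ⟨l, rfl⟩)
  · exact copiesBy_latFam b K C hC
  · refine ⟨(IsometryEquiv.neg E).trans (IsometryEquiv.addLeft ((l : E) + z)),
      ⟨(l : E) + z, .inr fun x => by simp [sub_eq_add_neg]⟩, ?_⟩
    simp only [refl, image_image]
    congr 1
    funext P
    simp
    abel

theorem pdBy_mono {G G' : Set (E ≃ᵢ E)} (h : G ⊆ G') (K : Set E) : pdBy G K ≤ pdBy G' K :=
  iSup₂_le fun F hF => le_iSup₂_of_le F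
    ⟨fun C hC => (hF.1 C hC).imp fun _ k => ⟨h k.1, k.2⟩, hF.2⟩ le_rfl

theorem cdBy_anti {G G' : Set (E ≃ᵢ E)} (h : G ⊆ G') (K : Set E) : cdBy G' K ≤ cdBy G K :=
  le_iInf₂ fun F hF => iInf₂_le_of_le F
    ⟨fun C hC => (hF.1 C hC).imp fun _ k => ⟨h k.1, k.2⟩, hF.2⟩ le_rfl

theorem cd_le_dblT (b : Basis (Fin 2) ℝ E) (z : E) {K : Set E} (hK : Bornology.IsBounded K)
    (hne : K.Nonempty) (hfin : volume K ≠ ⊤) (h : ⋃₀ dbl b z K = univ) :
    cdBy PM K ≤ 2 * (volume K / volume (ZSpan.fundamentalDomain b)) := by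
  refine le_trans (iInf₂_le_of_le (dbl b z K) ⟨copiesBy_dbl b z K, h⟩ le_rfl) ?_
  rw [← (dbl_tendsto b z hK hne hfin).liminf_eq]
  refine liminf_le_liminf (Eventually.of_forall fun r => ?_)
  unfold dens dbl
  rw [← ENNReal.add_div]
  exact ENNReal.div_le_div_right
    (ENNReal.tsum_union_le (fun C : Set E => volume (C ∩ closedBall 0 r)) _ _) _

theorem dbl_le_pdT (b : Basis (Fin 2) ℝ E) (z : E) {K : Set E} (hK : Bornology.IsBounded K)
    (hne : (interior K).Nonempty) (hfin : volume K ≠ ⊤)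
    (h1 : ∀ l ∈ Lat b, ∀ P ∈ interior K, ∀ Q ∈ interior K, P - Q = l → l = 0)
    (h2 : ∀ l ∈ Lat b, ∀ P ∈ interior K, ∀ Q ∈ interior K, P + Q ≠ z + l) :
    2 * (volume K / volume (ZSpan.fundamentalDomain b)) ≤ pdBy PM K := by
  have mix : ∀ l l' : Lat b, Disjoint (interior ((fun x => (l : E) + x) '' K))
      (interior ((fun x => (l' : E) + x) '' refl z K)) := by
    intro l l'
    rw [interior_translate, interior_translate, interior_refl, Set.disjoint_left]
    rintro _ ⟨P, hP, rfl⟩ ⟨_, ⟨Q, hQ, rfl⟩, e⟩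
    refine h2 _ (l' - l).2 P hP Q hQ ?_
    simp only [AddSubgroupClass.coe_sub] at e ⊢
    have : P = (l' : E) + (z - Q) - l := by rw [e]; abel
    rw [this]; abel
  have hp : CopiesBy PM K (dbl b z K) ∧
      (dbl b z K).Pairwise fun C D => Disjoint (interior C) (interior D) := by
    refine ⟨copiesBy_dbl b z K, ?_⟩
    rintro _ (⟨l, rfl⟩ | ⟨l, rfl⟩) _ (⟨l', rfl⟩ | ⟨l', rfl⟩) hne
    · simp only [interior_translate]
      rw [Set.disjoint_left]
      rintro _ ⟨P, hP, rfl⟩ ⟨Q, hQ, e⟩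
      apply hne
      have := h1 _ (l' - l).2 P hP Q hQ (by
        simp only [AddSubgroupClass.coe_sub] at e ⊢
        rw [sub_eq_sub_iff_add_eq_add, e]; abel)
      have k : l' = l := sub_eq_zero.1 (Subtype.ext this)
      rw [k]
    · exact mix l l'
    · exact (mix l' l).symm
    · simp only [interior_translate, interior_refl]
      rw [Set.disjoint_left]
      rintro _ ⟨_, ⟨P, hP, rfl⟩, rfl⟩ ⟨_, ⟨Q, hQ, rfl⟩, e⟩
      apply hne
      have := h1 _ (l - l').2 P hP Q hQ (by
        simp only [AddSubgroupClass.coe_sub] at e ⊢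
        have : (l : E) = l' + (z - Q) - (z - P) := by rw [e]; abel
        rw [this]; abel)
      have k : l = l' := sub_eq_zero.1 (Subtype.ext this)
      rw [k]
  have hd : Disjoint (latFam b K) (latFam b (refl z K)) := by
    rw [Set.disjoint_left]
    rintro _ ⟨l, rfl⟩ ⟨l', e⟩
    have k := mix l l'
    simp only at e
    rw [e, disjoint_self, interior_translate, bot_eq_empty, image_eq_empty] at k
    exact hne.ne_empty k
  refine le_trans ?_ (le_iSup₂_of_le (dbl b z K) hp le_rfl)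
  rw [← (dbl_tendsto b z hK (hne.mono interior_subset) hfin).limsup_eq]
  refine le_of_eq (congrArg (fun f => limsup f atTop) (funext fun r => ?_))
  unfold dens dbl
  rw [← ENNReal.add_div,
    ENNReal.summable.tsum_union_disjoint (f := fun C : Set E => volume (C ∩ closedBall 0 r)) hd
      ENNReal.summable]

section

variable {N : Seminorm ℝ E} {K : Set E} {c : E}

theorem extremal_of_ratioT (hb : Bornology.IsBounded K) (hne : K.Nonempty)
    (hv0 : volume K ≠ 0) (hv1 : volume K ≠ ⊤)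
    (hint : ∀ x ∈ interior K, N (x - c) < 1) (hK : ∀ x, N (x - c) ≤ 1 → x ∈ K)
    (h : pdBy PM K / cdBy PM K ≤ 3 / 4) : Extremal N := by
  intro x y hxy p q r hp hq hr
  have hw := hxy.2.2.2
  by_contra hlt
  push Not at hlt
  have e1 : w (p + q) (q + r) = w p q + w q r + w p r := by simp [w]; ring
  have e2 : w ((2 : ℝ) • x) ((2 : ℝ) • y) = 4 * w x y := by simp [w]; ring
  set H := w p q + w q r + w p r with hH
  have hH0 : 0 < H := by linarith
  obtain ⟨B, b0, b1⟩ := exists_basis (a := (2 : ℝ) • x) (b := (2 : ℝ) • y)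
    (by rw [e2]; positivity)
  obtain ⟨B', b0', b1'⟩ := exists_basis (a := p + q) (b := q + r) (by rw [e1]; exact hH0.ne')
  have k1 : volume K / volume (ZSpan.fundamentalDomain B) ≤ pdBy PM K :=
    (dens_bounds B hb hne hv1).1.trans
      (le_iSup₂_of_le (latFam B K) ⟨copiesBy_latFam B K, (isPacking_latFam hint hxy B b0 b1).2⟩ le_rfl)
  have k2 : cdBy PM K ≤ volume K / volume (ZSpan.fundamentalDomain B') :=
    le_trans (iInf₂_le_of_le (latFam B' K)
      ⟨copiesBy_latFam B' K,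
        (isCovering_latFam hK hp hq hr (by rw [e1]; exact hH0.ne') B' b0' b1').2⟩ le_rfl)
      (dens_bounds B' hb hne hv1).2
  have k3 := (ENNReal.div_le_div k1 k2).trans h
  rw [vol_fund B, vol_fund B', b0, b1, b0', b1', e1, e2, abs_of_pos hH0,
    abs_of_pos (by positivity)] at k3
  have hD0 : volume (ZSpan.fundamentalDomain B0) ≠ 0 := ZSpan.measure_fundamentalDomain_ne_zero _
  have hD1 : volume (ZSpan.fundamentalDomain B0) ≠ ⊤ :=
    (ZSpan.fundamentalDomain_isBounded B0).measure_lt_top.ne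
  lift volume K to NNReal using hv1 with a ha
  lift volume (ZSpan.fundamentalDomain B0) to NNReal using hD1 with k hk
  have ha0 : (0 : ℝ) < a := by
    have : a ≠ 0 := by simpa using hv0
    positivity
  have hk0 : (0 : ℝ) < k := by
    have : k ≠ 0 := by simpa using hD0
    positivity
  have e3 : (3 / 4 : ENNReal) = ENNReal.ofReal (3 / 4) := by
    rw [ENNReal.ofReal_div_of_pos (by norm_num)]; simp
  rw [← ENNReal.ofReal_coe_nnreal, ← ENNReal.ofReal_coe_nnreal (p := k),
    ← ENNReal.ofReal_mul (by positivity), ← ENNReal.ofReal_mul (by positivity),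
    ← ENNReal.ofReal_div_of_pos (by positivity), ← ENNReal.ofReal_div_of_pos (by positivity),
    ← ENNReal.ofReal_div_of_pos (by positivity), e3,
    ENNReal.ofReal_le_ofReal_iff (by norm_num)] at k3
  have e4 : (a : ℝ) / (4 * w x y * k) / (a / (H * k)) = H / (4 * w x y) := by field_simp
  rw [e4, div_le_iff₀ (by positivity)] at k3
  linarith

end

theorem mainT (K : Set E) (hc : IsCompact K) (hconv : Convex ℝ K) (hne : (interior K).Nonempty)
    (c : E) (hs : ∀ x ∈ K, c + (c - x) ∈ K) (h : pdBy PM K / cdBy PM K ≤ 3 / 4) :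
    ∃ A : E ≃ₗ[ℝ] E, K = (fun z => c + A z) '' closedBall 0 1 := by
  set K0 : Set E := (fun x => c + x) ⁻¹' K with hK0
  have hconv0 : Convex ℝ K0 := hconv.translate_preimage_right c
  have hneg : ∀ x ∈ K0, -x ∈ K0 := by
    intro x hx
    have := hs _ hx
    simpa [hK0] using this
  have hint0 : interior K0 = (fun x => c + x) ⁻¹' interior K :=
    ((Homeomorph.addLeft c).preimage_interior K).symm
  have h0 : K0 ∈ 𝓝 (0 : E) := by
    obtain ⟨u, hu⟩ := hne
    have h1 : u - c ∈ interior K0 := by rw [hint0]; simpa using hu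
    have h2 : -(u - c) ∈ K0 := hneg _ (interior_subset h1)
    have := hconv0.combo_interior_self_mem_interior h1 h2 (a := 1 / 2) (b := 1 / 2)
      (by norm_num) (by norm_num) (by norm_num)
    rw [← mem_interior_iff_mem_nhds]
    convert this using 1
    module
  have hbal : Balanced ℝ K0 := (balanced_iff_neg_mem hconv0).2 fun x hx => hneg x hx
  have habs : Absorbent ℝ K0 := absorbent_nhds_zero h0
  have hcl : IsClosed K0 := hc.isClosed.preimage (by fun_prop)
  let N : Seminorm ℝ E := gaugeSeminorm hbal hconv0 habs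
  have hN : ∀ x, N x = gauge K0 x := fun x => rfl
  have hmem : ∀ x, N x ≤ 1 ↔ x ∈ K0 := by
    intro x
    rw [hN, gauge_le_one_iff_mem_closure hconv0 h0, hcl.closure_eq]
  obtain ⟨R0, hR0⟩ := hc.isBounded.exists_norm_le
  have hRpos : 0 < |R0| + ‖c‖ + 1 := by positivity
  have hR : ∀ x, ‖x‖ ≤ (|R0| + ‖c‖ + 1) * N x := by
    intro x
    have := le_gauge_of_subset_closedBall habs hRpos.le (x := x) (by
      intro z hz
      have h1 := hR0 _ hz
      have h2 := norm_sub_le (c + z) c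
      simp only [add_sub_cancel_left] at h2
      simp only [mem_closedBall, dist_zero_right]
      linarith [le_abs_self R0])
    rw [div_le_iff₀ hRpos] at this
    rw [hN]; linarith
  obtain ⟨L, hL⟩ := hconv0.lipschitz_gauge h0
  have hL' : ∀ x, N x ≤ L * ‖x‖ := by
    intro x
    have := hL.dist_le_mul x 0
    rw [gauge_zero, dist_zero_right, dist_zero_right] at this
    exact (le_abs_self _).trans this
  have hex : Extremal N := by
    refine extremal_of_ratioT (c := c) hc.isBounded (hne.mono interior_subset)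
      (Measure.measure_pos_of_nonempty_interior _ hne).ne' hc.measure_lt_top.ne ?_ ?_ h
    · intro x hx
      rw [hN, gauge_lt_one_iff_mem_interior hconv0 h0, hint0]
      simpa using hx
    · intro x hx
      simpa [hK0] using (hmem _).1 hx
  obtain ⟨A, hA⟩ := hex.ellipse hR hL'
  refine ⟨A, ?_⟩
  ext x
  constructor
  · intro hx
    refine ⟨A.symm (x - c), ?_, by simp⟩
    rw [mem_closedBall, dist_zero_right, ← hA, A.apply_symm_apply, hmem]
    simpa [hK0] using hx
  · rintro ⟨z, hz, rfl⟩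
    rw [mem_closedBall, dist_zero_right, ← hA, hmem] at hz
    exact hz

theorem ratio_leT {K : Set E} (hv0 : volume K ≠ 0) (hv1 : volume K ≠ ⊤)
    (h : pdBy PM K / cdBy PM K ≤ 3 / 4) {B B' : Basis (Fin 2) ℝ E} {W H : ℝ} (hW : 0 < W) (hH : 0 < H)
    (e1 : w (B 0) (B 1) = 4 * W) (e2 : w (B' 0) (B' 1) = H)
    (k1 : 2 * (volume K / volume (ZSpan.fundamentalDomain B)) ≤ pdBy PM K)
    (k2 : cdBy PM K ≤ 2 * (volume K / volume (ZSpan.fundamentalDomain B'))) : H ≤ 3 * W := by
  have k3 := (ENNReal.div_le_div k1 k2).trans h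
  rw [ENNReal.mul_div_mul_left _ _ (by norm_num) (by norm_num), vol_fund B, vol_fund B', e1, e2,
    abs_of_pos hH, abs_of_pos (by positivity)] at k3
  have hD0 : volume (ZSpan.fundamentalDomain B0) ≠ 0 := ZSpan.measure_fundamentalDomain_ne_zero _
  have hD1 : volume (ZSpan.fundamentalDomain B0) ≠ ⊤ :=
    (ZSpan.fundamentalDomain_isBounded B0).measure_lt_top.ne
  lift volume K to NNReal using hv1 with a ha
  lift volume (ZSpan.fundamentalDomain B0) to NNReal using hD1 with k hk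
  have ha0 : (0 : ℝ) < a := by
    have : a ≠ 0 := by simpa using hv0
    positivity
  have hk0 : (0 : ℝ) < k := by
    have : k ≠ 0 := by simpa using hD0
    positivity
  have e3 : (3 / 4 : ENNReal) = ENNReal.ofReal (3 / 4) := by
    rw [ENNReal.ofReal_div_of_pos (by norm_num)]; simp
  rw [← ENNReal.ofReal_coe_nnreal, ← ENNReal.ofReal_coe_nnreal (p := k),
    ← ENNReal.ofReal_mul (by positivity), ← ENNReal.ofReal_mul (by positivity),
    ← ENNReal.ofReal_div_of_pos (by positivity), ← ENNReal.ofReal_div_of_pos (by positivity),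
    ← ENNReal.ofReal_div_of_pos (by positivity), e3,
    ENNReal.ofReal_le_ofReal_iff (by norm_num)] at k3
  have e4 : (a : ℝ) / (4 * W * k) / (a / (H * k)) = H / (4 * W) := by field_simp
  rw [e4, div_le_iff₀ (by positivity)] at k3
  linarith

theorem ext_of_ratioT {K : Set E} (hc : IsCompact K) (hconv : Convex ℝ K)
    (hne : (interior K).Nonempty) (h : pdBy PM K / cdBy PM K ≤ 3 / 4) :
    ∃ N m R L M, Ext K N m R L M := by
  obtain ⟨N, R, L, hR, hL, hN⟩ := exists_norm hc hconv hne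
  obtain ⟨M, hM⟩ := hc.isBounded.exists_norm_le
  have hv0 : volume K ≠ 0 := (Measure.measure_pos_of_nonempty_interior _ hne).ne'
  have hv1 : volume K ≠ ⊤ := hc.measure_lt_top.ne
  have ex : ∀ x, ∃ A v, N x = 1 → A ∈ K ∧ A + x ∈ K ∧ A + v ∈ K ∧ A + x + v ∈ K ∧ 0 < w x v ∧
      ∀ P ∈ K, P + x ∈ K → 0 ≤ w x (P - A) ∧ w x (P - A) ≤ w x v := by
    intro x
    by_cases hx : N x = 1
    · obtain ⟨A, v, k⟩ := exists_par hc hconv hne hN hx
      exact ⟨A, v, fun _ => k⟩
    · exact ⟨0, 0, fun k => absurd k hx⟩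
  choose A V hA using ex
  have key : ∀ x, N x = 1 → ∀ A' u v z, A' ∈ K → A' + u ∈ K → A' + v ∈ K → A' + u + v ∈ K →
      N z ≤ 1 → w (u + (2 : ℝ) • z) v ≤ 3 * w x (V x) := by
    intro x hx A' u v z h1 h2 h3 h4 hz
    obtain ⟨a1, a2, a3, a4, a5, a6⟩ := hA x hx
    by_contra hn
    have hH : 0 < w (u + (2 : ℝ) • z) v := by linarith [not_le.1 hn]
    have e2 : w ((2 : ℝ) • x) ((2 : ℝ) • V x) = 4 * w x (V x) := by simp [w]; ring
    obtain ⟨B, b0, b1⟩ := exists_basis (a := (2 : ℝ) • x) (b := (2 : ℝ) • V x)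
      (by rw [e2]; positivity)
    obtain ⟨B', b0', b1'⟩ := exists_basis hH.ne'
    obtain ⟨F, hF, hF2⟩ := (hN z).1 hz
    obtain ⟨p1, p2⟩ := pack_dbl hconv hN hx a1 a2 a3 a4 a5 a6 B b0 b1
    exact hn (ratio_leT hv0 hv1 h a5 hH (by rw [b0, b1, e2]) (by rw [b0', b1'])
      (dbl_le_pdT B _ hc.isBounded hne hv1 p1 p2)
      (cd_le_dblT B' _ hc.isBounded (hne.mono interior_subset) hv1
        (cover_dbl hconv h1 h2 h3 h4 hF hF2 hH B' b0' b1')))
  have cmp : ∀ x y, N x = 1 → N y = 1 → w y (V y) ≤ w x (V x) := by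
    intro x y hx hy
    obtain ⟨a1, a2, a3, a4, -, -⟩ := hA y hy
    have k := key x hx _ _ _ y a1 a2 a3 a4 hy.le
    rw [w_add_left, w_smul_left] at k
    linarith
  have hx0 : N ((N (ec 0))⁻¹ • ec 0) = 1 := N_normalize hR (ec_ne 0)
  set x0 := (N (ec 0))⁻¹ • ec 0
  have eq : ∀ x, N x = 1 → w x (V x) = w x0 (V x0) := fun x hx =>
    le_antisymm (cmp x0 x hx0 hx) (cmp x x0 hx hx0)
  refine ⟨N, w x0 (V x0), R, L, M, hconv, hc.isClosed, hM, hne, hR, hL, hN,
    (hA x0 hx0).2.2.2.2.1, key x0 hx0, fun x P Q hx h1 h2 h3 h4 => ?_, fun x hx => ?_⟩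
  · obtain ⟨-, -, -, -, -, a6⟩ := hA x hx
    have k1 := (a6 P h1 h2).1
    have k2 := (a6 Q h3 h4).2
    rw [← eq x hx]
    rw [w_sub_right] at k1 k2 ⊢
    linarith
  · obtain ⟨a1, a2, a3, a4, -, -⟩ := hA x hx
    refine ⟨A x, A x + V x, a1, a2, a3, by rw [add_right_comm]; exact a4, ?_⟩
    rw [add_sub_cancel_left, eq x hx]

theorem main_allT (K : Set E) (hc : IsCompact K) (hconv : Convex ℝ K)
    (hne : (interior K).Nonempty) (h : pdBy PM K / cdBy PM K ≤ 3 / 4) :
    ∃ (c : E) (A : E ≃ₗ[ℝ] E), K = (fun z => c + A z) '' closedBall 0 1 := by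
  obtain ⟨N, m, R, L, M, hE⟩ := ext_of_ratioT hc hconv hne h
  obtain ⟨c, hs⟩ := hE.symm
  exact ⟨c, mainT K hc hconv hne c hs h⟩

end Pool.Agent.Lib.MP_da2c1b_co
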