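import Pool.Agent.Lib.MP_da2c1b_co.T64Fin
import Pool.Agent.Lib.MP_da2c1b_co.Lattice

/-!
Packings with translates of an ellipse.
-/

namespace Pool.Agent.Lib.MP_da2c1b_co

open MeasureTheory Set Filter Metric
open scoped Topology

theorem T64Pack_mem {c : E} {A : E ≃ₗ[ℝ] E} {φ : E ≃ᵢ E} (h : φ ∈ PM) :
    ∃ p, φ '' ((fun z => c + A z) '' closedBall 0 1) = (fun z => p + A z) '' closedBall 0 1 := by
  obtain ⟨d, h | h⟩ := h
  · refine ⟨d + c, ?_⟩
    rw [image_image]
    simp only [h, add_assoc]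
  · refine ⟨d - c, ?_⟩
    rw [image_image]
    ext x
    constructor <;> rintro ⟨z, hz, rfl⟩ <;> refine ⟨-z, by simpa using hz, ?_⟩ <;>
      simp only [h, map_neg] <;> abel

theorem T64Pack_int (p : E) (A : E ≃ₗ[ℝ] E) {z : E} (hz : ‖z‖ < 1) :
    p + A z ∈ interior ((fun z => p + A z) '' closedBall 0 1) := by
  have ho : IsOpen ((fun z => p + A z) '' ball (0 : E) 1) :=
    (A.toContinuousLinearEquiv.toHomeomorph.trans (Homeomorph.addLeft p)).isOpenMap _ isOpen_ball
  exact interior_maximal (image_mono ball_subset_closedBall) ho ⟨z, by simpa using hz, rfl⟩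

theorem T64Pack_sep {p q : E} {A : E ≃ₗ[ℝ] E}
    (h : Disjoint (interior ((fun z => p + A z) '' closedBall 0 1))
      (interior ((fun z => q + A z) '' closedBall 0 1))) : 2 ≤ dist (A.symm p) (A.symm q) := by
  by_contra hn
  have h1 : ‖(1 / 2 : ℝ) • (A.symm p - A.symm q)‖ < 1 := by
    rw [norm_smul, ← dist_eq_norm, Real.norm_eq_abs, abs_of_pos (by norm_num)]
    linarith
  refine disjoint_left.1 h (T64Pack_int p A (z := -((1 / 2 : ℝ) • (A.symm p - A.symm q)))
    (by rwa [norm_neg])) ?_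
  convert T64Pack_int q A h1 using 1
  simp only [map_neg, map_smul, map_sub, LinearEquiv.apply_symm_apply]
  module

theorem T64Pack_vol (p : E) (A : E ≃ₗ[ℝ] E) (X : Set E) :
    volume ((fun z => p + A z) '' X) =
      ENNReal.ofReal |LinearMap.det (A : E →ₗ[ℝ] E)| * volume X := by
  rw [← Measure.addHaar_image_linearMap, ← image_image (fun y => p + y) A, image_add_left,
    measure_preimage_add]
  rfl

theorem T64Pack_sum {c : E} {A : E ≃ₗ[ℝ] E} {F : Set (Set E)} {L : ℝ}
    (hL : ∀ z, ‖A z‖ ≤ L * ‖z‖) (h0 : 0 ≤ L)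
    (h1 : CopiesBy PM ((fun z => c + A z) '' closedBall 0 1) F)
    (h2 : F.Pairwise fun C D => Disjoint (interior C) (interior D)) (r : ℝ) :
    ∑' C : F, volume ((C : Set E) ∩ closedBall 0 r) ≤
      ENNReal.ofReal (Real.pi / √12) * volume (closedBall (0 : E) (r + 5 * L)) := by
  classical
  have h3 : ∀ C : F, ∃ p, (C : Set E) = (fun z => p + A z) '' closedBall 0 1 := fun C => by
    obtain ⟨φ, a, b⟩ := h1 C C.2
    obtain ⟨p, hp⟩ := T64Pack_mem (c := c) (A := A) a
    exact ⟨p, b.trans hp⟩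
  choose p hp using h3
  rw [ENNReal.tsum_eq_iSup_sum]
  refine iSup_le fun s => ?_
  set D := ENNReal.ofReal |LinearMap.det (A : E →ₗ[ℝ] E)| with hD
  set s' := s.filter fun C : F => ((C : Set E) ∩ closedBall 0 r).Nonempty with hs'
  have inj : Function.Injective fun C => A.symm (p C) := fun C C' e =>
    Subtype.ext (by rw [hp C, hp C', A.symm.injective e])
  have a1 : ∑ C ∈ s, volume ((C : Set E) ∩ closedBall 0 r) ≤
      s'.card * (D * ENNReal.ofReal Real.pi) := by
    rw [← Finset.sum_filter_of_ne (p := fun C : F => ((C : Set E) ∩ closedBall 0 r).Nonempty)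
      fun C _ h => nonempty_of_measure_ne_zero h, ← nsmul_eq_mul]
    refine Finset.sum_le_card_nsmul _ _ _ fun C _ => (measure_mono inter_subset_left).trans ?_
    rw [hp C, T64Pack_vol, EuclideanSpace.volume_closedBall_fin_two]
    simp [hD]
  have a2 := thue_fin (s'.image fun C => A.symm (p C)) (by
    simp only [Finset.mem_image]
    rintro _ ⟨C, -, rfl⟩ _ ⟨C', -, rfl⟩ e
    refine T64Pack_sep ?_
    rw [← hp C, ← hp C']
    exact h2 C.2 C'.2 fun e' => e (by rw [Subtype.ext e']))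
  rw [Finset.card_image_of_injective _ inj] at a2
  have a3 : D * volume {x | ∃ s ∈ s'.image fun C => A.symm (p C), dist x s ≤ 4} ≤
      volume (closedBall (0 : E) (r + 5 * L)) := by
    rw [hD, ← T64Pack_vol 0 A]
    refine measure_mono ?_
    rintro _ ⟨x, ⟨_, hx, hd⟩, rfl⟩
    obtain ⟨C, hC, rfl⟩ := Finset.mem_image.1 hx
    obtain ⟨y, b1, b2⟩ := (Finset.mem_filter.1 hC).2
    rw [hp C] at b1
    obtain ⟨z, b3, rfl⟩ := b1
    rw [mem_closedBall_zero_iff] at b2 b3 ⊢
    rw [dist_eq_norm] at hd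
    have e : 0 + A x = (p C + A z) + A (x - A.symm (p C)) - A z := by
      rw [map_sub, A.apply_symm_apply]
      abel
    have b4 := (hL z).trans (mul_le_mul_of_nonneg_left b3 h0)
    have b5 := (hL _).trans (mul_le_mul_of_nonneg_left hd h0)
    beta_reduce at b2 ⊢
    rw [e]
    linarith [norm_sub_le (p C + A z + A (x - A.symm (p C))) (A z),
      norm_add_le (p C + A z) (A (x - A.symm (p C)))]
  have a4 : ENNReal.ofReal Real.pi = ENNReal.ofReal (Real.pi / √12) * ENNReal.ofReal √12 := by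
    rw [← ENNReal.ofReal_mul (by positivity), div_mul_cancel₀ _ (by positivity)]
  refine a1.trans (le_trans ?_ (mul_le_mul_right ((mul_le_mul_right a2 D).trans a3) _))
  rw [a4]
  exact le_of_eq (by ring)

theorem pdBy_le (c : E) (A : E ≃ₗ[ℝ] E) :
    pdBy PM ((fun z => c + A z) '' closedBall 0 1) ≤ ENNReal.ofReal (Real.pi / √12) := by
  refine iSup₂_le fun F hF => ?_
  set L := ‖(A.toContinuousLinearEquiv : E →L[ℝ] E)‖
  have hl := ENNReal.Tendsto.const_mul (a := ENNReal.ofReal (Real.pi / √12))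
    (tendsto_ratio (5 * L)) (Or.inr ENNReal.ofReal_ne_top)
  rw [mul_one] at hl
  rw [← hl.limsup_eq]
  refine limsup_le_limsup (Eventually.of_forall fun r => ?_)
  unfold dens
  beta_reduce
  rw [← mul_div_assoc]
  exact ENNReal.div_le_div_right (T64Pack_sum
    (fun z => (A.toContinuousLinearEquiv : E →L[ℝ] E).le_opNorm z) (norm_nonneg _) hF.1 hF.2 r) _

end Pool.Agent.Lib.MP_da2c1b_co
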