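import Pool.Agent.Lib.MP_da2c1b_co.T64Defs
import Pool.Agent.Lib.MP_da2c1b_co.Geom

/-!
Triangles.
-/

namespace Pool.Agent.Lib.MP_da2c1b_co

open MeasureTheory Set Filter Metric
open scoped Topology

/-- The triangle with the given vertices. -/
def tri (t : E × E × E) : Set E := convexHull ℝ {t.1, t.2.1, t.2.2}

/-- A Delaunay triangle of `S`, with vertices ordered by the height `w v`. -/
def Del (S : Finset E) (v : E) (t : E × E × E) : Prop :=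
  t.1 ∈ S ∧ t.2.1 ∈ S ∧ t.2.2 ∈ S ∧ w v t.1 < w v t.2.1 ∧ w v t.2.1 < w v t.2.2 ∧
    w (t.2.1 - t.1) (t.2.2 - t.1) ≠ 0 ∧ ∃ (o : E) (ρ : ℝ), dist t.1 o = ρ ∧ dist t.2.1 o = ρ ∧
      dist t.2.2 o = ρ ∧ ∀ s ∈ S, ρ ≤ dist s o

/-- A Delaunay triangulation. -/
structure Trg (S : Finset E) (v : E) (T : Finset (E × E × E)) : Prop where
  gen : ∀ p ∈ S, ∀ q ∈ S, w v p = w v q → p = q
  ne : v ≠ 0
  del : ∀ t ∈ T, Del S v t
  dis : ∀ t ∈ T, ∀ t' ∈ T, t ≠ t' → Disjoint (interior (tri t)) (interior (tri t'))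
  cov : ∀ y ∈ interior (convexHull ℝ (S : Set E)), ∃ t ∈ T, y ∈ tri t

end Pool.Agent.Lib.MP_da2c1b_co
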